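import Pool.Agent.K3h8.GG.Stm

/-!
# Signed words: statements of the parts of the sharp lower bound

Words over the alphabet `Fin (p + 1) ⊕ Fin k`: `p + 1` even letters and `k` labels of the odd letter.
The functions of `FF p k n` live on the words which use each label exactly once, and are
antisymmetric in the labels; together for all `k` they form the `n`-th tensor power of a super
vector space of dimension `p + 1 | 1`.
-/

set_option autoImplicit false
set_option linter.unusedSectionVars false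

open Equiv (Perm swap)

noncomputable section

namespace Pool.Agent.K3h8.GG

/-- The action of the permutations of the places on the functions on the words over `A`. -/
def actA (A : Type) (n : ℕ) : Perm (Fin n) →* Module.End ℚ ((Fin n → A) → ℚ) where
  toFun σ := LinearMap.funLeft ℚ ℚ (fun w : Fin n → A => w ∘ σ)
  map_one' := by ext; simp [LinearMap.funLeft]
  map_mul' σ τ := by ext; simp [LinearMap.funLeft, Function.comp_def]

theorem actA_apply {A : Type} {n : ℕ} (σ : Perm (Fin n)) (f : (Fin n → A) → ℚ) (w : Fin n → A) :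
    actA A n σ f w = f (w ∘ σ) := rfl

/-- The functions on signed words with `k` odd letters. -/
def FF (p k n : ℕ) : Submodule ℚ ((Fin n → Fin (p + 1) ⊕ Fin k) → ℚ) where
  carrier := {f | (∀ (π : Perm (Fin k)) (w : Fin n → Fin (p + 1) ⊕ Fin k),
      f (Sum.map id π ∘ w) = ((Equiv.Perm.sign π : ℤ) : ℚ) * f w) ∧
    ∀ w : Fin n → Fin (p + 1) ⊕ Fin k, f w ≠ 0 → ∀ j : Fin k, ∃! i, w i = Sum.inr j}
  zero_mem' := ⟨fun _ _ => by simp, fun w h => absurd rfl h⟩
  add_mem' := by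
    rintro f g ⟨hf1, hf2⟩ ⟨hg1, hg2⟩
    refine ⟨fun π w => ?_, fun w h => ?_⟩
    · rw [Pi.add_apply, Pi.add_apply, hf1, hg1, mul_add]
    · by_cases h1 : f w = 0
      · refine hg2 w fun h2 => h ?_
        rw [Pi.add_apply, h1, h2, add_zero]
      · exact hf2 w h1
  smul_mem' := by
    rintro c f ⟨hf1, hf2⟩
    refine ⟨fun π w => ?_, fun w h => ?_⟩
    · rw [Pi.smul_apply, Pi.smul_apply, hf1, smul_eq_mul, smul_eq_mul]
      ring
    · refine hf2 w fun h2 => h ?_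
      rw [Pi.smul_apply, h2, smul_zero]

/-- The linear combinations of permutations which act as zero on all signed words. -/
def Ker (p n : ℕ) : Submodule ℚ (Perm (Fin n) → ℚ) where
  carrier := {u | ∀ k, ∀ f ∈ FF p k n, ∑ σ, u σ • actA (Fin (p + 1) ⊕ Fin k) n σ f = 0}
  zero_mem' := fun k f _ => by simp
  add_mem' := by
    intro u v hu hv k f hf
    simp only [Pi.add_apply, add_smul, Finset.sum_add_distrib]
    rw [hu k f hf, hv k f hf, add_zero]
  smul_mem' := by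
    intro c u hu k f hf
    simp only [Pi.smul_apply, smul_eq_mul, mul_smul]
    rw [← Finset.smul_sum, hu k f hf, smul_zero]

/-- brick COS2: decomposition into cosets of the stabilizer of the letter `0`. -/
def S_COS2 : Prop := ∀ (p n : ℕ) (v : Perm (Fin (n + 1)) → ℚ),
  ((∀ g, (fun τ : Perm (Fin n) => v (g * up τ)) ∈ Ker p n) → v ∈ Ker p (n + 1)) ∧
  ((∀ g, (fun τ : Perm (Fin n) => v (up τ * g)) ∈ Ker p n) → v ∈ Ker p (n + 1))

/-- brick K0: if `∑ (0 i)` is the scalar `-p` and the replacements of an even letter by an odd one are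
zero, then there is no odd letter. -/
def S_K0 : Prop := ∀ (p k n : ℕ) (W : Submodule ℚ ((Fin (n + 1) → Fin (p + 1) ⊕ Fin k) → ℚ)),
  W ≤ FF p k (n + 1) → W ≠ ⊥ →
  (∀ σ, ∀ f ∈ W, actA (Fin (p + 1) ⊕ Fin k) (n + 1) σ f ∈ W) →
  (∀ (a : Fin (p + 1)) (j : Fin k), ∀ f ∈ W, ∀ w : Fin (n + 1) → Fin (p + 1) ⊕ Fin k,
    (∀ i, w i ≠ Sum.inr j) →
    ∑ i, (if w i = Sum.inl a then f (Function.update w i (Sum.inr j)) else 0) = 0) →
  (∀ f ∈ W, ∑ i : Fin n, actA (Fin (p + 1) ⊕ Fin k) (n + 1) (swap 0 i.succ) f =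
    (-(p : ℚ)) • f) → k = 0

/-- brick COMB2: ideals of relations between permutations. -/
def S_COMB2 : Prop := ∀ (p : ℕ) (I : ∀ n, Submodule ℚ (Perm (Fin n) → ℚ)), I 0 = ⊥ →
  (∀ n, ∀ u ∈ I n, ∀ g, (fun σ => u (g * σ)) ∈ I n) →
  (∀ n, ∀ u ∈ I n, ∀ g, (fun σ => u (σ * g)) ∈ I n) →
  (∀ n, ∀ u ∈ I (n + 1), PTr p u ∈ I n) →
  (∃ n, ¬ I n ≤ Ker p n) →
  (fun σ => ((Equiv.Perm.sign σ : ℤ) : ℚ)) ∈ I (p + 1)

/-- brick DIM2: the dimension of the algebra of permutations of signed words. -/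
def S_DIM2 : Prop := ∀ p n : ℕ, (p + 2) ^ (2 * n) ≤
  Module.finrank ℚ ((Perm (Fin n) → ℚ) ⧸ Ker p n) * Nat.multichoose ((p + 2) ^ 2) n

/-- brick SMALL: few letters. -/
def S_SMALL : Prop := ∀ (p : ℕ) (I : ∀ n, Submodule ℚ (Perm (Fin n) → ℚ)), I 0 = ⊥ →
  (∀ n, ∀ u ∈ I n, ∀ g, (fun σ => u (g * σ)) ∈ I n) →
  (∀ n, ∀ u ∈ I n, ∀ g, (fun σ => u (σ * g)) ∈ I n) →
  (∀ n, ∀ u ∈ I (n + 1), PTr p u ∈ I n) →
  (∃ n, n ≤ 2 * p + 3 ∧ I n ≠ ⊥) →
  (fun σ => ((Equiv.Perm.sign σ : ℤ) : ℚ)) ∈ I (p + 1)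

end Pool.Agent.K3h8.GG
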