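import Pool.Agent.K3h8.GG.Main
import Pool.Agent.K3h8.GG.Stm2

/-!
# The algebra of permutations of an object of pure parity: the dichotomy
-/

set_option autoImplicit false
set_option linter.unusedSectionVars false

open CategoryTheory Limits MonoidalCategory
open Pool.Agent.Y112.SR Pool.Agent.Y112.KD Pool.Agent.R905 Pool.Agent.K3h8.KS
open Pool.Agent.Y116.MT (tr)
open Equiv (Perm swap)

noncomputable section

namespace Pool.Agent.K3h8.GG

universe v u w

section

variable {C : Type u} [Category.{v} C] [Preadditive C] [Linear ℚ C] [MonoidalCategory C]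
  [MonoidalPreadditive C] [MonoidalLinear ℚ C] [SymmetricCategory C] [RightRigidCategory C]
  [IsIdempotentComplete C] {K : Type w} [Field K] (R : SuperRealisation C K)

include R in
/-- The relations between the permutations of an object of pure parity. -/
theorem exists_family (hCAT : S_CAT C) (hU : UnitQ C) {M : C}
    {d : ℚ} (hd : d = 1 ∨ d = -1) (hM : R.par M = (d : K) • 𝟙 _) :
    ∃ I : ∀ n, Submodule ℚ (Perm (Fin n) → ℚ), I 0 = ⊥ ∧
      (∀ n, ∀ u ∈ I n, ∀ g, (fun σ => u (g * σ)) ∈ I n) ∧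
      (∀ n, ∀ u ∈ I n, ∀ g, (fun σ => u (σ * g)) ∈ I n) ∧
      (∀ n, ∀ u ∈ I (n + 1), PTr (Module.finrank K (R.H.obj M)) u ∈ I n) ∧
      (∀ n, Module.finrank ℚ (permAlg M n) + Module.finrank ℚ (I n) = n.factorial) ∧
      ((fun σ => ((Equiv.Perm.sign σ : ℤ) : ℚ)) ∈ I (Module.finrank K (R.H.obj M) + 1) →
        IsKimuraFinite M) := by
  set b := Module.finrank K (R.H.obj M) with hb
  have hdd : d * d = 1 := by rcases hd with rfl | rfl <;> norm_num
  have hd0 : d ≠ 0 := by rcases hd with rfl | rfl <;> norm_num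
  have htr : tr (𝟙 M) = (d * (b : ℚ)) • 𝟙 _ := by
    rw [tr_one hU M, trq_one R hU d hM]
  obtain ⟨ρ, hspan, hptr, hsw⟩ := hCAT M _ htr
  refine ⟨fun n => LinearMap.ker (Lmap d ρ n), ?_, ?_, ?_, ?_, ?_, ?_⟩
  · change LinearMap.ker (Lmap d ρ 0) = ⊥
    rw [LinearMap.ker_eq_bot']
    intro u hu
    rw [Lmap_apply] at hu
    have h1 : (Finset.univ : Finset (Perm (Fin 0))) = {1} := by
      ext σ; simp [Subsingleton.elim σ 1]
    rw [h1, Finset.sum_singleton, map_one] at hu
    have h2 : (1 : End (tp M 0)) ≠ 0 := hU.ne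
    have h3 := (smul_eq_zero.1 hu).resolve_right h2
    have h4 : chi d (1 : Perm (Fin 0)) ≠ 0 := fun h => by
      have := chi_sq d (1 : Perm (Fin 0)); rw [h] at this; norm_num at this
    have h5 := (mul_eq_zero.1 h3).resolve_left h4
    funext σ
    rw [Subsingleton.elim σ 1, h5]
    rfl
  · intro n u hu g
    rw [LinearMap.mem_ker] at hu ⊢
    rw [Lmap_left, hu, mul_zero, smul_zero]
  · intro n u hu g
    rw [LinearMap.mem_ker] at hu ⊢
    rw [Lmap_right, hu, zero_mul, smul_zero]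
  · intro n u hu
    rw [LinearMap.mem_ker] at hu ⊢
    have e1 := hptr n (fun σ => chi d σ * u σ)
    have e2 : (ptr (show tp M n ⊗ M ⟶ tp M n ⊗ M from
        ∑ σ, (chi d σ * u σ) • ρ (n + 1) σ) : End (tp M n)) = 0 := by
      have e3 : (show tp M n ⊗ M ⟶ tp M n ⊗ M from
        ∑ σ, (chi d σ * u σ) • ρ (n + 1) σ) = 0 := hu
      rw [e3]
      exact (ptrL (tp M n) M).map_zero
    rw [e2] at e1
    simp only [PTr_chi hd, mul_smul d] at e1
    rw [← Finset.smul_sum] at e1
    exact (smul_eq_zero.1 e1.symm).resolve_left hd0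
  · intro n
    have h1 := LinearMap.finrank_range_add_finrank_ker (Lmap d ρ n)
    rw [Lmap_range, hspan] at h1
    have h2 : Module.finrank ℚ (Perm (Fin n) → ℚ) = n.factorial := by
      rw [Module.finrank_fintype_fun_eq_card, Fintype.card_perm, Fintype.card_fin]
    rw [h2] at h1
    exact h1
  · intro h1
    rw [LinearMap.mem_ker, Lmap_apply] at h1
    have hη : (-d) * (-d) = 1 := by rw [neg_mul_neg, hdd]
    have hη' : -d = 1 ∨ -d = -1 := by
      rcases hd with rfl | rfl
      · right; rfl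
      · left; rw [neg_neg]
    -- the character
    let c : Perm (Fin (b + 1)) →* ℚ :=
      { toFun := fun σ => chi d σ * ((Equiv.Perm.sign σ : ℤ) : ℚ)
        map_one' := by simp [chi]
        map_mul' := fun σ τ => by rw [chi_mul, Equiv.Perm.sign_mul]; push_cast; ring }
    have hc : ∀ i : Fin b, c (swap i.castSucc i.succ) = -d := by
      intro i
      change chi d _ * _ = -d
      have hne : i.castSucc ≠ i.succ := Fin.castSucc_lt_succ.ne
      unfold chi
      rcases hd with rfl | rfl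
      · rw [if_pos rfl, Equiv.Perm.sign_swap hne]; simp
      · rw [if_neg (by norm_num), Equiv.Perm.sign_swap hne]; simp
    have hcc : ∀ σ, c σ * c σ = 1 := by
      intro σ
      change (chi d σ * ((Equiv.Perm.sign σ : ℤ) : ℚ)) *
        (chi d σ * ((Equiv.Perm.sign σ : ℤ) : ℚ)) = 1
      rw [mul_mul_mul_comm, chi_sq, sgn_sq, one_mul]
    have h2 : asym (-d) M (b + 1) ≫
        (show tp M (b + 1) ⟶ tp M (b + 1) from ∑ σ, c σ • ρ (b + 1) σ) =
        ((Nat.factorial (b + 1) : ℕ) : ℚ) • asym (-d) M (b + 1) := by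
      have e1 : asym (-d) M (b + 1) ≫
        (show tp M (b + 1) ⟶ tp M (b + 1) from ∑ σ, c σ • ρ (b + 1) σ) =
          ∑ σ : Perm (Fin (b + 1)), asym (-d) M (b + 1) ≫
            (c σ • (ρ (b + 1) σ : tp M (b + 1) ⟶ tp M (b + 1))) :=
        Preadditive.comp_sum _ _ _
      rw [e1]
      have e2 : ∀ σ ∈ (Finset.univ : Finset (Perm (Fin (b + 1)))), asym (-d) M (b + 1) ≫
            (c σ • (ρ (b + 1) σ : tp M (b + 1) ⟶ tp M (b + 1))) = asym (-d) M (b + 1) := by
        intro σ _
        rw [Linear.comp_smul, rho_asym hη ρ hsw b c hc, smul_smul, hcc, one_smul]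
      rw [Finset.sum_congr rfl e2, Finset.sum_const, Finset.card_univ, Fintype.card_perm,
        Fintype.card_fin, ← Nat.cast_smul_eq_nsmul ℚ]
    have h3 : (show tp M (b + 1) ⟶ tp M (b + 1) from ∑ σ, c σ • ρ (b + 1) σ) = 0 := h1
    rw [h3, comp_zero] at h2
    have h4 : ((Nat.factorial (b + 1) : ℕ) : ℚ) ≠ 0 := by exact_mod_cast Nat.factorial_ne_zero _
    exact kimura_of_asym hη' ((smul_eq_zero.1 h2.symm).resolve_left h4)

/-- The inequality for `n` from an inclusion of the relations. -/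
theorem dim_of_le {p n a : ℕ} (hDIM : S_DIM2) (I : Submodule ℚ (Perm (Fin n) → ℚ))
    (hI : I ≤ Ker p n) (ha : a + Module.finrank ℚ I = n.factorial) :
    (p + 2) ^ (2 * n) ≤ a * Nat.multichoose ((p + 2) ^ 2) n := by
  have h1 := Submodule.finrank_quotient_add_finrank (Ker p n)
  have h2 : Module.finrank ℚ (Perm (Fin n) → ℚ) = n.factorial := by
    rw [Module.finrank_fintype_fun_eq_card, Fintype.card_perm, Fintype.card_fin]
  have h3 := Submodule.finrank_mono hI
  have h4 : Module.finrank ℚ ((Perm (Fin n) → ℚ) ⧸ Ker p n) ≤ a := by omega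
  exact (hDIM p n).trans (Nat.mul_le_mul_right _ h4)

include R in
/-- **The dichotomy.** -/
theorem dichotomy (hCOMB : S_COMB2) (hDIM : S_DIM2) (hSM : S_SMALL) (hGRO : S_GRO)
    (hCAT : S_CAT C) (hUB : S_UB.{v, u, w} C) (hU : UnitQ C) {M : C}
    {d : ℚ} (hd : d = 1 ∨ d = -1) (hM : R.par M = (d : K) • 𝟙 _) :
    (IsKimuraFinite M → Module.finrank ℚ (permAlg M (Module.finrank K (R.H.obj M) + 1)) <
      (Module.finrank K (R.H.obj M) + 1).factorial) ∧
    (∀ n, n ≤ 2 * Module.finrank K (R.H.obj M) + 3 →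
      Module.finrank ℚ (permAlg M n) < n.factorial → IsKimuraFinite M) ∧
    (IsKimuraFinite M → ∀ n, Module.finrank ℚ (permAlg M n) ≤
      Module.finrank K (R.H.obj M) ^ (2 * n)) ∧
    (¬ IsKimuraFinite M → ∀ n, (Module.finrank K (R.H.obj M) + 2) ^ (2 * n) ≤
      Module.finrank ℚ (permAlg M n) *
        Nat.multichoose ((Module.finrank K (R.H.obj M) + 2) ^ 2) n) ∧
    (∀ β D : ℝ, 0 ≤ β → β < ((Module.finrank K (R.H.obj M) : ℝ) + 2) ^ 2 →
      (∃ᶠ n : ℕ in Filter.atTop, (Module.finrank ℚ (permAlg M n) : ℝ) ≤ D * β ^ n) →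
      IsKimuraFinite M) := by
  obtain ⟨I, h0, hL, hR, hP, hdim, hK⟩ := exists_family R hCAT hU hd hM
  set b := Module.finrank K (R.H.obj M) with hb
  have hub : IsKimuraFinite M → ∀ n, Module.finrank ℚ (permAlg M n) ≤ b ^ (2 * n) :=
    fun h n => hUB K R hU M d hd hM h n
  -- the growth criterion, for the ideal
  have hgrow : ∀ β D : ℝ, 0 ≤ β → β < ((b : ℝ) + 2) ^ 2 →
      (∃ᶠ n : ℕ in Filter.atTop, (Module.finrank ℚ (permAlg M n) : ℝ) ≤ D * β ^ n) →
      (fun σ => ((Equiv.Perm.sign σ : ℤ) : ℚ)) ∈ I (b + 1) := by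
    intro β D h0β hβ hfreq
    by_contra hnot
    have hle : ∀ n, I n ≤ Ker b n := by
      intro n
      by_contra h
      exact hnot (hCOMB b I h0 hL hR hP ⟨n, h⟩)
    refine hGRO (b + 2) (fun n => Module.finrank ℚ (permAlg M n)) β D ?_ h0β
      (fun n => dim_of_le hDIM (I n) (hle n) (hdim n)) hfreq
    push_cast
    exact hβ
  refine ⟨fun h => ?_, ?_, hub, ?_, fun β D h1 h2 h3 => hK (hgrow β D h1 h2 h3)⟩
  · have h1 : (fun σ => ((Equiv.Perm.sign σ : ℤ) : ℚ)) ∈ I (b + 1) := by
      refine hgrow ((b : ℝ) ^ 2) 1 (by positivity) ?_ ?_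
      · have : (0 : ℝ) ≤ b := Nat.cast_nonneg _
        nlinarith
      · refine Filter.Eventually.frequently (Filter.Eventually.of_forall fun n => ?_)
        have h2 := hub h n
        rw [one_mul, ← pow_mul]
        exact_mod_cast h2
    have h2 := hdim (b + 1)
    have h3 : I (b + 1) ≠ ⊥ := by
      intro h4
      rw [h4, Submodule.mem_bot] at h1
      have := congrFun h1 1
      simp at this
    have h4 : 0 < Module.finrank ℚ (I (b + 1)) :=
      Nat.pos_of_ne_zero fun h => h3 (Submodule.finrank_eq_zero.1 h)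
    omega
  · intro n hn hlt
    refine hK (hSM b I h0 hL hR hP ⟨n, hn, fun h => ?_⟩)
    have h2 := hdim n
    rw [h, finrank_bot] at h2
    omega
  · intro hnot n
    refine dim_of_le hDIM (I n) ?_ (hdim n)
    by_contra h
    exact hnot (hK (hCOMB b I h0 hL hR hP ⟨n, h⟩))

end

end Pool.Agent.K3h8.GG
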