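import Pool.Agent.K3h8.GG.Small

/-!
# Relations between few permutations: ideals
-/

set_option autoImplicit false

namespace Pool.Agent.K3h8.GG

open Pool.Agent.K3h79.GG (op_apply act_op E_op swap_up)
open Equiv (Perm swap)

/-- The operators of the elements of an ideal, at the first level where they are not zero. -/
theorem core' (hC : S_COS) {p d N : ℕ} (I : ∀ n, Submodule ℚ (Perm (Fin n) → ℚ))
    (hR : ∀ n, ∀ u ∈ I n, ∀ g, (fun σ => u (σ * g)) ∈ I n)
    (hP : ∀ n, ∀ u ∈ I (n + 1), PTr p u ∈ I n)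
    (hmin : ∀ u ∈ I N, op (d + 1) N u = 0) (u : Perm (Fin (N + 1)) → ℚ) (hu : u ∈ I (N + 1))
    (f : (Fin (N + 1) → Fin (d + 1)) → ℚ) :
    ∑ i : Fin N, act (d + 1) (N + 1) (swap 0 i.succ) (op (d + 1) (N + 1) u f) =
      (-(p : ℚ)) • op (d + 1) (N + 1) u f := by
  have hv : op (d + 1) (N + 1) (fun σ => (p : ℚ) * u σ + ∑ i : Fin N, u (swap 0 i.succ * σ)) = 0 := by
    refine (hC (d + 1) N _).2 fun g => ?_
    have h1 : (fun τ : Perm (Fin N) => (p : ℚ) * u (up τ * g) +
        ∑ i : Fin N, u (swap 0 i.succ * (up τ * g))) = PTr p (fun s => u (s * g)) := by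
      funext τ
      simp only [PTr]
      congr 1
      refine Fintype.sum_equiv (τ⁻¹ : Perm (Fin N)) _ _ (fun i => ?_)
      rw [← mul_assoc, swap_up]
    rw [h1]
    exact hmin _ (hP N _ (hR (N + 1) u hu g))
  have h2 := congrArg (fun A => A f) hv
  simp only [LinearMap.zero_apply] at h2
  rw [op_apply] at h2
  simp only [add_smul, Finset.sum_add_distrib, Finset.sum_smul, mul_smul] at h2
  rw [← Finset.smul_sum, ← op_apply, Finset.sum_comm] at h2
  have h3 : ∀ i : Fin N, ∑ σ, u (swap 0 i.succ * σ) • act (d + 1) (N + 1) σ f =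
      act (d + 1) (N + 1) (swap 0 i.succ) (op (d + 1) (N + 1) u f) := by
    intro i
    rw [act_op, op_apply, Equiv.swap_inv]
  simp only [h3] at h2
  rw [neg_smul, eq_neg_iff_add_eq_zero]
  exact (add_comm _ _).trans h2

/-- The words of `N` different letters see all relations. -/
theorem op_faithful {N : ℕ} (u : Perm (Fin N) → ℚ) (hu : op N N u = 0) : u = 0 := by
  classical
  funext σ0
  have h1 : op N N u (Pi.single (id : Fin N → Fin N) (1 : ℚ)) (⇑(σ0⁻¹) : Fin N → Fin N) = 0 := by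
    rw [hu]
    rfl
  rw [op_apply, Finset.sum_apply, Finset.sum_eq_single σ0] at h1
  · rw [Pi.smul_apply, act_apply] at h1
    have h2 : (⇑(σ0⁻¹) ∘ ⇑σ0 : Fin N → Fin N) = id := by
      funext i
      simp
    rw [h2, Pi.single_eq_same, smul_eq_mul, mul_one] at h1
    exact h1
  · intro σ _ hσ
    rw [Pi.smul_apply, act_apply, Pi.single_eq_of_ne, smul_zero]
    intro h
    apply hσ
    ext i
    have := congrFun h i
    simp only [Function.comp_apply, id] at this
    have h3 : σ i = σ0 i := by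
      have := congrArg σ0 this
      simpa using this
    rw [h3]
  · intro h
    exact absurd (Finset.mem_univ _) h

/-- If the operators of an ideal act through the sign then the ideal contains the sign. -/
theorem sign_mem {d N : ℕ} (J : Submodule ℚ (Perm (Fin N) → ℚ))
    (hL : ∀ u ∈ J, ∀ g, (fun σ => u (g * σ)) ∈ J) (u : Perm (Fin N) → ℚ) (hu : u ∈ J)
    (f : (Fin N → Fin d) → ℚ) (hf : op d N u f ≠ 0)
    (hs : ∀ σ, act d N σ (op d N u f) = ((Equiv.Perm.sign σ : ℤ) : ℚ) • op d N u f) :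
    (fun σ => ((Equiv.Perm.sign σ : ℤ) : ℚ)) ∈ J := by
  set χ : ℚ := ∑ h : Perm (Fin N), ((Equiv.Perm.sign h : ℤ) : ℚ) * u h with hχ
  have hsum : ∀ σ : Perm (Fin N),
      (∑ g : Perm (Fin N), ((Equiv.Perm.sign g : ℤ) : ℚ) * u (g⁻¹ * σ)) =
        ((Equiv.Perm.sign σ : ℤ) : ℚ) * χ := by
    intro σ
    rw [hχ, Finset.mul_sum]
    refine Fintype.sum_equiv ((Equiv.inv _).trans (Equiv.mulRight σ)) _ _ (fun g => ?_)
    have h1 : ((Equiv.inv (Perm (Fin N))).trans (Equiv.mulRight σ)) g = g⁻¹ * σ := rfl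
    rw [h1, ← mul_assoc]
    congr 1
    rw [Equiv.Perm.sign_mul, Equiv.Perm.sign_inv]
    push_cast
    have h2 : (((Equiv.Perm.sign σ : ℤˣ) : ℤ) : ℚ) * ((Equiv.Perm.sign σ : ℤˣ) : ℤ) = 1 := by
      rcases Int.units_eq_one_or (Equiv.Perm.sign σ) with h | h <;> rw [h] <;> simp
    linear_combination (-(((Equiv.Perm.sign g : ℤˣ) : ℤ) : ℚ)) * h2
  have ha : (fun σ : Perm (Fin N) => ((Equiv.Perm.sign σ : ℤ) : ℚ) * χ) ∈ J := by
    have h1 : (fun σ : Perm (Fin N) => ((Equiv.Perm.sign σ : ℤ) : ℚ) * χ) =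
        ∑ g : Perm (Fin N), ((Equiv.Perm.sign g : ℤ) : ℚ) • (fun σ => u (g⁻¹ * σ)) := by
      funext σ
      rw [← hsum, Finset.sum_apply]
      rfl
    rw [h1]
    exact Submodule.sum_mem _ fun g _ => Submodule.smul_mem _ _ (hL u hu _)
  have hχ0 : χ ≠ 0 := by
    intro h
    have h1 : ∑ g : Perm (Fin N), ((Equiv.Perm.sign g : ℤ) : ℚ) • act d N g (op d N u f) = 0 := by
      have h2 : ∀ g : Perm (Fin N), ((Equiv.Perm.sign g : ℤ) : ℚ) •
          act d N g (op d N u f) =
          ∑ σ, (((Equiv.Perm.sign g : ℤ) : ℚ) * u (g⁻¹ * σ)) • act d N σ f := by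
        intro g
        rw [act_op, op_apply, Finset.smul_sum]
        exact Finset.sum_congr rfl fun σ _ => smul_smul _ _ _
      simp only [h2]
      rw [Finset.sum_comm]
      simp only [← Finset.sum_smul, hsum, h, mul_zero, zero_smul, Finset.sum_const_zero]
    have h3 : ∀ g : Perm (Fin N), ((Equiv.Perm.sign g : ℤ) : ℚ) •
        act d N g (op d N u f) = op d N u f := by
      intro g
      rw [hs g, smul_smul]
      have h2 : (((Equiv.Perm.sign g : ℤˣ) : ℤ) : ℚ) * ((Equiv.Perm.sign g : ℤˣ) : ℤ) = 1 := by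
        rcases Int.units_eq_one_or (Equiv.Perm.sign g) with h | h <;> rw [h] <;> simp
      rw [h2, one_smul]
    simp only [h3, Finset.sum_const] at h1
    rw [← Nat.cast_smul_eq_nsmul ℚ, smul_eq_zero] at h1
    rcases h1 with h1 | h1
    · rw [Finset.card_univ] at h1
      exact Fintype.card_ne_zero (Nat.cast_eq_zero.1 h1)
    · exact hf h1
  have h4 := J.smul_mem χ⁻¹ ha
  have h5 : (χ⁻¹ • fun σ : Perm (Fin N) => ((Equiv.Perm.sign σ : ℤ) : ℚ) * χ) =
      fun σ => ((Equiv.Perm.sign σ : ℤ) : ℚ) := by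
    funext σ
    show χ⁻¹ * (((Equiv.Perm.sign σ : ℤ) : ℚ) * χ) = _
    field_simp
  rw [h5] at h4
  exact h4

theorem t_SMALL : S_SMALL := by
  intro p I h0 hL hR hP hex
  classical
  have hC : S_COS := Pool.Agent.K3h55.GG.t_COS
  have hex' : ∃ n, I n ≠ ⊥ := hex.imp fun n h => h.2
  obtain ⟨n, hn, hmin⟩ : ∃ n, I n ≠ ⊥ ∧ ∀ m < n, ¬ I m ≠ ⊥ :=
    ⟨Nat.find hex', Nat.find_spec hex', fun m hm => Nat.find_min hex' hm⟩
  have hn3 : n ≤ 2 * p + 3 := by
    obtain ⟨n', h1, h2⟩ := hex
    by_contra h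
    exact hmin n' (by omega) h2
  cases n with
  | zero => exact absurd h0 hn
  | succ N =>
    have hIN : I N = ⊥ := by
      by_contra h
      exact hmin N (Nat.lt_succ_self N) h
    have hmin' : ∀ u ∈ I N, op (N + 1) N u = 0 := by
      intro u hu
      rw [hIN, Submodule.mem_bot] at hu
      subst hu
      simp [op]
    obtain ⟨u, hu, hune⟩ := Submodule.exists_mem_ne_zero_of_ne_bot hn
    obtain ⟨f, hf⟩ : ∃ f, op (N + 1) (N + 1) u f ≠ 0 := by
      by_contra h
      push Not at h
      exact hune (op_faithful u (LinearMap.ext h))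
    set W : Submodule ℚ ((Fin (N + 1) → Fin (N + 1)) → ℚ) :=
      Submodule.span ℚ {x | ∃ u ∈ I (N + 1), ∃ f, op (N + 1) (N + 1) u f = x} with hW
    have hmem : ∀ u ∈ I (N + 1), ∀ f, op (N + 1) (N + 1) u f ∈ W := fun u hu f =>
      Submodule.subset_span ⟨u, hu, f, rfl⟩
    have hstab : ∀ (T : Module.End ℚ ((Fin (N + 1) → Fin (N + 1)) → ℚ)),
        (∀ u ∈ I (N + 1), ∀ f, T (op (N + 1) (N + 1) u f) ∈ W) → ∀ x ∈ W, T x ∈ W := by
      intro T hT x hx
      have h1 : W ≤ W.comap T := by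
        rw [hW, Submodule.span_le]
        rintro _ ⟨u, hu, f, rfl⟩
        exact hT u hu f
      exact h1 hx
    obtain ⟨hNp, hs⟩ := small_HW p N N W
      (fun h => hf (by
        have := hmem u hu f
        rw [h] at this
        exact (Submodule.mem_bot ℚ).1 this))
      (fun σ => hstab (act (N + 1) (N + 1) σ) (fun u hu f => by
        rw [act_op]
        exact hmem _ (hL _ u hu _) f))
      (fun a b => hstab (rep a b) (fun u hu f => by
        have h1 : rep a b (op (N + 1) (N + 1) u f) = op (N + 1) (N + 1) u (rep a b f) := by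
          rw [op_apply, op_apply, map_sum]
          refine Finset.sum_congr rfl fun σ _ => ?_
          rw [map_smul, act_rep]
        rw [h1]
        exact hmem _ hu _))
      (by
        intro x hx
        have h1 : W ≤ LinearMap.ker (∑ i : Fin N, act (N + 1) (N + 1) (swap 0 i.succ) +
            (p : ℚ) • LinearMap.id) := by
          rw [hW, Submodule.span_le]
          rintro _ ⟨u, hu, f, rfl⟩
          have h2 := core' hC I hR hP hmin' u hu f
          show _ = _
          simp only [LinearMap.add_apply, LinearMap.sum_apply, LinearMap.smul_apply,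
            LinearMap.id_apply]
          rw [h2, neg_smul, neg_add_cancel]
        have h3 := h1 hx
        rw [LinearMap.mem_ker] at h3
        simp only [LinearMap.add_apply, LinearMap.sum_apply, LinearMap.smul_apply,
          LinearMap.id_apply] at h3
        rw [neg_smul, eq_neg_iff_add_eq_zero]
        exact h3) hn3
    subst hNp
    exact sign_mem (I (N + 1)) (hL _) u hu f hf (fun σ => hs σ _ (hmem u hu f))

end Pool.Agent.K3h8.GG
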