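import Pool.Agent.K3h8.GG.Defs2
import Pool.Agent.K3h8.GG.Main2
import Pool.Agent.K3h8.GG.Small2
import Pool.Agent.K3h91.GG.Cos2
import Pool.Agent.K3h90.GG.Comb2
import Pool.Agent.K3h66.GG.Dim2
import Pool.Agent.K3h72.GG.K0
import Pool.Agent.K3h59.GG.Gro
import Pool.Agent.K3h33.GG.UB
import Pool.Agent.K3h97.GG.Cat

/-!
# The algebra of permutations of an object of pure parity
-/

set_option autoImplicit false

open CategoryTheory Limits MonoidalCategory
open Pool.Agent.Y112.SR Pool.Agent.Y112.KD Pool.Agent.R905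

noncomputable section

namespace Pool.Agent.K3h8.GG

universe v u w

variable {C : Type u} [Category.{v} C] [Preadditive C] [Linear ℚ C] [MonoidalCategory C]
  [MonoidalPreadditive C] [MonoidalLinear ℚ C] [SymmetricCategory C] [RightRigidCategory C]
  [IsIdempotentComplete C] {K : Type w} [Field K] (R : SuperRealisation C K)

include R in
theorem final (hU : UnitQ C) {M : C} {d : ℚ} (hd : d = 1 ∨ d = -1)
    (hM : R.par M = (d : K) • 𝟙 _) :
    (IsKimuraFinite M → permDim M (realDim R M + 1) < (realDim R M + 1).factorial) ∧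
    (∀ n, n ≤ 2 * realDim R M + 3 → permDim M n < n.factorial → IsKimuraFinite M) ∧
    (IsKimuraFinite M → ∀ n, permDim M n ≤ realDim R M ^ (2 * n)) ∧
    (¬ IsKimuraFinite M → ∀ n, (realDim R M + 2) ^ (2 * n) ≤
      permDim M n * Nat.multichoose ((realDim R M + 2) ^ 2) n) ∧
    (∀ β D : ℝ, 0 ≤ β → β < ((realDim R M : ℝ) + 2) ^ 2 →
      (∃ᶠ n : ℕ in Filter.atTop, (permDim M n : ℝ) ≤ D * β ^ n) → IsKimuraFinite M) :=
  dichotomy R
    (Pool.Agent.K3h90.GG.t_COMB2 Pool.Agent.K3h91.GG.t_COS2 Pool.Agent.K3h72.GG.t_K0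
      (Pool.Agent.K3h79.GG.t_COMB Pool.Agent.K3h55.GG.t_COS t_HW))
    Pool.Agent.K3h66.GG.t_DIM2 t_SMALL Pool.Agent.K3h59.GG.t_GRO (Pool.Agent.K3h97.GG.t_CAT C)
    (Pool.Agent.K3h33.GG.t_UB' (C := C)) hU hd hM

end Pool.Agent.K3h8.GG
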