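import Pool.Agent.K3h8.SF.Defs

/-!
# The growth of the algebra of permutations of a tensor power: definitions
-/

set_option autoImplicit false

open CategoryTheory Limits MonoidalCategory
open Pool.Agent.Y112.KD

namespace Pool.Agent.K3h8.GG

universe v u

section

variable {C : Type u} [Category.{v} C] [MonoidalCategory C] [SymmetricCategory C]
  [Preadditive C] [Linear ℚ C]

/-- The algebra of the permutations of the factors of the tensor power `M ⊗ ⋯ ⊗ M` (`n` factors):
the subalgebra of the algebra of the endomorphisms which is generated by the exchanges of
neighbouring factors. It consists of the linear combinations of the permutations of the factors. -/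
def permAlg (M : C) (n : ℕ) : Subalgebra ℚ (End (tp M n)) :=
  Algebra.adjoin ℚ {s : End (tp M n) | IsSwap M n s}

end

end Pool.Agent.K3h8.GG
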