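import Pool.Agent.K3h8.GG.Defs
import Pool.Agent.Y112.SR.Defs

/-!
# The growth of the algebra of permutations of a tensor power: dimensions
-/

set_option autoImplicit false

open CategoryTheory Limits MonoidalCategory
open Pool.Agent.Y112.SR

noncomputable section

namespace Pool.Agent.K3h8.GG

universe v u w

/-- The dimension of the algebra of the permutations of `n` factors `M`. -/
def permDim {C : Type u} [Category.{v} C] [MonoidalCategory C] [SymmetricCategory C]
    [Preadditive C] [Linear ℚ C] (M : C) (n : ℕ) : ℕ :=
  Module.finrank ℚ (permAlg M n)

/-- The dimension of the realisation of `M`. -/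
def realDim {C : Type u} [Category.{v} C] [Preadditive C] [MonoidalCategory C]
    [SymmetricCategory C] {K : Type w} [Field K] (R : SuperRealisation C K) (M : C) : ℕ :=
  Module.finrank K (R.H.obj M)

end Pool.Agent.K3h8.GG
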