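import Pool.Agent.K3h8.GG.Stm

/-!
# Highest weight vectors in spaces of words
-/

set_option autoImplicit false

open Equiv (Perm swap)

namespace Pool.Agent.K3h8.GG

section

variable {n p : ℕ}

/-- The replacement of a letter `a` by the letter `b`, in all places. -/
def rep {n p : ℕ} (a b : Fin (p + 1)) : Module.End ℚ ((Fin n → Fin (p + 1)) → ℚ) where
  toFun f := fun w => ∑ i, if w i = a then f (Function.update w i b) else 0
  map_add' f g := by
    ext w
    simp only [Pi.add_apply, ← Finset.sum_add_distrib]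
    refine Finset.sum_congr rfl fun i _ => ?_
    split_ifs <;> simp
  map_smul' c f := by
    ext w
    simp only [Pi.smul_apply, smul_eq_mul, RingHom.id_apply, Finset.mul_sum]
    refine Finset.sum_congr rfl fun i _ => ?_
    split_ifs <;> simp

theorem rep_apply (a b : Fin (p + 1)) (f : (Fin n → Fin (p + 1)) → ℚ) (w : Fin n → Fin (p + 1)) :
    rep a b f w = ∑ i, if w i = a then f (Function.update w i b) else 0 := rfl

theorem act_rep (a b : Fin (p + 1)) (σ : Perm (Fin n)) (f : (Fin n → Fin (p + 1)) → ℚ) :
    act (p + 1) n σ (rep a b f) = rep a b (act (p + 1) n σ f) := by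
  ext w
  rw [act_apply, rep_apply, rep_apply]
  simp only [act_apply]
  refine Fintype.sum_equiv σ _ _ fun i => ?_
  have h : Function.update (w ∘ σ) i b = Function.update w (σ i) b ∘ σ := by
    funext j
    by_cases hj : j = i
    · subst hj; simp
    · have : σ j ≠ σ i := fun h => hj (σ.injective h)
      simp [Function.update_of_ne hj, Function.update_of_ne this]
  rw [h]
  rfl

theorem exists_hw (W : Submodule ℚ ((Fin n → Fin (p + 1)) → ℚ)) (hW : W ≠ ⊥)
    (hE : ∀ a b : Fin (p + 1), ∀ f ∈ W, rep a b f ∈ W) :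
    ∃ f ∈ W, f ≠ 0 ∧ ∀ a b : Fin (p + 1), a < b → rep a b f = 0 := by
  classical
  have hex : ∃ D : ℕ, ∃ f ∈ W, f ≠ 0 ∧ ∀ w, f w ≠ 0 → ∑ i, (w i : ℕ) < D := by
    obtain ⟨f, hf, hf0⟩ := Submodule.exists_mem_ne_zero_of_ne_bot hW
    refine ⟨n * (p + 1) + 1, f, hf, hf0, fun w _ => ?_⟩
    have : ∑ i, (w i : ℕ) ≤ ∑ _i : Fin n, (p + 1) :=
      Finset.sum_le_sum fun i _ => (w i).isLt.le
    simp at this
    omega
  obtain ⟨f, hf, hf0, hfD⟩ := Nat.find_spec hex
  refine ⟨f, hf, hf0, fun a b hab => ?_⟩
  by_contra hne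
  have key : ∀ w, rep a b f w ≠ 0 → ∑ i, (w i : ℕ) + 1 < Nat.find hex := by
    intro w hw
    rw [rep_apply] at hw
    obtain ⟨i, _, hi⟩ := Finset.exists_ne_zero_of_sum_ne_zero hw
    split_ifs at hi with h
    · have h1 := hfD _ hi
      have h2 : ∑ j, ((Function.update w i b) j : ℕ) + (w i : ℕ) = ∑ j, (w j : ℕ) + (b : ℕ) := by
        rw [← Finset.sum_erase_add Finset.univ (fun j => ((Function.update w i b) j : ℕ))
            (Finset.mem_univ i),
          ← Finset.sum_erase_add Finset.univ (fun j => (w j : ℕ)) (Finset.mem_univ i)]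
        have h3 : ∑ x ∈ Finset.univ.erase i, ((Function.update w i b) x : ℕ) =
            ∑ x ∈ Finset.univ.erase i, (w x : ℕ) := by
          refine Finset.sum_congr rfl fun j hj => ?_
          rw [Function.update_of_ne (Finset.ne_of_mem_erase hj)]
        rw [h3, Function.update_self]
        ring
      rw [h] at h2
      have h4 : (a : ℕ) < b := hab
      omega
    · exact absurd rfl hi
  have hpos : ∃ w, rep a b f w ≠ 0 := by
    by_contra h
    push Not at h
    exact hne (funext h)
  obtain ⟨w0, hw0⟩ := hpos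
  have h0 := key w0 hw0
  refine Nat.find_min hex (m := Nat.find hex - 1) (by omega) ⟨rep a b f, hE a b f hf, hne, ?_⟩
  intro w hw
  have := key w hw
  omega

/-- The sum of the transpositions `(0 i)`. -/
def JM (p n : ℕ) (f : (Fin (n + 1) → Fin (p + 1)) → ℚ) : (Fin (n + 1) → Fin (p + 1)) → ℚ :=
  ∑ i : Fin n, act (p + 1) (n + 1) (swap 0 i.succ) f

theorem cons_comp_swap (a : Fin (p + 1)) (w : Fin n → Fin (p + 1)) (i : Fin n) :
    (Fin.cons a w : Fin (n + 1) → Fin (p + 1)) ∘ (swap 0 i.succ) =
      Fin.cons (w i) (Function.update w i a) := by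
  funext j
  refine Fin.cases ?_ (fun j => ?_) j
  · simp
  · by_cases hj : j = i
    · subst hj; simp
    · have h1 : j.succ ≠ i.succ := fun h => hj (Fin.succ_injective _ h)
      simp [Equiv.swap_apply_of_ne_of_ne (Fin.succ_ne_zero j) h1, Function.update_of_ne hj]

theorem rep_cons (a b x : Fin (p + 1)) (f : (Fin (n + 1) → Fin (p + 1)) → ℚ)
    (w : Fin n → Fin (p + 1)) :
    rep a b f (Fin.cons x w) = (if x = a then f (Fin.cons b w) else 0) +
      ∑ i, if w i = a then f (Fin.cons x (Function.update w i b)) else 0 := by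
  rw [rep_apply, Fin.sum_univ_succ]
  congr 1
  · simp only [Fin.cons_zero]
    have : Function.update (Fin.cons x w : Fin (n + 1) → Fin (p + 1)) 0 b = Fin.cons b w :=
      Fin.update_cons_zero _ _ _
    rw [this]
  · refine Finset.sum_congr rfl fun i _ => ?_
    simp only [Fin.cons_succ]
    have : Function.update (Fin.cons x w : Fin (n + 1) → Fin (p + 1)) i.succ b =
        Fin.cons x (Function.update w i b) := (Fin.cons_update _ _ _ _).symm
    rw [this]

/-- The lemma on the Jucys-Murphy element. -/
theorem jm_lemma (f : (Fin (n + 1) → Fin (p + 1)) → ℚ) (hf : f ≠ 0)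
    (hhw : ∀ a b : Fin (p + 1), a < b → rep a b f = 0) (c : ℚ) (hc : JM p n f = c • f) :
    ∃ (a : Fin (p + 1)) (k : ℕ), c = k - (a : ℕ) ∧ (fun w => f (Fin.cons a w)) ≠ 0 ∧
      ∀ x y : Fin (p + 1), x < y → rep x y (fun w => f (Fin.cons a w)) = 0 := by
  classical
  let T : Finset (Fin (p + 1)) :=
    Finset.univ.filter fun a => ∃ w : Fin n → Fin (p + 1), f (Fin.cons a w) ≠ 0
  have hT : T.Nonempty := by
    by_contra h
    rw [Finset.not_nonempty_iff_eq_empty] at h
    apply hf
    funext w
    by_contra hw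
    have : w 0 ∈ T := by
      refine Finset.mem_filter.2 ⟨Finset.mem_univ _, Fin.tail w, ?_⟩
      rw [Fin.cons_self_tail]
      exact hw
    rw [h] at this
    simp at this
  let a := T.max' hT
  have ha : a ∈ T := T.max'_mem hT
  have hmax : ∀ b, a < b → ∀ w, f (Fin.cons b w) = 0 := by
    intro b hb w
    by_contra hw
    have : b ∈ T := Finset.mem_filter.2 ⟨Finset.mem_univ _, w, hw⟩
    exact absurd (T.le_max' b this) (not_le.2 hb)
  obtain ⟨w0, hw0⟩ := (Finset.mem_filter.1 ha).2
  -- the value of `J f` on the words which begin with `a`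
  have hJ : ∀ w : Fin n → Fin (p + 1), JM p n f (Fin.cons a w) =
      (((Finset.univ.filter fun i => w i = a).card : ℚ) - (a : ℕ)) * f (Fin.cons a w) := by
    intro w
    have h1 : JM p n f (Fin.cons a w) =
        ∑ i : Fin n, f (Fin.cons (w i) (Function.update w i a)) := by
      simp only [JM, Finset.sum_apply, act_apply]
      exact Finset.sum_congr rfl fun i _ => by rw [cons_comp_swap]
    have h2 : ∀ i : Fin n, f (Fin.cons (w i) (Function.update w i a)) =
        ∑ b : Fin (p + 1), if w i = b then f (Fin.cons b (Function.update w i a)) else 0 := by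
      intro i
      rw [Finset.sum_ite_eq]
      simp
    rw [h1, Finset.sum_congr rfl (fun i _ => h2 i), Finset.sum_comm]
    have h3 : ∀ b : Fin (p + 1),
        (∑ i : Fin n, if w i = b then f (Fin.cons b (Function.update w i a)) else 0) =
          (if b < a then - f (Fin.cons a w) else 0) + (if b = a then
            ((Finset.univ.filter fun i => w i = a).card : ℚ) * f (Fin.cons a w) else 0) := by
      intro b
      rcases lt_trichotomy b a with hb | hb | hb
      · rw [if_pos hb, if_neg hb.ne, add_zero]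
        have h4 := congrFun (hhw b a hb) (Fin.cons b w)
        rw [rep_cons, if_pos rfl] at h4
        have h5 : (0 : (Fin (n + 1) → Fin (p + 1)) → ℚ) (Fin.cons b w) = 0 := rfl
        rw [h5] at h4
        linarith
      · rw [if_neg (by rw [hb]; exact lt_irrefl _), if_pos hb, zero_add, hb]
        rw [← Finset.sum_filter]
        have h6 : ∀ i ∈ Finset.univ.filter (fun i => w i = a),
            f (Fin.cons a (Function.update w i a)) = f (Fin.cons a w) := by
          intro i hi
          have : w i = a := (Finset.mem_filter.1 hi).2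
          have h7 : Function.update w i a = w := by
            rw [← this]; exact Function.update_eq_self i w
          rw [h7]
        rw [Finset.sum_congr rfl h6, Finset.sum_const, nsmul_eq_mul]
      · rw [if_neg (not_lt.2 hb.le), if_neg hb.ne', add_zero]
        refine Finset.sum_eq_zero fun i _ => ?_
        rw [hmax b hb]
        simp
    rw [Finset.sum_congr rfl (fun b _ => h3 b), Finset.sum_add_distrib, Finset.sum_ite_eq',
      if_pos (Finset.mem_univ _), ← Finset.sum_filter, Finset.sum_const, nsmul_eq_mul]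
    have h8 : (Finset.univ.filter fun b : Fin (p + 1) => b < a).card = (a : ℕ) := by
      have : (Finset.univ.filter fun b : Fin (p + 1) => b < a) = Finset.Iio a := by
        ext; simp
      rw [this, Fin.card_Iio]
    rw [h8]
    ring
  refine ⟨a, (Finset.univ.filter fun i => w0 i = a).card, ?_, ?_, ?_⟩
  · have h1 := hJ w0
    rw [hc] at h1
    have h2 : (c • f) (Fin.cons a w0) = c * f (Fin.cons a w0) := rfl
    rw [h2] at h1
    exact mul_right_cancel₀ hw0 h1
  · intro h
    exact hw0 (congrFun h w0)
  · intro x y hxy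
    funext w
    have h1 := congrFun (hhw x y hxy) (Fin.cons a w)
    rw [rep_cons] at h1
    have h2 : (if a = x then f (Fin.cons y w) else 0) = 0 := by
      split_ifs with h
      · exact hmax y (h ▸ hxy) w
      · rfl
    rw [h2, zero_add] at h1
    rw [rep_apply]
    exact h1

theorem cons_comp_up (a : Fin (p + 1)) (w : Fin n → Fin (p + 1)) (τ : Perm (Fin n)) :
    (Fin.cons a w : Fin (n + 1) → Fin (p + 1)) ∘ (up τ) = Fin.cons a (w ∘ τ) := by
  funext j
  refine Fin.cases ?_ (fun j => ?_) j
  · simp
  · simp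

theorem conj_swap_zero (m : ℕ) (i : Fin m) :
    swap (0 : Fin (m + 2)) 1 * swap 0 i.succ.succ * swap 0 1 = up (swap 0 i.succ) := by
  have h1 : swap (0 : Fin (m + 2)) 1 * swap 0 i.succ.succ * swap 0 1 = swap 1 i.succ.succ := by
    have := Equiv.swap_apply_apply (swap (0 : Fin (m + 2)) 1) 0 i.succ.succ
    rw [Equiv.swap_apply_left, Equiv.swap_apply_of_ne_of_ne (Fin.succ_ne_zero _)
      (by intro h; rw [← Fin.succ_zero_eq_one] at h; exact Fin.succ_ne_zero _ (Fin.succ_injective _ h)),
      Equiv.swap_inv] at this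
    exact this.symm
  rw [h1]
  ext j
  refine Fin.cases ?_ (fun j => ?_) j
  · rw [up_zero, Equiv.swap_apply_of_ne_of_ne]
    · exact Fin.zero_ne_one
    · exact (Fin.succ_ne_zero _).symm
  · rw [up_succ]
    have : (1 : Fin (m + 2)) = (0 : Fin (m + 1)).succ := rfl
    rw [this]
    by_cases h0 : j = 0
    · subst h0; simp
    by_cases h2 : j = i.succ
    · subst h2; simp
    · rw [Equiv.swap_apply_of_ne_of_ne h0 h2, Equiv.swap_apply_of_ne_of_ne]
      · exact fun h => h0 (Fin.succ_injective _ h)
      · exact fun h => h2 (Fin.succ_injective _ h)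

end

theorem t_HW : S_HW := by
  intro p n W hW hσ hE hJ
  have hE' : ∀ a b : Fin (p + 1), ∀ f ∈ W, rep a b f ∈ W := hE
  obtain ⟨f0, hf0, hf00⟩ := Submodule.exists_mem_ne_zero_of_ne_bot hW
  rcases n with _ | m
  · -- words of length one
    have h1 := hJ f0 hf0
    simp only [Finset.univ_eq_empty, Finset.sum_empty] at h1
    have h2 : (-(p : ℚ)) = 0 := by
      rcases smul_eq_zero.1 h1.symm with h | h
      · exact h
      · exact absurd h hf00
    have h3 : p = 0 := by exact_mod_cast neg_eq_zero.1 h2
    refine ⟨h3.symm, fun σ f _ => ?_⟩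
    have : σ = 1 := by
      ext x
      have h4 := (σ x).isLt
      have h5 := x.isLt
      rw [Equiv.Perm.one_apply]
      omega
    subst this
    simp
  · let s : Perm (Fin (m + 2)) := swap 0 1
    let A := act (p + 1) (m + 2)
    have hss : s * s = 1 := Equiv.swap_mul_self _ _
    have hAA : ∀ f, A s (A s f) = f := by
      intro f
      rw [← Module.End.mul_apply, ← map_mul, hss, map_one, Module.End.one_apply]
    -- the vectors of `W` which `s` fixes
    let Ws : Submodule ℚ ((Fin (m + 2) → Fin (p + 1)) → ℚ) := W ⊓ LinearMap.ker (A s - 1)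
    have hmem : ∀ f, f ∈ Ws ↔ f ∈ W ∧ A s f = f := by
      intro f
      simp only [Ws, Submodule.mem_inf, LinearMap.mem_ker, LinearMap.sub_apply,
        Module.End.one_apply, sub_eq_zero]
    have hWs : Ws = ⊥ := by
      by_contra hne
      obtain ⟨f, hf, hfne, hhw⟩ := exists_hw Ws hne (by
        intro a b f hf
        rw [hmem] at hf ⊢
        refine ⟨hE' a b f hf.1, ?_⟩
        rw [act_rep, hf.2])
      rw [hmem] at hf
      obtain ⟨hfW, hfs⟩ := hf
      have hJf : JM p (m + 1) f = (-(p : ℚ)) • f := hJ f hfW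
      obtain ⟨a, k, hak, hy, hyhw⟩ := jm_lemma f hfne hhw _ hJf
      -- the next Jucys-Murphy element
      have hJ' : JM p m (fun w => f (Fin.cons a w)) =
          (-((p : ℚ) + 1)) • (fun w => f (Fin.cons a w)) := by
        have e1 : ∑ i : Fin m, A (up (swap 0 i.succ)) f = (-((p : ℚ) + 1)) • f := by
          have e2 : ∀ i : Fin m, A (up (swap 0 i.succ)) f =
              A s (A (swap 0 i.succ.succ) f) := by
            intro i
            rw [← conj_swap_zero, map_mul, map_mul, Module.End.mul_apply, Module.End.mul_apply]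
            change A s (A (swap 0 i.succ.succ) (A s f)) = _
            rw [hfs]
          rw [Finset.sum_congr rfl (fun i _ => e2 i), ← map_sum]
          have e3 : JM p (m + 1) f = A s f + ∑ i : Fin m, A (swap 0 i.succ.succ) f := by
            rw [JM, Fin.sum_univ_succ]
            rfl
          have e4 : ∑ i : Fin m, A (swap 0 i.succ.succ) f = (-(p : ℚ)) • f - f := by
            rw [← hJf, e3, hfs]
            abel
          rw [e4, map_sub, map_smul, hfs]
          module
        funext w
        have e5 := congrFun e1 (Fin.cons a w)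
        simp only [Finset.sum_apply, Pi.smul_apply] at e5 ⊢
        rw [← e5]
        simp only [JM, Finset.sum_apply]
        refine Finset.sum_congr rfl fun i _ => ?_
        change f (Fin.cons a (w ∘ (swap 0 i.succ))) =
          f ((Fin.cons a w : Fin (m + 2) → Fin (p + 1)) ∘ (up (swap 0 i.succ)))
        rw [cons_comp_up]
      obtain ⟨a', k', hak', -, -⟩ := jm_lemma _ hy hyhw _ hJ'
      have h1 : (a' : ℕ) < p + 1 := a'.isLt
      have h2 : ((a' : ℕ) : ℚ) = (p : ℚ) + 1 + k' := by linarith
      have h3 : ((a' : ℕ) : ℚ) = ((p + 1 + k' : ℕ) : ℚ) := by push_cast; exact h2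
      have h4 : (a' : ℕ) = p + 1 + k' := by exact_mod_cast h3
      omega
    have hs : ∀ f ∈ W, A s f = - f := by
      intro f hf
      have h1 : f + A s f ∈ Ws := by
        rw [hmem]
        refine ⟨W.add_mem hf (hσ s f hf), ?_⟩
        rw [map_add, hAA]
        abel
      rw [hWs, Submodule.mem_bot] at h1
      exact (neg_eq_of_add_eq_zero_right h1).symm
    have hconj : ∀ (x y : Fin (m + 2)), x ≠ y → ∀ f ∈ W, A (swap x y) f = - f := by
      intro x y hxy f hf
      have h01 : (0 : Fin (m + 2)) ≠ 1 := Fin.zero_ne_one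
      obtain ⟨g, hg⟩ := isConj_iff.1 (Equiv.Perm.isConj_swap h01 hxy)
      rw [← hg, map_mul, map_mul, Module.End.mul_apply, Module.End.mul_apply]
      change A g (A s (A g⁻¹ f)) = _
      rw [hs _ (hσ g⁻¹ f hf), map_neg, ← Module.End.mul_apply, ← map_mul, mul_inv_cancel, map_one,
        Module.End.one_apply]
    have hsign : ∀ σ, ∀ f ∈ W, A σ f = ((Equiv.Perm.sign σ : ℤ) : ℚ) • f := by
      intro σ
      refine Equiv.Perm.swap_induction_on σ ?_ ?_
      · intro f _
        simp
      · intro g x y hxy ih f hf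
        rw [map_mul, Module.End.mul_apply, ih f hf, map_smul, hconj x y hxy f hf]
        rw [Equiv.Perm.sign_mul, Equiv.Perm.sign_swap hxy]
        simp
    refine ⟨?_, hsign⟩
    have h1 := hJ f0 hf0
    have h2 : ∑ i : Fin (m + 1), A (swap 0 i.succ) f0 = (-((m : ℚ) + 1)) • f0 := by
      rw [Finset.sum_congr rfl (fun i _ => hconj 0 i.succ (Fin.succ_ne_zero i).symm f0 hf0),
        Finset.sum_const, Finset.card_univ, Fintype.card_fin, ← Nat.cast_smul_eq_nsmul ℚ]
      push_cast
      rw [smul_neg, neg_smul]
    have h3 : (-((m : ℚ) + 1)) • f0 = (-(p : ℚ)) • f0 := h2.symm.trans h1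
    have h4 : (-((m : ℚ) + 1)) = (-(p : ℚ)) := by
      by_contra hne
      have h5 : ((-((m : ℚ) + 1)) - (-(p : ℚ))) • f0 = 0 := by rw [sub_smul, h3, sub_self]
      rcases smul_eq_zero.1 h5 with h | h
      · exact hne (sub_eq_zero.1 h)
      · exact hf00 h
    have h6 : ((m + 1 : ℕ) : ℚ) = (p : ℚ) := by push_cast; linarith
    exact_mod_cast h6

end Pool.Agent.K3h8.GG
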