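import Pool.Agent.K3h8.GG.Stm
import Pool.Agent.K3h8.KS.Main

/-!
# The growth of the algebra of permutations of an object which is not Kimura-finite
-/

set_option autoImplicit false
set_option linter.unusedSectionVars false

open CategoryTheory Limits MonoidalCategory
open Pool.Agent.Y112.SR Pool.Agent.Y112.KD Pool.Agent.R905 Pool.Agent.K3h8.KS
open Pool.Agent.Y116.MT (tr)
open Equiv (Perm swap)

noncomputable section

namespace Pool.Agent.K3h8.GG

universe v u w

/-- The trivial character (`d = 1`) or the sign (`d = -1`). -/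
def chi (d : ℚ) {n : ℕ} (σ : Perm (Fin n)) : ℚ :=
  if d = 1 then 1 else ((Equiv.Perm.sign σ : ℤ) : ℚ)

theorem sgn_sq {n : ℕ} (σ : Perm (Fin n)) :
    ((Equiv.Perm.sign σ : ℤ) : ℚ) * ((Equiv.Perm.sign σ : ℤ) : ℚ) = 1 := by
  rcases Int.units_eq_one_or (Equiv.Perm.sign σ) with h | h <;> rw [h] <;> simp

theorem chi_mul (d : ℚ) {n : ℕ} (σ τ : Perm (Fin n)) : chi d (σ * τ) = chi d σ * chi d τ := by
  unfold chi
  split_ifs
  · simp
  · rw [Equiv.Perm.sign_mul]; push_cast; rfl

theorem chi_sq (d : ℚ) {n : ℕ} (σ : Perm (Fin n)) : chi d σ * chi d σ = 1 := by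
  unfold chi
  split_ifs
  · simp
  · exact sgn_sq σ

theorem chi_swap {d : ℚ} (hd : d = 1 ∨ d = -1) {n : ℕ} (i : Fin n) :
    chi d (swap (0 : Fin (n + 1)) i.succ) = d := by
  unfold chi
  rcases hd with rfl | rfl
  · simp
  · rw [if_neg (by norm_num), Equiv.Perm.sign_swap (Fin.succ_ne_zero i).symm]
    simp

theorem sign_up {n : ℕ} (τ : Perm (Fin n)) : Equiv.Perm.sign (up τ) = Equiv.Perm.sign τ := by
  change Equiv.Perm.sign (Equiv.Perm.decomposeFin.symm (0, τ)) = _
  simp

theorem chi_up (d : ℚ) {n : ℕ} (τ : Perm (Fin n)) : chi d (up τ) = chi d τ := by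
  unfold chi
  rw [sign_up]

theorem PTr_chi {d : ℚ} (hd : d = 1 ∨ d = -1) (b : ℚ) {n : ℕ} (u : Perm (Fin (n + 1)) → ℚ)
    (τ : Perm (Fin n)) :
    PTr (d * b) (fun σ => chi d σ * u σ) τ = d * (chi d τ * PTr b u τ) := by
  unfold PTr
  simp only [chi_mul, chi_up, chi_swap hd]
  rw [mul_add, mul_add, Finset.mul_sum, Finset.mul_sum]
  congr 1
  · ring
  · exact Finset.sum_congr rfl fun i _ => by ring

section

variable {C : Type u} [Category.{v} C] [Preadditive C] [Linear ℚ C] [MonoidalCategory C]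
  [MonoidalPreadditive C] [MonoidalLinear ℚ C] [SymmetricCategory C] [RightRigidCategory C]

/-- The linear map which sends the coefficients to the combination of permutations. -/
def Lmap {X : C} (d : ℚ) (ρ : ∀ n, Perm (Fin n) →* End (tp X n)) (n : ℕ) :
    (Perm (Fin n) → ℚ) →ₗ[ℚ] End (tp X n) where
  toFun u := ∑ σ, (chi d σ * u σ) • ρ n σ
  map_add' u v := by
    simp only [Pi.add_apply, mul_add, add_smul, Finset.sum_add_distrib]
  map_smul' c u := by
    simp only [Pi.smul_apply, smul_eq_mul, RingHom.id_apply, Finset.smul_sum, smul_smul]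
    exact Finset.sum_congr rfl fun σ _ => by ring_nf

theorem Lmap_apply {X : C} (d : ℚ) (ρ : ∀ n, Perm (Fin n) →* End (tp X n)) (n : ℕ)
    (u : Perm (Fin n) → ℚ) : Lmap d ρ n u = ∑ σ, (chi d σ * u σ) • ρ n σ := rfl

theorem Lmap_left {X : C} (d : ℚ) (ρ : ∀ n, Perm (Fin n) →* End (tp X n)) (n : ℕ)
    (u : Perm (Fin n) → ℚ) (g : Perm (Fin n)) :
    Lmap d ρ n (fun σ => u (g * σ)) = chi d g⁻¹ • (ρ n g⁻¹ * Lmap d ρ n u) := by
  rw [Lmap_apply, Lmap_apply, Finset.mul_sum, Finset.smul_sum]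
  refine Fintype.sum_equiv (Equiv.mulLeft g) _ _ fun σ => ?_
  simp only [Equiv.coe_mulLeft]
  rw [mul_smul_comm, smul_smul, ← map_mul, inv_mul_cancel_left, ← mul_assoc, ← chi_mul,
    inv_mul_cancel_left]

theorem Lmap_right {X : C} (d : ℚ) (ρ : ∀ n, Perm (Fin n) →* End (tp X n)) (n : ℕ)
    (u : Perm (Fin n) → ℚ) (g : Perm (Fin n)) :
    Lmap d ρ n (fun σ => u (σ * g)) = chi d g⁻¹ • (Lmap d ρ n u * ρ n g⁻¹) := by
  rw [Lmap_apply, Lmap_apply, Finset.sum_mul, Finset.smul_sum]
  refine Fintype.sum_equiv (Equiv.mulRight g) _ _ fun σ => ?_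
  simp only [Equiv.coe_mulRight]
  rw [smul_mul_assoc, smul_smul, ← map_mul, mul_inv_cancel_right, ← mul_assoc,
    mul_comm (chi d g⁻¹), ← chi_mul, mul_inv_cancel_right]

theorem Lmap_range {X : C} (d : ℚ) (ρ : ∀ n, Perm (Fin n) →* End (tp X n)) (n : ℕ) :
    LinearMap.range (Lmap d ρ n) = Submodule.span ℚ (Set.range (ρ n)) := by
  apply le_antisymm
  · rintro _ ⟨u, rfl⟩
    rw [Lmap_apply]
    exact Submodule.sum_mem _ fun σ _ =>
      Submodule.smul_mem _ _ (Submodule.subset_span ⟨σ, rfl⟩)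
  · rw [Submodule.span_le]
    rintro _ ⟨σ, rfl⟩
    refine ⟨Pi.single σ (chi d σ), ?_⟩
    rw [Lmap_apply, Finset.sum_eq_single σ]
    · rw [Pi.single_eq_same, chi_sq, one_smul]
    · intro τ _ hτ
      rw [Pi.single_eq_of_ne hτ, mul_zero, zero_smul]
    · intro h
      exact absurd (Finset.mem_univ _) h

/-- The linear map `op`. -/
def opL (d n : ℕ) : (Perm (Fin n) → ℚ) →ₗ[ℚ] Module.End ℚ ((Fin n → Fin d) → ℚ) where
  toFun u := op d n u
  map_add' u v := by
    simp only [op, Pi.add_apply, add_smul, Finset.sum_add_distrib]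
  map_smul' c u := by
    simp only [op, Pi.smul_apply, smul_eq_mul, RingHom.id_apply, Finset.smul_sum, smul_smul]

theorem opL_range (d n : ℕ) :
    LinearMap.range (opL d n) = Submodule.span ℚ (Set.range (act d n)) := by
  apply le_antisymm
  · rintro _ ⟨u, rfl⟩
    exact Submodule.sum_mem _ fun σ _ =>
      Submodule.smul_mem _ _ (Submodule.subset_span ⟨σ, rfl⟩)
  · rw [Submodule.span_le]
    rintro _ ⟨σ, rfl⟩
    refine ⟨Pi.single σ 1, ?_⟩
    change ∑ τ, (Pi.single σ 1 : Perm (Fin n) → ℚ) τ • act d n τ = _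
    rw [Finset.sum_eq_single σ]
    · rw [Pi.single_eq_same, one_smul]
    · intro τ _ hτ
      rw [Pi.single_eq_of_ne hτ, zero_smul]
    · intro h
      exact absurd (Finset.mem_univ _) h

theorem finrank_range_le_of_ker_le {V A B : Type*} [AddCommGroup V] [Module ℚ V]
    [FiniteDimensional ℚ V] [AddCommGroup A] [Module ℚ A] [AddCommGroup B] [Module ℚ B]
    (f : V →ₗ[ℚ] A) (g : V →ₗ[ℚ] B) (h : LinearMap.ker f ≤ LinearMap.ker g) :
    Module.finrank ℚ (LinearMap.range g) ≤ Module.finrank ℚ (LinearMap.range f) := by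
  have h1 := LinearMap.finrank_range_add_finrank_ker f
  have h2 := LinearMap.finrank_range_add_finrank_ker g
  have h3 := Submodule.finrank_mono h
  omega

/-- The sum of the permutations with the character `η` absorbs into the (anti)symmetrizer. -/
theorem rho_asym {X : C} {η : ℚ} (hη : η * η = 1) (ρ : ∀ n, Perm (Fin n) →* End (tp X n))
    (hs : ∀ n (i : Fin n), IsSwap X (n + 1) (ρ (n + 1) (swap i.castSucc i.succ)))
    (n : ℕ) (c : Perm (Fin (n + 1)) →* ℚ)
    (hc : ∀ i : Fin n, c (swap i.castSucc i.succ) = η) (σ : Perm (Fin (n + 1))) :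
    asym η X (n + 1) ≫ (ρ (n + 1) σ : tp X (n + 1) ⟶ tp X (n + 1)) =
      c σ • asym η X (n + 1) := by
  refine perm_induction (P := fun σ => asym η X (n + 1) ≫
    (ρ (n + 1) σ : tp X (n + 1) ⟶ tp X (n + 1)) = c σ • asym η X (n + 1)) ?_ ?_ ?_ σ
  · rw [map_one, map_one, one_smul]
    exact Category.comp_id _
  · intro g h hg hh
    rw [map_mul, map_mul, End.mul_def]
    rw [← Category.assoc, hh, Linear.smul_comp, hg, smul_smul, mul_comm]
  · intro i hi
    have h1 := hs n ⟨i, by omega⟩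
    have h2 := (swap_asym hη X h1).2
    have h3 := hc ⟨i, by omega⟩
    have e1 : (⟨i, by omega⟩ : Fin n).castSucc = (⟨i, by omega⟩ : Fin (n + 1)) := rfl
    have e2 : (⟨i, by omega⟩ : Fin n).succ = (⟨i + 1, hi⟩ : Fin (n + 1)) := rfl
    rw [e1, e2] at h2 h3
    rw [h3]
    exact h2

variable [IsIdempotentComplete C] {K : Type w} [Field K] (R : SuperRealisation C K)

include R in
/-- The lower bound for the dimension of the algebra of permutations of an object which is not
Kimura-finite. -/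
theorem lower_bound (hCOMB : S_COMB) (hDIM : S_DIM) (hCAT : S_CAT C) (hU : UnitQ C) {M : C}
    {d : ℚ} (hd : d = 1 ∨ d = -1) (hM : R.par M = (d : K) • 𝟙 _) (hnot : ¬ IsKimuraFinite M)
    (n : ℕ) : (Module.finrank K (R.H.obj M) + 1) ^ (2 * n) ≤
      Module.finrank ℚ (permAlg M n) *
        Nat.multichoose ((Module.finrank K (R.H.obj M) + 1) ^ 2) n := by
  set b := Module.finrank K (R.H.obj M) with hb
  have hdd : d * d = 1 := by rcases hd with rfl | rfl <;> norm_num
  have hd0 : d ≠ 0 := by rcases hd with rfl | rfl <;> norm_num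
  have htr : tr (𝟙 M) = (d * (b : ℚ)) • 𝟙 _ := by
    rw [tr_one hU M, trq_one R hU d hM]
  obtain ⟨ρ, hspan, hptr, hsw⟩ := hCAT M _ htr
  -- the relations
  have hI0 : LinearMap.ker (Lmap d ρ 0) = ⊥ := by
    rw [LinearMap.ker_eq_bot']
    intro u hu
    rw [Lmap_apply] at hu
    have h1 : (Finset.univ : Finset (Perm (Fin 0))) = {1} := by
      ext σ; simp [Subsingleton.elim σ 1]
    rw [h1, Finset.sum_singleton, map_one] at hu
    have h2 : (1 : End (tp M 0)) ≠ 0 := hU.ne
    have h3 := (smul_eq_zero.1 hu).resolve_right h2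
    have h4 : chi d (1 : Perm (Fin 0)) ≠ 0 := fun h => by
      have := chi_sq d (1 : Perm (Fin 0)); rw [h] at this; norm_num at this
    have h5 := (mul_eq_zero.1 h3).resolve_left h4
    funext σ
    rw [Subsingleton.elim σ 1, h5]
    rfl
  by_cases hex : ∃ n, ∃ u ∈ LinearMap.ker (Lmap d ρ n), op (b + 1) n u ≠ 0
  · exfalso
    have h1 := hCOMB b (fun n => LinearMap.ker (Lmap d ρ n)) hI0
      (fun n u hu g => by
        rw [LinearMap.mem_ker] at hu ⊢
        rw [Lmap_left, hu, mul_zero, smul_zero])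
      (fun n u hu g => by
        rw [LinearMap.mem_ker] at hu ⊢
        rw [Lmap_right, hu, zero_mul, smul_zero])
      (fun n u hu => by
        rw [LinearMap.mem_ker] at hu ⊢
        have e1 := hptr n (fun σ => chi d σ * u σ)
        have e2 : (ptr (show tp M n ⊗ M ⟶ tp M n ⊗ M from
            ∑ σ, (chi d σ * u σ) • ρ (n + 1) σ) : End (tp M n)) = 0 := by
          have e3 : (show tp M n ⊗ M ⟶ tp M n ⊗ M from
            ∑ σ, (chi d σ * u σ) • ρ (n + 1) σ) = 0 := hu
          rw [e3]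
          exact (ptrL (tp M n) M).map_zero
        rw [e2] at e1
        simp only [PTr_chi hd, mul_smul d] at e1
        rw [← Finset.smul_sum] at e1
        exact (smul_eq_zero.1 e1.symm).resolve_left hd0) hex
    -- the antisymmetrizer vanishes
    rw [LinearMap.mem_ker, Lmap_apply] at h1
    apply hnot
    have hη : (-d) * (-d) = 1 := by rw [neg_mul_neg, hdd]
    have hη' : -d = 1 ∨ -d = -1 := by
      rcases hd with rfl | rfl
      · right; rfl
      · left; rw [neg_neg]
    -- the character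
    let c : Perm (Fin (b + 1)) →* ℚ :=
      { toFun := fun σ => chi d σ * ((Equiv.Perm.sign σ : ℤ) : ℚ)
        map_one' := by simp [chi]
        map_mul' := fun σ τ => by rw [chi_mul, Equiv.Perm.sign_mul]; push_cast; ring }
    have hc : ∀ i : Fin b, c (swap i.castSucc i.succ) = -d := by
      intro i
      change chi d _ * _ = -d
      have hne : i.castSucc ≠ i.succ := Fin.castSucc_lt_succ.ne
      unfold chi
      rcases hd with rfl | rfl
      · rw [if_pos rfl, Equiv.Perm.sign_swap hne]; simp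
      · rw [if_neg (by norm_num), Equiv.Perm.sign_swap hne]; simp
    have hcc : ∀ σ, c σ * c σ = 1 := by
      intro σ
      change (chi d σ * ((Equiv.Perm.sign σ : ℤ) : ℚ)) *
        (chi d σ * ((Equiv.Perm.sign σ : ℤ) : ℚ)) = 1
      rw [mul_mul_mul_comm, chi_sq, sgn_sq, one_mul]
    have h2 : asym (-d) M (b + 1) ≫
        (show tp M (b + 1) ⟶ tp M (b + 1) from ∑ σ, c σ • ρ (b + 1) σ) =
        ((Nat.factorial (b + 1) : ℕ) : ℚ) • asym (-d) M (b + 1) := by
      have e1 : asym (-d) M (b + 1) ≫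
        (show tp M (b + 1) ⟶ tp M (b + 1) from ∑ σ, c σ • ρ (b + 1) σ) =
          ∑ σ : Perm (Fin (b + 1)), asym (-d) M (b + 1) ≫
            (c σ • (ρ (b + 1) σ : tp M (b + 1) ⟶ tp M (b + 1))) :=
        Preadditive.comp_sum _ _ _
      rw [e1]
      have e2 : ∀ σ ∈ (Finset.univ : Finset (Perm (Fin (b + 1)))), asym (-d) M (b + 1) ≫
            (c σ • (ρ (b + 1) σ : tp M (b + 1) ⟶ tp M (b + 1))) = asym (-d) M (b + 1) := by
        intro σ _
        rw [Linear.comp_smul, rho_asym hη ρ hsw b c hc, smul_smul, hcc, one_smul]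
      rw [Finset.sum_congr rfl e2, Finset.sum_const, Finset.card_univ, Fintype.card_perm,
        Fintype.card_fin, ← Nat.cast_smul_eq_nsmul ℚ]
    have h3 : (show tp M (b + 1) ⟶ tp M (b + 1) from ∑ σ, c σ • ρ (b + 1) σ) = 0 := h1
    rw [h3, comp_zero] at h2
    have h4 : ((Nat.factorial (b + 1) : ℕ) : ℚ) ≠ 0 := by exact_mod_cast Nat.factorial_ne_zero _
    exact kimura_of_asym hη' ((smul_eq_zero.1 h2.symm).resolve_left h4)
  · push Not at hex
    have h1 : LinearMap.ker (Lmap d ρ n) ≤ LinearMap.ker (opL (b + 1) n) := fun u hu => hex n u hu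
    have h2 := finrank_range_le_of_ker_le _ _ h1
    rw [Lmap_range, opL_range, hspan] at h2
    have h3 := hDIM (b + 1) n
    calc (b + 1) ^ (2 * n) ≤ _ := h3
      _ ≤ _ := Nat.mul_le_mul_right _ h2

end

end Pool.Agent.K3h8.GG
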