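import Pool.Agent.K3h8.GG.Small2

/-!
# Relations between matchings: algebra
-/

set_option autoImplicit false

namespace Pool.Agent.K3h8.GG

open Pool.Agent.K3h79.GG (op_apply act_op)
open Equiv (Perm swap)

/-- A left ideal of functions on permutations of at most `2 p + 3` letters on which the sums of the
transpositions `(x i)` are the scalar `-p` consists of multiples of the sign. -/
theorem left_ideal (N p : ℕ) (hN : N ≤ 2 * p + 3) (hN0 : 0 < N)
    (I : Submodule ℚ (Perm (Fin N) → ℚ)) (hI : I ≠ ⊥)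
    (hL : ∀ u ∈ I, ∀ g, (fun σ => u (g * σ)) ∈ I)
    (hJ : ∀ u ∈ I, ∀ (x : Fin N) (σ : Perm (Fin N)),
      ∑ i ∈ Finset.univ.erase x, u (swap x i * σ) = (-(p : ℚ)) * u σ) :
    N = p + 1 ∧ ∀ u ∈ I, ∀ g σ, u (g * σ) = ((Equiv.Perm.sign g : ℤ) : ℚ) * u σ := by
  classical
  obtain ⟨n, rfl⟩ : ∃ n, N = n + 1 := ⟨N - 1, by omega⟩
  obtain ⟨u, hu, hune⟩ := Submodule.exists_mem_ne_zero_of_ne_bot hI
  obtain ⟨f, hf⟩ : ∃ f, op (n + 1) (n + 1) u f ≠ 0 := by
    by_contra h
    push Not at h
    exact hune (op_faithful u (LinearMap.ext h))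
  set W : Submodule ℚ ((Fin (n + 1) → Fin (n + 1)) → ℚ) :=
    Submodule.span ℚ {x | ∃ u ∈ I, ∃ f, op (n + 1) (n + 1) u f = x} with hW
  have hmem : ∀ u ∈ I, ∀ f, op (n + 1) (n + 1) u f ∈ W := fun u hu f =>
    Submodule.subset_span ⟨u, hu, f, rfl⟩
  have hstab : ∀ (T : Module.End ℚ ((Fin (n + 1) → Fin (n + 1)) → ℚ)),
      (∀ u ∈ I, ∀ f, T (op (n + 1) (n + 1) u f) ∈ W) → ∀ x ∈ W, T x ∈ W := by
    intro T hT x hx
    have h1 : W ≤ W.comap T := by
      rw [hW, Submodule.span_le]
      rintro _ ⟨u, hu, f, rfl⟩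
      exact hT u hu f
    exact h1 hx
  have hcore : ∀ u ∈ I, ∀ f, ∑ i : Fin n, act (n + 1) (n + 1) (swap 0 i.succ)
      (op (n + 1) (n + 1) u f) = (-(p : ℚ)) • op (n + 1) (n + 1) u f := by
    intro u hu f
    have e1 : ∀ i : Fin n, act (n + 1) (n + 1) (swap 0 i.succ) (op (n + 1) (n + 1) u f) =
        ∑ σ, u (swap 0 i.succ * σ) • act (n + 1) (n + 1) σ f := by
      intro i
      rw [act_op, op_apply, Equiv.swap_inv]
    rw [Finset.sum_congr rfl fun i _ => e1 i, Finset.sum_comm, op_apply, Finset.smul_sum]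
    refine Finset.sum_congr rfl fun σ _ => ?_
    rw [← Finset.sum_smul, smul_smul]
    congr 1
    have e2 := hJ u hu 0 σ
    rw [← e2]
    have e3 := Fin.sum_univ_succ (fun i : Fin (n + 1) => u (swap 0 i * σ))
    have e4 := Finset.add_sum_erase Finset.univ (fun i : Fin (n + 1) => u (swap 0 i * σ))
      (Finset.mem_univ 0)
    have e5 := e4.trans e3
    exact (add_left_cancel e5).symm
  obtain ⟨hNp, hs⟩ := small_HW p n n W
    (fun h => hf (by
      have := hmem u hu f
      rw [h] at this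
      exact (Submodule.mem_bot ℚ).1 this))
    (fun σ => hstab (act (n + 1) (n + 1) σ) (fun u hu f => by
      rw [act_op]
      exact hmem _ (hL u hu _) f))
    (fun a b => hstab (rep a b) (fun u hu f => by
      have h1 : rep a b (op (n + 1) (n + 1) u f) = op (n + 1) (n + 1) u (rep a b f) := by
        rw [op_apply, op_apply, map_sum]
        refine Finset.sum_congr rfl fun σ _ => ?_
        rw [map_smul, act_rep]
      rw [h1]
      exact hmem _ hu _))
    (by
      intro x hx
      have h1 : W ≤ LinearMap.ker (∑ i : Fin n, act (n + 1) (n + 1) (swap 0 i.succ) +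
          (p : ℚ) • LinearMap.id) := by
        rw [hW, Submodule.span_le]
        rintro _ ⟨u, hu, f, rfl⟩
        have h2 := hcore u hu f
        show _ = _
        simp only [LinearMap.add_apply, LinearMap.sum_apply, LinearMap.smul_apply,
          LinearMap.id_apply]
        rw [h2, neg_smul, neg_add_cancel]
      have h3 := h1 hx
      rw [LinearMap.mem_ker] at h3
      simp only [LinearMap.add_apply, LinearMap.sum_apply, LinearMap.smul_apply,
        LinearMap.id_apply] at h3
      rw [neg_smul, eq_neg_iff_add_eq_zero]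
      exact h3) hN
  refine ⟨by omega, fun u hu g σ => ?_⟩
  have h1 : op (n + 1) (n + 1) (fun τ => u (g * τ) - ((Equiv.Perm.sign g : ℤ) : ℚ) * u τ) = 0 := by
    apply LinearMap.ext
    intro f
    have h2 := hs g⁻¹ _ (hmem u hu f)
    rw [act_op, op_apply, op_apply, inv_inv, Equiv.Perm.sign_inv, Finset.smul_sum] at h2
    rw [op_apply]
    simp only [sub_smul, Finset.sum_sub_distrib, mul_smul]
    rw [h2, sub_self]
    rfl
  have h3 := congrFun (op_faithful _ h1) σ
  exact sub_eq_zero.1 h3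

end Pool.Agent.K3h8.GG
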