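import Pool.Agent.K3h8.GG.MatA
import Pool.Agent.K3h33.HP.Htr
import Pool.Agent.K3h46.HP.Comb

/-!
# Relations between matchings: gluing two points with coefficients
-/

set_option autoImplicit false

open Finset

namespace Pool.Agent.K3h8.GG

open Pool.Agent.K3h46.HP Pool.Agent.K3h33.HP

/-- The set of the pairs of a numbering. -/
def pairs {k : ℕ} (e : Fin k × Fin 2 ≃ Fin (k * 2)) : Finset (Sym2 (Fin (k * 2))) :=
  Finset.univ.image fun i : Fin k => s(e (i, 0), e (i, 1))

/-- The coefficient of a numbering depends only on the set of its pairs. -/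
def OfPairs {k : ℕ} (c : (Fin k × Fin 2 ≃ Fin (k * 2)) → ℚ) : Prop :=
  ∀ e e', pairs e = pairs e' → c e = c e'

theorem pairs_prodCongr {k : ℕ} (e : Fin k × Fin 2 ≃ Fin (k * 2)) (σ : Equiv.Perm (Fin k))
    (τ : Equiv.Perm (Fin 2)) : pairs ((Equiv.prodCongr σ τ).trans e) = pairs e := by
  classical
  have hτ : (τ 0 = 0 ∧ τ 1 = 1) ∨ (τ 0 = 1 ∧ τ 1 = 0) := by
    revert τ
    decide
  have h : ∀ i, s(((Equiv.prodCongr σ τ).trans e) (i, 0), ((Equiv.prodCongr σ τ).trans e) (i, 1)) =
      s(e (σ i, 0), e (σ i, 1)) := by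
    intro i
    rcases hτ with ⟨h0, h1⟩ | ⟨h0, h1⟩
    · simp [h0, h1]
    · simp only [Equiv.trans_apply, Equiv.prodCongr_apply, Prod.map_apply, h0, h1]
      exact Sym2.eq_swap
  unfold pairs
  ext z
  simp only [mem_image, mem_univ, true_and, h]
  constructor
  · rintro ⟨i, rfl⟩
    exact ⟨σ i, rfl⟩
  · rintro ⟨i, rfl⟩
    exact ⟨σ.symm i, by simp⟩

theorem pairs_flip {k : ℕ} (e : Fin k × Fin 2 ≃ Fin (k * 2)) (j : Fin k) :
    pairs ((Equiv.swap (j, (0 : Fin 2)) (j, 1)).trans e) = pairs e := by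
  classical
  unfold pairs
  congr 1
  funext i
  by_cases h : i = j
  · subst h
    rw [Equiv.trans_apply, Equiv.trans_apply, Equiv.swap_apply_left, Equiv.swap_apply_right]
    exact Sym2.eq_swap
  · have h0 : ∀ b, Equiv.swap (j, (0 : Fin 2)) (j, 1) (i, b) = (i, b) := fun b =>
      Equiv.swap_apply_of_ne_of_ne (fun h' => h (congrArg Prod.fst h'))
        (fun h' => h (congrArg Prod.fst h'))
    rw [Equiv.trans_apply, Equiv.trans_apply, h0, h0]

theorem pairs_trans {k : ℕ} (e : Fin k × Fin 2 ≃ Fin (k * 2)) (s : Equiv.Perm (Fin (k * 2))) :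
    pairs (e.trans s) = (pairs e).image (Sym2.map s) := by
  classical
  unfold pairs
  rw [Finset.image_image]
  rfl

/-- the inclusion of the first `2 k` points -/
def lift0 {k : ℕ} (i : Fin (k * 2)) : Fin ((k + 1) * 2) := ⟨i, by have := i.2; omega⟩

theorem pairs_ext {k : ℕ} (e : Fin k × Fin 2 ≃ Fin (k * 2)) :
    pairs (ext' e) = insert s(pt k 0, pt k 1) ((pairs e).image (Sym2.map lift0)) := by
  classical
  have h : ∀ (i : Fin k) (b : Fin 2), ext' e (i.castSucc, b) = lift0 (e (i, b)) := by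
    intro i b
    apply Fin.ext
    rw [ext'_castSucc]
    rfl
  unfold pairs
  rw [Finset.image_image]
  ext z
  simp only [mem_image, mem_univ, true_and, mem_insert, Function.comp_apply, Sym2.map_mk,
    Prod.map_apply]
  constructor
  · rintro ⟨i, rfl⟩
    induction i using Fin.lastCases with
    | last => left; rw [ext'_last, ext'_last]
    | cast i => right; exact ⟨i, by rw [h, h]⟩
  · rintro (rfl | ⟨i, rfl⟩)
    · exact ⟨Fin.last k, by rw [ext'_last, ext'_last]⟩
    · exact ⟨i.castSucc, by rw [h, h]⟩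

/-- The contraction of the coefficients. -/
noncomputable def contr (t : ℚ) {k : ℕ} (c : (Fin (k + 1) × Fin 2 ≃ Fin ((k + 1) * 2)) → ℚ)
    (e : Fin k × Fin 2 ≃ Fin (k * 2)) : ℚ :=
  t * c (ext' e) + ∑ x : Fin k × Fin 2,
    c ((Equiv.swap (Fin.last k, (1 : Fin 2)) (x.1.castSucc, x.2)).trans (ext' e))

theorem contr_eq (t : ℚ) {k : ℕ} (c : (Fin (k + 1) × Fin 2 ≃ Fin ((k + 1) * 2)) → ℚ)
    (e : Fin k × Fin 2 ≃ Fin (k * 2)) :
    contr t c e = t * c (ext' e) + ∑ i : Fin (k * 2),
      c ((ext' e).trans (Equiv.swap (pt k 1) (lift0 i))) := by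
  unfold contr
  congr 1
  refine Fintype.sum_equiv e _ _ fun x => ?_
  congr 1
  have h : lift0 (e x) = ext' e (x.1.castSucc, x.2) := by
    apply Fin.ext
    rw [ext'_castSucc]
    rfl
  rw [h, ← ext'_last e 1]
  ext y
  rw [Equiv.trans_apply, Equiv.trans_apply, (ext' e).injective.swap_apply]

theorem contr_ofPairs (t : ℚ) {k : ℕ} {c : (Fin (k + 1) × Fin 2 ≃ Fin ((k + 1) * 2)) → ℚ}
    (hc : OfPairs c) : OfPairs (contr t c) := by
  classical
  intro e e' h
  rw [contr_eq, contr_eq]
  have h1 : pairs (ext' e) = pairs (ext' e') := by rw [pairs_ext, pairs_ext, h]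
  rw [hc _ _ h1]
  congr 1
  refine Finset.sum_congr rfl fun i _ => hc _ _ ?_
  rw [pairs_trans, pairs_trans, h1]

/-- Gluing the two last points of a combination of matching products. -/
theorem comb_contr (X : Powers) {w : X.A 2} {t : ℚ} (h : X.IsProjector w t) {k : ℕ}
    {c : (Fin (k + 1) × Fin 2 ≃ Fin ((k + 1) * 2)) → ℚ} (hc : OfPairs c)
    (h0 : X.comb w (k + 1) c = 0) : X.comb w k (contr t c) = 0 := by
  classical
  set T : (Fin (k + 1) × Fin 2 ≃ Fin ((k + 1) * 2)) → X.A (k * 2) :=
    fun e => c e • X.push (k * 2) (F X w e) with hT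
  have h1 : ∑ e, T e = 0 := by
    have h2 := congrArg (fun z => X.push (k * 2) (X.pull (glueSelf k) z)) h0
    simp only [map_zero] at h2
    rw [← h2]
    unfold Powers.comb
    rw [map_sum, map_sum]
    refine Finset.sum_congr rfl fun e _ => ?_
    rw [map_smul, map_smul, map_prod]
    change c e • X.push (k * 2) (F X w e) = _
    unfold F
    congr 2
    refine Finset.prod_congr rfl fun i _ => ?_
    rw [pull_edge]
  -- the place of the first of the two points
  have h2 : ∀ p : Fin (k + 1) × Fin 2, ∑ e with e.symm (pt k 0) = p, T e =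
      ∑ e with e.symm (pt k 0) = (Fin.last k, 0), T e := by
    intro p
    set π : Equiv.Perm (Fin (k + 1) × Fin 2) :=
      Equiv.prodCongr (Equiv.swap (Fin.last k) p.1) (Equiv.swap 0 p.2) with hπ
    have hπp : π (Fin.last k, 0) = p := by
      rw [hπ]
      simp
    refine Finset.sum_bij (fun e _ => π.trans e) ?_ ?_ ?_ ?_
    · intro e he
      simp only [Finset.mem_filter, Finset.mem_univ, true_and] at he ⊢
      rw [Equiv.symm_trans_apply, he, ← hπp, Equiv.symm_apply_apply]
    · intro e _ e' _ hee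
      ext x
      have h3 := congrArg (fun g => g (π.symm x)) hee
      simp only [Equiv.trans_apply, Equiv.apply_symm_apply] at h3
      rw [h3]
    · intro e he
      simp only [Finset.mem_filter, Finset.mem_univ, true_and] at he
      refine ⟨π.symm.trans e, ?_, ?_⟩
      · simp only [Finset.mem_filter, Finset.mem_univ, true_and]
        rw [Equiv.symm_trans_apply, he, Equiv.symm_symm, hπp]
      · ext x
        simp
    · intro e _
      change c e • X.push (k * 2) (F X w e) = c (π.trans e) • X.push (k * 2) (F X w (π.trans e))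
      rw [F_inv X h.symm, hc _ _ (pairs_prodCongr e _ _)]
  have h3 : ∑ e, T e = ((k + 1) * 2) • ∑ e with e.symm (pt k 0) = (Fin.last k, 0), T e := by
    rw [← Finset.sum_fiberwise Finset.univ (fun e => e.symm (pt k 0)) T,
      Finset.sum_congr rfl fun p _ => h2 p, Finset.sum_const, Finset.card_univ]
    simp
  -- the place of the second of the two points
  have h4 : ∀ q : Fin (k + 1) × Fin 2,
      ∑ e ∈ Finset.univ.filter (fun e : Fin (k + 1) × Fin 2 ≃ Fin ((k + 1) * 2) =>
        e.symm (pt k 0) = (Fin.last k, 0)) with e.symm (pt k 1) = q, T e =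
      ∑ e with e (Fin.last k, 0) = pt k 0 ∧ e q = pt k 1, T e := by
    intro q
    rw [Finset.filter_filter]
    refine Finset.sum_congr ?_ fun _ _ => rfl
    ext e
    simp only [Finset.mem_filter, Finset.mem_univ, true_and]
    rw [Equiv.symm_apply_eq, Equiv.symm_apply_eq]
    exact ⟨fun h => ⟨h.1.symm, h.2.symm⟩, fun h => ⟨h.1.symm, h.2.symm⟩⟩
  have h5 : ∑ e with e.symm (pt k 0) = (Fin.last k, 0), T e = X.comb w k (contr t c) := by
    rw [← Finset.sum_fiberwise _ (fun e => e.symm (pt k 1)) T,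
      Finset.sum_congr rfl fun q _ => h4 q, Fintype.sum_prod_type, Fin.sum_univ_castSucc]
    have e1 : ∀ j : Fin k, ∀ b : Fin 2,
        ∑ e with e (Fin.last k, 0) = pt k 0 ∧ e (j.castSucc, b) = pt k 1, T e =
        ∑ e : Fin k × Fin 2 ≃ Fin (k * 2),
          c ((Equiv.swap (Fin.last k, (1 : Fin 2)) (j.castSucc, b)).trans (ext' e)) •
            F0 X w e := by
      intro j b
      rw [sum_fixed T (j.castSucc, b) (by
        intro h0
        exact absurd (congrArg Prod.fst h0) (Fin.castSucc_lt_last j).ne)]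
      refine Finset.sum_congr rfl fun e _ => ?_
      change c _ • X.push (k * 2) (F X w _) = _
      rw [push_F_swap X h e j b]
    have e2 : ∑ e with e (Fin.last k, 0) = pt k 0 ∧ e (Fin.last k, 1) = pt k 1, T e =
        ∑ e : Fin k × Fin 2 ≃ Fin (k * 2), (t * c (ext' e)) • F0 X w e := by
      rw [sum_fixed T (Fin.last k, 1) (by
        intro h0
        have h1 : (1 : Fin 2) = 0 := congrArg Prod.snd h0
        exact absurd h1 (by decide))]
      refine Finset.sum_congr rfl fun e _ => ?_
      rw [Equiv.swap_self, Equiv.refl_trans]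
      change c _ • X.push (k * 2) (F X w _) = _
      rw [push_F_last X h e, smul_smul, mul_comm (c (ext' e)) t]
    have e3 : ∑ e with e (Fin.last k, 0) = pt k 0 ∧ e (Fin.last k, 0) = pt k 1, T e = 0 := by
      rw [Finset.filter_false_of_mem, Finset.sum_empty]
      intro e _ hcon
      have h6 := hcon.1.symm.trans hcon.2
      exact absurd (pt_injective k h6) (by decide)
    simp only [Fin.sum_univ_two (f := fun b => ∑ e with e (Fin.last k, 0) = pt k 0 ∧
      e (Fin.last k, b) = pt k 1, T e), e1, e2, e3, zero_add]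
    unfold Powers.comb contr
    rw [← Fintype.sum_prod_type' (f := fun (j : Fin k) (b : Fin 2) =>
      ∑ e : Fin k × Fin 2 ≃ Fin (k * 2),
          c ((Equiv.swap (Fin.last k, (1 : Fin 2)) (j.castSucc, b)).trans (ext' e)) •
            F0 X w e), Finset.sum_comm, ← Finset.sum_add_distrib]
    refine Finset.sum_congr rfl fun e _ => ?_
    rw [← Finset.sum_smul, ← add_smul, add_comm]
    rfl
  rw [h3, h5, ← Nat.cast_smul_eq_nsmul ℚ] at h1
  refine (smul_eq_zero.1 h1).resolve_left ?_
  have : (0 : ℚ) < (((k + 1) * 2 : ℕ) : ℚ) := by positivity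
  exact this.ne'

/-- Permutations of the points. -/
theorem comb_perm (X : Powers) {w : X.A 2} {k : ℕ} {c : (Fin k × Fin 2 ≃ Fin (k * 2)) → ℚ}
    (h0 : X.comb w k c = 0) (g : Equiv.Perm (Fin (k * 2))) :
    X.comb w k (fun e => c (e.trans g)) = 0 := by
  have h1 := congrArg (X.pull g.symm) h0
  rw [map_zero] at h1
  rw [← h1]
  unfold Powers.comb
  rw [map_sum]
  refine Fintype.sum_equiv ⟨fun e => e.trans g, fun e => e.trans g.symm, fun e => by ext x; simp,
    fun e => by ext x; simp⟩ _ _ fun e => ?_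
  rw [map_smul, map_prod]
  congr 1
  refine Finset.prod_congr rfl fun i _ => ?_
  rw [pull_edge]
  simp

end Pool.Agent.K3h8.GG
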