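import Pool.Agent.K3h8.GG.MatB
import Pool.Agent.K3h46.HP.Main

/-!
# One relation between matchings
-/

set_option autoImplicit false

open Finset

namespace Pool.Agent.K3h8.GG

open Pool.Agent.K3h46.HP Pool.Agent.K3h33.HP
open Equiv (Perm swap)

theorem lift0_injective {k : ℕ} : Function.Injective (lift0 (k := k)) := by
  intro i j h
  have h1 := congrArg Fin.val h
  exact Fin.ext h1

theorem sum_points {k : ℕ} (G : Fin ((k + 1) * 2) → ℚ) :
    ∑ j ∈ univ.erase (pt k 1), G j = G (pt k 0) + ∑ i : Fin (k * 2), G (lift0 i) := by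
  classical
  have h1 : univ.erase (pt k 1) = insert (pt k 0) (univ.image (lift0 (k := k))) := by
    ext j
    simp only [mem_erase, mem_univ, and_true, mem_insert, mem_image, true_and]
    constructor
    · intro h
      have h2 := j.2
      have h3 : (j : ℕ) ≠ k * 2 + 1 := fun h' => h (Fin.ext h')
      rcases Nat.lt_or_ge (j : ℕ) (k * 2) with h4 | h4
      · right
        exact ⟨⟨j, h4⟩, rfl⟩
      · left
        apply Fin.ext
        change (j : ℕ) = k * 2 + 0
        omega
    · rintro (rfl | ⟨i, rfl⟩)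
      · intro h
        exact absurd (pt_injective k h) (by decide)
      · intro h
        have h5 := congrArg Fin.val h
        have h6 := i.2
        change (i : ℕ) = k * 2 + 1 at h5
        omega
  rw [h1, Finset.sum_insert, Finset.sum_image (fun i _ j _ h => lift0_injective h)]
  simp only [mem_image, mem_univ, true_and, not_exists]
  intro i h
  have h5 := congrArg Fin.val h
  have h6 := i.2
  change (i : ℕ) = k * 2 + 0 at h5
  omega

theorem trans_swap {α β : Type*} [DecidableEq α] [DecidableEq β] (e : α ≃ β) (x y : α) :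
    (swap x y).trans e = e.trans (swap (e x) (e y)) := by
  ext z
  rw [Equiv.trans_apply, Equiv.trans_apply, e.injective.swap_apply]

theorem ofPairs_trans {k : ℕ} {c : (Fin k × Fin 2 ≃ Fin (k * 2)) → ℚ} (hc : OfPairs c)
    (g : Perm (Fin (k * 2))) : OfPairs (fun e => c (e.trans g)) := by
  classical
  intro e e' h
  apply hc
  rw [pairs_trans, pairs_trans, h]

/-- The sum over the transpositions with one point. -/
theorem sum_swap (X : Powers) {w : X.A 2} {t : ℚ} (h : X.IsProjector w t) {k : ℕ}
    (hmin : ∀ c : (Fin k × Fin 2 ≃ Fin (k * 2)) → ℚ, OfPairs c → X.comb w k c = 0 → c = 0)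
    {c : (Fin (k + 1) × Fin 2 ≃ Fin ((k + 1) * 2)) → ℚ} (hc : OfPairs c)
    (h0 : X.comb w (k + 1) c = 0) (e : Fin (k + 1) × Fin 2 ≃ Fin ((k + 1) * 2))
    (x : Fin ((k + 1) * 2)) :
    ∑ i ∈ univ.erase x, c (e.trans (swap x i)) = (1 - t) * c e := by
  classical
  -- the case in which `x` has the last label
  have key : ∀ e : Fin (k + 1) × Fin 2 ≃ Fin ((k + 1) * 2),
      ∑ i ∈ univ.erase (e (Fin.last k, 1)), c (e.trans (swap (e (Fin.last k, 1)) i)) =
        (1 - t) * c e := by
    intro e
    set e1 : Fin (k + 1) × Fin 2 ≃ Fin ((k + 1) * 2) := ext' finProdFinEquiv with he1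
    set σ : Perm (Fin ((k + 1) * 2)) := e1.symm.trans e with hσ
    have hes : e1.trans σ = e := by
      rw [hσ]
      ext z
      simp
    have hp : ∀ b : Fin 2, σ (pt k b) = e (Fin.last k, b) := by
      intro b
      rw [hσ, Equiv.trans_apply, ← ext'_last (finProdFinEquiv (m := k) (n := 2)) b, ← he1,
        Equiv.symm_apply_apply]
    have h1 := congrFun (hmin _ (contr_ofPairs t (ofPairs_trans hc σ))
      (comb_contr X h (ofPairs_trans hc σ) (comb_perm X h0 σ))) finProdFinEquiv
    rw [contr_eq] at h1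
    have h2 : ∀ i : Fin (k * 2),
        c (((ext' finProdFinEquiv).trans (swap (pt k 1) (lift0 i))).trans σ) =
          c (e.trans (swap (e (Fin.last k, 1)) (σ (lift0 i)))) := by
      intro i
      congr 1
      rw [Equiv.trans_assoc, trans_swap, ← Equiv.trans_assoc, hp, ← he1, hes]
    have h3 : t * c e + ∑ i : Fin (k * 2),
        c (e.trans (swap (e (Fin.last k, 1)) (σ (lift0 i)))) = 0 := by
      rw [← Finset.sum_congr rfl fun i _ => h2 i]
      rw [← he1, hes] at h1
      exact h1
    have h4 : ∑ i ∈ univ.erase (e (Fin.last k, 1)), c (e.trans (swap (e (Fin.last k, 1)) i)) =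
        ∑ j ∈ univ.erase (pt k 1), c (e.trans (swap (e (Fin.last k, 1)) (σ j))) := by
      refine (Finset.sum_bij (fun j _ => σ j) ?_ ?_ ?_ (fun _ _ => rfl)).symm
      · intro j hj
        rw [mem_erase] at hj ⊢
        refine ⟨?_, mem_univ _⟩
        rw [← hp]
        exact fun h' => hj.1 (σ.injective h')
      · intro j _ j' _ hjj
        exact σ.injective hjj
      · intro i hi
        refine ⟨σ.symm i, ?_, by simp⟩
        rw [mem_erase] at hi ⊢
        refine ⟨?_, mem_univ _⟩
        rw [← hp] at hi
        intro h'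
        apply hi.1
        rw [← h']
        simp
    have h5 : c (e.trans (swap (e (Fin.last k, 1)) (σ (pt k 0)))) = c e := by
      rw [hp, ← trans_swap, Equiv.swap_comm]
      exact hc _ _ (pairs_flip e (Fin.last k))
    rw [h4, sum_points, h5]
    linear_combination h3
  set q := e.symm x with hq
  set π : Perm (Fin (k + 1) × Fin 2) :=
    Equiv.prodCongr (swap (Fin.last k) q.1) (swap 1 q.2) with hπ
  have hπq : π (Fin.last k, 1) = q := by
    rw [hπ]
    simp
  have h1 := key (π.trans e)
  have h2 : (π.trans e) (Fin.last k, 1) = x := by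
    rw [Equiv.trans_apply, hπq, hq, Equiv.apply_symm_apply]
  rw [h2] at h1
  have h3 : c (π.trans e) = c e := hc _ _ (pairs_prodCongr e _ _)
  rw [h3] at h1
  rw [← h1]
  refine Finset.sum_congr rfl fun i _ => ?_
  rw [Equiv.trans_assoc]
  exact (hc _ _ (pairs_prodCongr (e.trans (swap x i)) _ _)).symm

/-- **One relation between at most `2 n + 2` pairs.** -/
theorem any_relation (X : Powers) {w : X.A 2} {n : ℕ} (hw : X.IsProjector w (-(2 * n : ℕ))) {k : ℕ}
    (hk : k ≤ 2 * n + 2) (c : (Fin k × Fin 2 ≃ Fin (k * 2)) → ℚ) (hc : OfPairs c) (hc0 : c ≠ 0)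
    (h : X.comb w k c = 0) : X.selfPower w (n + 1) = 0 := by
  classical
  have hex : ∃ k, ∃ c : (Fin k × Fin 2 ≃ Fin (k * 2)) → ℚ, OfPairs c ∧ c ≠ 0 ∧
      X.comb w k c = 0 := ⟨k, c, hc, hc0, h⟩
  obtain ⟨k', hkk, ⟨c', hc', hc0', h'⟩, hmin⟩ : ∃ k', k' ≤ k ∧
      (∃ c : (Fin k' × Fin 2 ≃ Fin (k' * 2)) → ℚ, OfPairs c ∧ c ≠ 0 ∧ X.comb w k' c = 0) ∧
      ∀ m < k', ¬ ∃ c : (Fin m × Fin 2 ≃ Fin (m * 2)) → ℚ, OfPairs c ∧ c ≠ 0 ∧
        X.comb w m c = 0 :=
    ⟨Nat.find hex, Nat.find_min' hex ⟨c, hc, hc0, h⟩, Nat.find_spec hex,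
      fun m hm => Nat.find_min hex hm⟩
  have hk' : k' ≤ 2 * n + 2 := hkk.trans hk
  clear hkk hc0 h hc c hk hex
  rcases k' with _ | m
  · -- degenerate case
    apply eq_zero_of_zero
    haveI : Subsingleton (Fin 0 × Fin 2 ≃ Fin (0 * 2)) := ⟨fun a b => by ext x; exact x.1.elim0⟩
    haveI : Inhabited (Fin 0 × Fin 2 ≃ Fin (0 * 2)) := ⟨finProdFinEquiv⟩
    haveI : Unique (Fin 0 × Fin 2 ≃ Fin (0 * 2)) := ⟨inferInstance, fun a => Subsingleton.elim _ _⟩
    unfold Powers.comb at h'
    rw [Fintype.sum_unique] at h'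
    have h1 : ∀ a, c' a ≠ 0 := by
      intro a h2
      apply hc0'
      funext e
      rw [Subsingleton.elim e a, h2]
      rfl
    have h2 := (smul_eq_zero.1 h').resolve_left (h1 _)
    simpa using h2
  · have hmin' : ∀ c : (Fin m × Fin 2 ≃ Fin (m * 2)) → ℚ, OfPairs c → X.comb w m c = 0 →
        c = 0 := by
      intro c hc h
      by_contra hne
      exact hmin m (Nat.lt_succ_self m) ⟨c, hc, hne, h⟩
    set e1 : Fin (m + 1) × Fin 2 ≃ Fin ((m + 1) * 2) := ext' finProdFinEquiv with he1
    -- the ideal, twisted by the sign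
    let I : Submodule ℚ (Perm (Fin ((m + 1) * 2)) → ℚ) :=
      { carrier := {v | OfPairs (fun e : Fin (m + 1) × Fin 2 ≃ Fin ((m + 1) * 2) =>
            ((Equiv.Perm.sign (e1.symm.trans e) : ℤ) : ℚ) * v (e1.symm.trans e)) ∧
          X.comb w (m + 1) (fun e : Fin (m + 1) × Fin 2 ≃ Fin ((m + 1) * 2) =>
            ((Equiv.Perm.sign (e1.symm.trans e) : ℤ) : ℚ) * v (e1.symm.trans e)) = 0}
        zero_mem' := by
          constructor
          · intro e e' _
            simp
          · simp [Powers.comb]
        add_mem' := by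
          rintro u v ⟨h1, h2⟩ ⟨h3, h4⟩
          constructor
          · intro e e' he
            have a1 := h1 e e' he
            have a2 := h3 e e' he
            simp only at a1 a2
            simp only [Pi.add_apply, mul_add]
            rw [a1, a2]
          · unfold Powers.comb at h2 h4 ⊢
            simp only [Pi.add_apply, mul_add, add_smul, Finset.sum_add_distrib]
            rw [h2, h4, add_zero]
        smul_mem' := by
          rintro a v ⟨h1, h2⟩
          constructor
          · intro e e' he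
            have a1 := h1 e e' he
            simp only at a1
            simp only [Pi.smul_apply, smul_eq_mul, mul_left_comm _ a]
            rw [a1]
          · unfold Powers.comb at h2 ⊢
            simp only [Pi.smul_apply, smul_eq_mul, mul_left_comm _ a, mul_smul a]
            rw [← Finset.smul_sum, h2, smul_zero] }
    have hmemI : ∀ v, v ∈ I ↔ OfPairs (fun e : Fin (m + 1) × Fin 2 ≃ Fin ((m + 1) * 2) =>
            ((Equiv.Perm.sign (e1.symm.trans e) : ℤ) : ℚ) * v (e1.symm.trans e)) ∧
          X.comb w (m + 1) (fun e : Fin (m + 1) × Fin 2 ≃ Fin ((m + 1) * 2) =>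
            ((Equiv.Perm.sign (e1.symm.trans e) : ℤ) : ℚ) * v (e1.symm.trans e)) = 0 :=
      fun v => Iff.rfl
    have sgn2 : ∀ σ : Perm (Fin ((m + 1) * 2)), ((Equiv.Perm.sign σ : ℤ) : ℚ) * ((Equiv.Perm.sign σ : ℤ) : ℚ) = 1 := by
      intro σ
      rcases Int.units_eq_one_or (Equiv.Perm.sign σ) with h | h <;> rw [h] <;> simp
    have hback : ∀ σ : Perm (Fin ((m + 1) * 2)), e1.symm.trans (e1.trans σ) = σ := by
      intro σ
      ext z
      simp
    -- the element of the ideal
    set v0 : Perm (Fin ((m + 1) * 2)) → ℚ := fun σ => ((Equiv.Perm.sign σ : ℤ) : ℚ) * c' (e1.trans σ) with hv0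
    have hforth : ∀ e : Fin (m + 1) × Fin 2 ≃ Fin ((m + 1) * 2), e1.trans (e1.symm.trans e) = e := by
      intro e
      ext z
      simp
    have hcv : (fun e : Fin (m + 1) × Fin 2 ≃ Fin ((m + 1) * 2) =>
            ((Equiv.Perm.sign (e1.symm.trans e) : ℤ) : ℚ) * v0 (e1.symm.trans e)) = c' := by
      funext e
      simp only [hv0]
      rw [hforth, ← mul_assoc, sgn2, one_mul]
    have hv0I : v0 ∈ I := by
      rw [hmemI, hcv]
      exact ⟨hc', h'⟩
    have hv0ne : v0 ≠ 0 := by
      intro h0
      apply hc0'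
      rw [← hcv, h0]
      funext e
      simp
    have hIne : I ≠ ⊥ := by
      intro hb
      rw [hb, Submodule.mem_bot] at hv0I
      exact hv0ne hv0I
    obtain ⟨hNp, hsign⟩ := left_ideal ((m + 1) * 2) (2 * n + 1) (by omega) (by omega) I hIne
      (by
        intro v hv g
        rw [hmemI] at hv ⊢
        obtain ⟨h1, h2⟩ := hv
        have e2 : (fun e : Fin (m + 1) × Fin 2 ≃ Fin ((m + 1) * 2) =>
            ((Equiv.Perm.sign (e1.symm.trans e) : ℤ) : ℚ) * v (g * (e1.symm.trans e))) =
            ((Equiv.Perm.sign g : ℤ) : ℚ) • fun e : Fin (m + 1) × Fin 2 ≃ Fin ((m + 1) * 2) =>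
              ((Equiv.Perm.sign (e1.symm.trans (e.trans g)) : ℤ) : ℚ) *
                v (e1.symm.trans (e.trans g)) := by
          funext e
          rw [Pi.smul_apply, smul_eq_mul]
          have e3 : e1.symm.trans (e.trans g) = g * (e1.symm.trans e) := rfl
          rw [e3, Equiv.Perm.sign_mul]
          push_cast
          linear_combination (-(((Equiv.Perm.sign (e1.symm.trans e) : ℤ) : ℚ) *
            v (g * (e1.symm.trans e)))) * sgn2 g
        have e4 := ofPairs_trans h1 g
        have e5 := comb_perm X h2 g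
        constructor
        · intro a b hab
          have := e4 a b hab
          have e6 := congrFun e2 a
          have e7 := congrFun e2 b
          simp only [Pi.smul_apply, smul_eq_mul] at e6 e7
          change ((Equiv.Perm.sign (e1.symm.trans a) : ℤ) : ℚ) * v (g * (e1.symm.trans a)) =
            ((Equiv.Perm.sign (e1.symm.trans b) : ℤ) : ℚ) * v (g * (e1.symm.trans b))
          rw [e6, e7]
          exact congrArg (fun z => ((Equiv.Perm.sign g : ℤ) : ℚ) * z) this
        · change X.comb w (m + 1) (fun e : Fin (m + 1) × Fin 2 ≃ Fin ((m + 1) * 2) =>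
            ((Equiv.Perm.sign (e1.symm.trans e) : ℤ) : ℚ) * v (g * (e1.symm.trans e))) = 0
          rw [e2]
          unfold Powers.comb at e5 ⊢
          simp only [Pi.smul_apply, smul_assoc]
          rw [← Finset.smul_sum, e5, smul_zero])
      (by
        intro v hv x σ
        rw [hmemI] at hv
        obtain ⟨h1, h2⟩ := hv
        have h3 := sum_swap X hw hmin' h1 h2 (e1.trans σ) x
        have e3 : ∀ i : Fin ((m + 1) * 2), e1.symm.trans ((e1.trans σ).trans (swap x i)) = swap x i * σ := by
          intro i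
          ext z
          simp
        simp only [e3, hback] at h3
        have e4 : ∀ i ∈ univ.erase x, v (swap x i * σ) =
            (-((Equiv.Perm.sign σ : ℤ) : ℚ)) *
              (((Equiv.Perm.sign (swap x i * σ) : ℤ) : ℚ) * v (swap x i * σ)) := by
          intro i hi
          have hne : x ≠ i := (Finset.ne_of_mem_erase hi).symm
          rw [Equiv.Perm.sign_mul, Equiv.Perm.sign_swap hne]
          push_cast
          linear_combination (-(v (swap x i * σ))) * sgn2 σ
        rw [Finset.sum_congr rfl e4, ← Finset.mul_sum, h3]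
        push_cast
        linear_combination (-(2 * (n : ℚ) + 1) * v σ) * sgn2 σ)
    have hmn : m = n := by omega
    subst hmn
    have hconst : ∀ e, c' e = v0 1 := by
      intro e
      have h1 := congrFun hcv e
      rw [← h1]
      have h2 := hsign v0 hv0I (e1.symm.trans e) 1
      rw [mul_one] at h2
      rw [h2, ← mul_assoc, sgn2, one_mul]
    have hv1 : v0 1 ≠ 0 := by
      intro h0
      apply hc0'
      funext e
      rw [hconst e, h0]
      rfl
    have h9 : X.comb w (m + 1) c' = v0 1 • X.selfPower w (m + 1) := by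
      rw [selfPower_eq_comb]
      unfold Powers.comb
      rw [Finset.smul_sum]
      refine Finset.sum_congr rfl fun e _ => ?_
      rw [hconst e, one_smul]
    rw [h9] at h'
    exact (smul_eq_zero.1 h').resolve_left hv1

end Pool.Agent.K3h8.GG
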