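import Mathlib

/-!
# Highest weight vectors in the symmetric powers of the exterior square: statements

Functions `F` on the words `v : Fin k → L × L` of `k` pairs of letters, `L = Fin (d + 1)`.
-/

set_option autoImplicit false

open MvPolynomial

namespace Pool.Agent.K3h8.GG

/-- the entries of the generic antisymmetric matrix -/
noncomputable def AX {d : ℕ} (z : Fin (d + 1) × Fin (d + 1)) :
    MvPolynomial (Fin (d + 1) × Fin (d + 1)) ℚ := X z - X z.swap

/-- antisymmetric in each pair, symmetric in the pairs -/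
def Sk {k d : ℕ} (F : (Fin k → Fin (d + 1) × Fin (d + 1)) → ℚ) : Prop :=
  (∀ v i, F (Function.update v i (v i).swap) = - F v) ∧
    ∀ (v : Fin k → Fin (d + 1) × Fin (d + 1)) (σ : Equiv.Perm (Fin k)), F (v ∘ σ) = F v

/-- brick PDET: the generic antisymmetric matrix of even size is invertible -/
def S_PDET : Prop := ∀ (d : ℕ) (a : Fin (d + 1)), Even (a : ℕ) →
  Matrix.det (Matrix.of fun x c : Fin (a : ℕ) =>
    AX ((Fin.castLE a.isLt.le x : Fin (d + 1)), (Fin.castLE a.isLt.le c : Fin (d + 1)))) ≠ 0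

/-- brick PINJ: the polynomial of `F` determines `F` -/
def S_PINJ : Prop := ∀ (k d : ℕ) (F : (Fin k → Fin (d + 1) × Fin (d + 1)) → ℚ), Sk F →
  ∑ v, C (F v) * ∏ i, AX (v i) = 0 → F = 0

/-- brick PAR: the number of letters in a highest weight vector is even -/
def S_PAR : Prop := ∀ (k d : ℕ) (a : Fin (d + 1)) (F : (Fin k → Fin (d + 1) × Fin (d + 1)) → ℚ),
  Sk F → Even (a : ℕ) →
  (∀ v, F v ≠ 0 → ∀ i, (v i).1 ≤ a ∧ (v i).2 ≤ a) →
  (∀ v, F v ≠ 0 → ∃ i, (v i).1 = a ∨ (v i).2 = a) →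
  (∀ x, x < a → ∀ v, ∑ i, ((if (v i).1 = x then F (Function.update v i (a, (v i).2)) else 0) +
    (if (v i).2 = x then F (Function.update v i ((v i).1, a)) else 0)) = 0) →
  F = 0

end Pool.Agent.K3h8.GG
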