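import Pool.Agent.K3h8.GG.MatC
import Pool.Agent.K3h8.GG.Stm3

/-!
# Relations between matchings: the parity of the number of rows
-/

set_option autoImplicit false

namespace Pool.Agent.K3h8.GG

open Pool.Agent.K3h79.GG (op_apply act_op)
open Equiv (Perm swap)

section

variable {n d : ℕ}

theorem cnt_comp (z : Fin (d + 1)) (w : Fin n → Fin (d + 1)) (τ : Perm (Fin n)) :
    cnt z (w ∘ τ) = cnt z w := by
  classical
  unfold cnt
  refine Finset.card_bij (fun i _ => τ i) ?_ (fun i _ j _ h => τ.injective h) ?_
  · intro i hi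
    simpa using hi
  · intro i hi
    exact ⟨τ.symm i, by simpa using hi, by simp⟩

/-- The component of the weight of `ω`. -/
noncomputable def cmp (ω : Fin n → Fin (d + 1)) :
    ((Fin n → Fin (d + 1)) → ℚ) →ₗ[ℚ] ((Fin n → Fin (d + 1)) → ℚ) where
  toFun f := fun w => by
    classical
    exact if (∀ z, cnt z w = cnt z ω) then f w else 0
  map_add' f g := by
    funext w
    simp only [Pi.add_apply]
    split_ifs <;> simp
  map_smul' c f := by
    funext w
    simp only [Pi.smul_apply, smul_eq_mul, RingHom.id_apply]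
    split_ifs <;> simp

open Classical in
theorem cmp_apply (ω : Fin n → Fin (d + 1)) (f : (Fin n → Fin (d + 1)) → ℚ)
    (w : Fin n → Fin (d + 1)) : cmp ω f w = if (∀ z, cnt z w = cnt z ω) then f w else 0 := rfl

theorem cmp_act (ω : Fin n → Fin (d + 1)) (τ : Perm (Fin n)) (f : (Fin n → Fin (d + 1)) → ℚ) :
    cmp ω (act (d + 1) n τ f) = act (d + 1) n τ (cmp ω f) := by
  classical
  funext w
  rw [cmp_apply, act_apply, act_apply, cmp_apply]
  simp only [cnt_comp]

theorem cmp_supp (ω : Fin n → Fin (d + 1)) (f : (Fin n → Fin (d + 1)) → ℚ)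
    (w : Fin n → Fin (d + 1)) (h : cmp ω f w ≠ 0) : ∀ z, cnt z w = cnt z ω := by
  classical
  by_contra hne
  exact h (by rw [cmp_apply, if_neg hne])

theorem cmp_hw (ω : Fin n → Fin (d + 1)) (f : (Fin n → Fin (d + 1)) → ℚ)
    (hhw : ∀ a b : Fin (d + 1), a < b → rep a b f = 0) :
    ∀ x y : Fin (d + 1), x < y → rep x y (cmp ω f) = 0 := by
  classical
  intro x y hxy
  funext w
  rw [rep_apply]
  by_cases hw : ∀ z, cnt z w + (if y = z then 1 else 0) = cnt z ω + (if x = z then 1 else 0)
  · have h1 := congrFun (hhw x y hxy) w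
    rw [rep_apply] at h1
    refine Eq.trans (Finset.sum_congr rfl fun i _ => ?_) h1
    by_cases hi : w i = x
    · rw [if_pos hi, if_pos hi]
      have : ∀ z, cnt z (Function.update w i y) = cnt z ω := by
        intro z
        have e1 := cnt_update x y z w i hi
        have e2 := hw z
        omega
      rw [cmp_apply, if_pos this]
    · rw [if_neg hi, if_neg hi]
  · refine Finset.sum_eq_zero fun i _ => ?_
    by_cases hi : w i = x
    · rw [if_pos hi, cmp_apply]
      refine if_neg fun h => hw fun z => ?_
      have e1 := cnt_update x y z w i hi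
      have e2 := h z
      omega
    · rw [if_neg hi]

end

section

variable {k N d : ℕ} (e1 : Fin k × Fin 2 ≃ Fin N)

/-- the exchange of the two places of the pair `i` -/
def flp (i : Fin k) : Perm (Fin N) := (e1.symm.trans (swap (i, (0 : Fin 2)) (i, 1))).trans e1

/-- a permutation of the pairs -/
def blk (τ : Perm (Fin k)) : Perm (Fin N) :=
  (e1.symm.trans (Equiv.prodCongr τ (Equiv.refl (Fin 2)))).trans e1

/-- the word of a family of pairs -/
def word (v : Fin k → Fin (d + 1) × Fin (d + 1)) : Fin N → Fin (d + 1) :=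
  fun y => if (e1.symm y).2 = 0 then (v (e1.symm y).1).1 else (v (e1.symm y).1).2

theorem word_e1 (v : Fin k → Fin (d + 1) × Fin (d + 1)) (i : Fin k) (b : Fin 2) :
    word e1 v (e1 (i, b)) = if b = 0 then (v i).1 else (v i).2 := by
  unfold word
  rw [Equiv.symm_apply_apply]

theorem word_swap (v : Fin k → Fin (d + 1) × Fin (d + 1)) (i : Fin k) :
    word e1 (Function.update v i (v i).swap) = word e1 v ∘ flp e1 i := by
  funext y
  obtain ⟨⟨j, b⟩, rfl⟩ := e1.surjective y
  rw [Function.comp_apply]
  unfold flp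
  rw [Equiv.trans_apply, Equiv.trans_apply, Equiv.symm_apply_apply, word_e1]
  by_cases hj : j = i
  · subst hj
    rw [Function.update_self]
    rcases Pool.Agent.K3h33.HP.lem2 b with rfl | rfl
    · rw [Equiv.swap_apply_left, word_e1]
      simp
    · rw [Equiv.swap_apply_right, word_e1]
      simp
  · rw [Function.update_of_ne hj, Equiv.swap_apply_of_ne_of_ne, word_e1]
    · exact fun h => hj (congrArg Prod.fst h)
    · exact fun h => hj (congrArg Prod.fst h)

theorem word_blk (v : Fin k → Fin (d + 1) × Fin (d + 1)) (τ : Perm (Fin k)) :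
    word e1 (v ∘ τ) = word e1 v ∘ blk e1 τ := by
  funext y
  obtain ⟨⟨j, b⟩, rfl⟩ := e1.surjective y
  rw [Function.comp_apply]
  unfold blk
  rw [Equiv.trans_apply, Equiv.trans_apply, Equiv.symm_apply_apply, word_e1]
  change _ = word e1 v (e1 (τ j, b))
  rw [word_e1]
  rfl

theorem word_surj (w : Fin N → Fin (d + 1)) :
    word e1 (fun i => (w (e1 (i, 0)), w (e1 (i, 1)))) = w := by
  funext y
  obtain ⟨⟨j, b⟩, rfl⟩ := e1.surjective y
  rw [word_e1]
  rcases Pool.Agent.K3h33.HP.lem2 b with rfl | rfl <;> simp

theorem word_update0 (v : Fin k → Fin (d + 1) × Fin (d + 1)) (i : Fin k) (a : Fin (d + 1)) :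
    Function.update (word e1 v) (e1 (i, 0)) a = word e1 (Function.update v i (a, (v i).2)) := by
  funext y
  obtain ⟨⟨j, b⟩, rfl⟩ := e1.surjective y
  rw [word_e1]
  by_cases hj : j = i
  · subst hj
    rw [Function.update_self]
    rcases Pool.Agent.K3h33.HP.lem2 b with rfl | rfl
    · rw [Function.update_self]; simp
    · rw [Function.update_of_ne, word_e1]
      · simp
      · intro h
        have h9 : (1 : Fin 2) = 0 := congrArg Prod.snd (e1.injective h)
        exact absurd h9 (by decide)
  · rw [Function.update_of_ne hj, Function.update_of_ne, word_e1]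
    intro h
    exact hj (congrArg Prod.fst (e1.injective h))

theorem word_update1 (v : Fin k → Fin (d + 1) × Fin (d + 1)) (i : Fin k) (a : Fin (d + 1)) :
    Function.update (word e1 v) (e1 (i, 1)) a = word e1 (Function.update v i ((v i).1, a)) := by
  funext y
  obtain ⟨⟨j, b⟩, rfl⟩ := e1.surjective y
  rw [word_e1]
  by_cases hj : j = i
  · subst hj
    rw [Function.update_self]
    rcases Pool.Agent.K3h33.HP.lem2 b with rfl | rfl
    · rw [Function.update_of_ne, word_e1]
      · simp
      · intro h
        have h9 : (0 : Fin 2) = 1 := congrArg Prod.snd (e1.injective h)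
        exact absurd h9 (by decide)
    · rw [Function.update_self]; simp
  · rw [Function.update_of_ne hj, Function.update_of_ne, word_e1]
    intro h
    exact hj (congrArg Prod.fst (e1.injective h))

/-- The parity of the number of rows, for functions on words. -/
theorem par_words (hPAR : S_PAR) (a : Fin (d + 1)) (ha : Even (a : ℕ))
    (F : (Fin N → Fin (d + 1)) → ℚ)
    (h1 : ∀ i w, F (w ∘ flp e1 i) = - F w) (h2 : ∀ τ w, F (w ∘ blk e1 τ) = F w)
    (h3 : ∀ w, F w ≠ 0 → ∀ y, w y ≤ a) (h4 : ∀ w, F w ≠ 0 → ∃ y, w y = a)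
    (h5 : ∀ x, x < a → rep x a F = 0) : F = 0 := by
  classical
  have key : (fun v => F (word e1 v)) = 0 := by
    refine hPAR k d a _ ⟨?_, ?_⟩ ha ?_ ?_ ?_
    · intro v i
      simp only
      rw [word_swap, h1]
    · intro v τ
      simp only
      rw [word_blk, h2]
    · intro v hv i
      have e2 := h3 _ hv (e1 (i, 0))
      have e3 := h3 _ hv (e1 (i, 1))
      rw [word_e1] at e2 e3
      exact ⟨by simpa using e2, by simpa using e3⟩
    · intro v hv
      obtain ⟨y, hy⟩ := h4 _ hv
      obtain ⟨⟨j, b⟩, rfl⟩ := e1.surjective y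
      rw [word_e1] at hy
      refine ⟨j, ?_⟩
      rcases Pool.Agent.K3h33.HP.lem2 b with rfl | rfl
      · left; simpa using hy
      · right; simpa using hy
    · intro x hx v
      have e2 := congrFun (h5 x hx) (word e1 v)
      rw [rep_apply, ← Equiv.sum_comp e1, Fintype.sum_prod_type] at e2
      refine Eq.trans (Finset.sum_congr rfl fun i _ => ?_) e2
      rw [Fin.sum_univ_two, word_e1, word_e1, word_update0, word_update1]
      simp
  funext w
  have h9 := congrFun key (fun i => (w (e1 (i, 0)), w (e1 (i, 1))))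
  change F (word e1 fun i => (w (e1 (i, 0)), w (e1 (i, 1)))) = 0 at h9
  rw [word_surj] at h9
  exact h9

end

end Pool.Agent.K3h8.GG
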