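import Pool.Agent.K3h8.GG.MatD

/-!
# Relations between matchings: the sharp bound
-/

set_option autoImplicit false

namespace Pool.Agent.K3h8.GG

open Pool.Agent.K3h79.GG (op_apply act_op)
open Equiv (Perm swap)

section

variable {n d : ℕ}

theorem JM_cmp (ω : Fin (n + 1) → Fin (d + 1)) (f : (Fin (n + 1) → Fin (d + 1)) → ℚ) (c : ℚ)
    (τ : Perm (Fin (n + 1))) (hJ : JM d n (act (d + 1) (n + 1) τ f) = c • act (d + 1) (n + 1) τ f) :
    JM d n (act (d + 1) (n + 1) τ (cmp ω f)) = c • act (d + 1) (n + 1) τ (cmp ω f) := by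
  have h1 : JM d n (act (d + 1) (n + 1) τ (cmp ω f)) =
      cmp ω (JM d n (act (d + 1) (n + 1) τ f)) := by
    unfold JM
    rw [map_sum]
    refine Finset.sum_congr rfl fun i _ => ?_
    rw [cmp_act, cmp_act]
  rw [h1, hJ, map_smul, cmp_act]

/-- A space of functions on words of length at most `3 p + 8` on which `∑ (0 i)` is `-p`. -/
theorem big_HW (p d n : ℕ) (W : Submodule ℚ ((Fin (n + 1) → Fin (d + 1)) → ℚ)) (hW : W ≠ ⊥)
    (hσ : ∀ σ, ∀ f ∈ W, act (d + 1) (n + 1) σ f ∈ W)
    (hE : ∀ a b : Fin (d + 1), ∀ f ∈ W, rep a b f ∈ W)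
    (hJ : ∀ f ∈ W, JM d n f = (-(p : ℚ)) • f) (hn : n + 1 ≤ 3 * p + 8)
    (hpar : ∀ a : Fin (d + 1), (a : ℕ) = p + 1 → ∀ f ∈ W, ∀ ω, f ω ≠ 0 →
      (∀ x y : Fin (d + 1), x < y → rep x y f = 0) →
      (∀ w, cmp ω f w ≠ 0 → (∀ y, w y ≤ a) ∧ ∃ y, w y = a) → False) :
    n = p ∧ ∀ σ, ∀ f ∈ W, act (d + 1) (n + 1) σ f = ((Equiv.Perm.sign σ : ℤ) : ℚ) • f := by
  obtain ⟨f0, hf0, hf00⟩ := Submodule.exists_mem_ne_zero_of_ne_bot hW
  rcases n with _ | m
  · exact small_HW p d 0 W hW hσ hE hJ (by omega)
  · let s : Perm (Fin (m + 2)) := swap 0 1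
    let A := act (d + 1) (m + 2)
    have hss : s * s = 1 := Equiv.swap_mul_self _ _
    have hAA : ∀ f, A s (A s f) = f := by
      intro f
      rw [← Module.End.mul_apply, ← map_mul, hss, map_one, Module.End.one_apply]
    -- the vectors of `W` which `s` fixes
    let Ws : Submodule ℚ ((Fin (m + 2) → Fin (d + 1)) → ℚ) := W ⊓ LinearMap.ker (A s - 1)
    have hmem : ∀ f, f ∈ Ws ↔ f ∈ W ∧ A s f = f := by
      intro f
      simp only [Ws, Submodule.mem_inf, LinearMap.mem_ker, LinearMap.sub_apply,
        Module.End.one_apply, sub_eq_zero]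
    have hWs : Ws = ⊥ := by
      by_contra hne
      obtain ⟨f, hf, hfne, hhw⟩ := exists_hw Ws hne (by
        intro a b f hf
        rw [hmem] at hf ⊢
        refine ⟨hE a b f hf.1, ?_⟩
        rw [act_rep, hf.2])
      rw [hmem] at hf
      obtain ⟨hfW, hfs⟩ := hf
      have hJf : JM d (m + 1) f = (-(p : ℚ)) • f := hJ f hfW
      obtain ⟨a, hmax, ⟨w0, hw0⟩, hcnt, hyhw⟩ := jm_lemma' f hfne hhw _ hJf
      have h1 := hcnt w0 hw0
      have h2 : (a : ℕ) = p + cnt a w0 := by
        have : ((a : ℕ) : ℚ) = ((p + cnt a w0 : ℕ) : ℚ) := by push_cast; linarith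
        exact_mod_cast this
      have h3 := length_ge f hhw (Fin.cons a w0) hw0 a
      rw [cnt_cons, if_pos rfl] at h3
      have h40 : cnt a w0 ≤ 1 := by
        by_contra h0
        have h6 : (p + 3) * 3 ≤ ((a : ℕ) + 1) * (1 + cnt a w0) :=
          Nat.mul_le_mul (by omega) (by omega)
        omega
      have h4 : cnt a w0 = 0 := by
        by_contra h0
        have h5 : cnt a w0 = 1 := by omega
        have h7 : (a : ℕ) = p + 1 := by omega
        have hμ2 : cnt a (Fin.cons a w0 : Fin (m + 2) → Fin (d + 1)) = 2 := by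
          rw [cnt_cons, if_pos rfl, h5]
        refine hpar a h7 f hfW (Fin.cons a w0) hw0 hhw ?_
        intro w hw
        have hwt := cmp_supp _ _ _ hw
        refine ⟨?_, ?_⟩
        · intro y
          by_contra hlt
          rw [not_le] at hlt
          set g := act (d + 1) (m + 2) (swap 0 y) (cmp (Fin.cons a w0) f) with hg
          have hgw : g (w ∘ (swap 0 y)) ≠ 0 := by
            rw [hg, act_apply]
            have e2 : (w ∘ (swap 0 y)) ∘ (swap 0 y) = w := by
              funext z
              simp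
            rw [e2]
            exact hw
          have hgne : g ≠ 0 := fun h => hgw (congrFun h _)
          have hghw : ∀ x z : Fin (d + 1), x < z → rep x z g = 0 := by
            intro x z hxz
            rw [hg, ← act_rep, cmp_hw _ _ hhw x z hxz, map_zero]
          have hgJ : JM d (m + 1) g = (-(p : ℚ)) • g :=
            JM_cmp _ _ _ _ (hJ _ (hσ _ _ hfW))
          obtain ⟨b, hmaxb, ⟨w2, hw2⟩, hcntb, -⟩ := jm_lemma' g hgne hghw _ hgJ
          have e3 : w y ≤ b := by
            by_contra hb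
            rw [not_le] at hb
            apply hgw
            have e4 : (w ∘ (swap 0 y)) = (Fin.cons (w y) (Fin.tail (w ∘ (swap 0 y))) :
                Fin (m + 2) → Fin (d + 1)) := by
              rw [← Fin.cons_self_tail (w ∘ (swap 0 y))]
              congr 1
            rw [e4]
            exact hmaxb _ hb _
          have e5 := hcntb w2 hw2
          have e6 : (b : ℕ) = p + cnt b w2 := by
            have : ((b : ℕ) : ℚ) = ((p + cnt b w2 : ℕ) : ℚ) := by push_cast; linarith
            exact_mod_cast this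
          have e7 : cnt b (Fin.cons b w2 : Fin (m + 2) → Fin (d + 1)) =
              cnt b (Fin.cons a w0 : Fin (m + 2) → Fin (d + 1)) := by
            rw [← cnt_comp b _ (swap 0 y)]
            exact cmp_supp _ _ _ hw2 b
          rw [cnt_cons, if_pos rfl] at e7
          have hab : a < b := lt_of_lt_of_le hlt e3
          have e8 := weight_le (cmp (Fin.cons a w0) f) (fun h => hw (congrFun h w))
            (fun z => cnt z (Fin.cons a w0 : Fin (m + 2) → Fin (d + 1)))
            (fun w' hw' => cmp_supp _ _ _ hw') a b hab (cmp_hw _ _ hhw a b hab)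
          rw [hμ2, ← e7] at e8
          have e9 : (a : ℕ) < b := hab
          omega
        · have e2 := hwt a
          rw [hμ2] at e2
          have e3 : 0 < cnt a w := by omega
          unfold cnt at e3
          obtain ⟨y, hy⟩ := Finset.card_pos.1 e3
          exact ⟨y, (Finset.mem_filter.1 hy).2⟩
      have hy : (fun w => f (Fin.cons a w)) ≠ 0 := fun h => hw0 (congrFun h w0)
      obtain ⟨a', -, ⟨w1, hw1⟩, hcnt', -⟩ :=
        jm_lemma' _ hy hyhw _ (jm_next m _ f hfs hJf a)
      have h5 := hcnt' w1 hw1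
      have h6 : (a' : ℕ) = p + 1 + cnt a' w1 := by
        have : ((a' : ℕ) : ℚ) = ((p + 1 + cnt a' w1 : ℕ) : ℚ) := by push_cast; linarith
        exact_mod_cast this
      have h7 : a < a' := by
        rw [Fin.lt_def]
        omega
      have h8 := hmax a' h7 (Fin.cons a w1)
      have h9 : f (Fin.cons a (Fin.cons a' w1 : Fin (m + 1) → Fin (d + 1))) =
          f (Fin.cons a' (Fin.cons a w1 : Fin (m + 1) → Fin (d + 1))) := by
        have e1 := congrFun hfs (Fin.cons a (Fin.cons a' w1 : Fin (m + 1) → Fin (d + 1)))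
        rw [← e1]
        change f ((Fin.cons a (Fin.cons a' w1 : Fin (m + 1) → Fin (d + 1)) :
          Fin (m + 2) → Fin (d + 1)) ∘ (swap 0 1)) = _
        rw [cons_cons_comp_swap]
      exact hw1 (h9.trans h8)
    have hs : ∀ f ∈ W, A s f = - f := by
      intro f hf
      have h1 : f + A s f ∈ Ws := by
        rw [hmem]
        refine ⟨W.add_mem hf (hσ s f hf), ?_⟩
        rw [map_add, hAA]
        abel
      rw [hWs, Submodule.mem_bot] at h1
      exact (neg_eq_of_add_eq_zero_right h1).symm
    have hconj : ∀ (x y : Fin (m + 2)), x ≠ y → ∀ f ∈ W, A (swap x y) f = - f := by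
      intro x y hxy f hf
      have h01 : (0 : Fin (m + 2)) ≠ 1 := Fin.zero_ne_one
      obtain ⟨g, hg⟩ := isConj_iff.1 (Equiv.Perm.isConj_swap h01 hxy)
      rw [← hg, map_mul, map_mul, Module.End.mul_apply, Module.End.mul_apply]
      change A g (A s (A g⁻¹ f)) = _
      rw [hs _ (hσ g⁻¹ f hf), map_neg, ← Module.End.mul_apply, ← map_mul, mul_inv_cancel, map_one,
        Module.End.one_apply]
    have hsign : ∀ σ, ∀ f ∈ W, A σ f = ((Equiv.Perm.sign σ : ℤ) : ℚ) • f := by
      intro σ
      refine Equiv.Perm.swap_induction_on σ ?_ ?_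
      · intro f _
        simp
      · intro g x y hxy ih f hf
        rw [map_mul, Module.End.mul_apply, ih f hf, map_smul, hconj x y hxy f hf]
        rw [Equiv.Perm.sign_mul, Equiv.Perm.sign_swap hxy]
        simp
    refine ⟨?_, hsign⟩
    have h1 := hJ f0 hf0
    have h2 : JM d (m + 1) f0 = (-((m : ℚ) + 1)) • f0 := by
      rw [JM, Finset.sum_congr rfl (fun i _ => hconj 0 i.succ (Fin.succ_ne_zero i).symm f0 hf0),
        Finset.sum_const, Finset.card_univ, Fintype.card_fin, ← Nat.cast_smul_eq_nsmul ℚ]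
      push_cast
      rw [smul_neg, neg_smul]
    have h3 : (-((m : ℚ) + 1)) • f0 = (-(p : ℚ)) • f0 := h2.symm.trans h1
    have h4 : (-((m : ℚ) + 1)) = (-(p : ℚ)) := by
      by_contra hne
      have h5 : ((-((m : ℚ) + 1)) - (-(p : ℚ))) • f0 = 0 := by rw [sub_smul, h3, sub_self]
      rcases smul_eq_zero.1 h5 with h | h
      · exact hne (sub_eq_zero.1 h)
      · exact hf00 h
    have h6 : ((m + 1 : ℕ) : ℚ) = (p : ℚ) := by push_cast; linarith
    exact_mod_cast h6

/-- A left ideal of functions on permutations of at most `3 p + 8` letters, antisymmetric in the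
pairs and symmetric under permutations of the pairs, on which the sums of the
transpositions `(x i)` are the scalar `-p`, `p` odd, consists of multiples of the sign. -/
theorem left_ideal' (hPAR : S_PAR) {k : ℕ} (N p : ℕ) (hN : N ≤ 3 * p + 8) (hN0 : 0 < N) (hp : Odd p)
    (e1 : Fin k × Fin 2 ≃ Fin N)
    (I : Submodule ℚ (Perm (Fin N) → ℚ)) (hI : I ≠ ⊥)
    (hL : ∀ u ∈ I, ∀ g, (fun σ => u (g * σ)) ∈ I)
    (hflp : ∀ u ∈ I, ∀ i σ, u (σ * flp e1 i) = - u σ)
    (hblk : ∀ u ∈ I, ∀ τ σ, u (σ * blk e1 τ) = u σ)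
    (hJ : ∀ u ∈ I, ∀ (x : Fin N) (σ : Perm (Fin N)),
      ∑ i ∈ Finset.univ.erase x, u (swap x i * σ) = (-(p : ℚ)) * u σ) :
    N = p + 1 ∧ ∀ u ∈ I, ∀ g σ, u (g * σ) = ((Equiv.Perm.sign g : ℤ) : ℚ) * u σ := by
  classical
  obtain ⟨n, rfl⟩ : ∃ n, N = n + 1 := ⟨N - 1, by omega⟩
  obtain ⟨u, hu, hune⟩ := Submodule.exists_mem_ne_zero_of_ne_bot hI
  obtain ⟨f, hf⟩ : ∃ f, op (n + 1) (n + 1) u f ≠ 0 := by
    by_contra h
    push Not at h
    exact hune (op_faithful u (LinearMap.ext h))
  set W : Submodule ℚ ((Fin (n + 1) → Fin (n + 1)) → ℚ) :=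
    Submodule.span ℚ {x | ∃ u ∈ I, ∃ f, op (n + 1) (n + 1) u f = x} with hW
  have hmem : ∀ u ∈ I, ∀ f, op (n + 1) (n + 1) u f ∈ W := fun u hu f =>
    Submodule.subset_span ⟨u, hu, f, rfl⟩
  have hstab : ∀ (T : Module.End ℚ ((Fin (n + 1) → Fin (n + 1)) → ℚ)),
      (∀ u ∈ I, ∀ f, T (op (n + 1) (n + 1) u f) ∈ W) → ∀ x ∈ W, T x ∈ W := by
    intro T hT x hx
    have h1 : W ≤ W.comap T := by
      rw [hW, Submodule.span_le]
      rintro _ ⟨u, hu, f, rfl⟩
      exact hT u hu f
    exact h1 hx
  have hcore : ∀ u ∈ I, ∀ f, ∑ i : Fin n, act (n + 1) (n + 1) (swap 0 i.succ)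
      (op (n + 1) (n + 1) u f) = (-(p : ℚ)) • op (n + 1) (n + 1) u f := by
    intro u hu f
    have e1 : ∀ i : Fin n, act (n + 1) (n + 1) (swap 0 i.succ) (op (n + 1) (n + 1) u f) =
        ∑ σ, u (swap 0 i.succ * σ) • act (n + 1) (n + 1) σ f := by
      intro i
      rw [act_op, op_apply, Equiv.swap_inv]
    rw [Finset.sum_congr rfl fun i _ => e1 i, Finset.sum_comm, op_apply, Finset.smul_sum]
    refine Finset.sum_congr rfl fun σ _ => ?_
    rw [← Finset.sum_smul, smul_smul]
    congr 1
    have e2 := hJ u hu 0 σ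
    rw [← e2]
    have e3 := Fin.sum_univ_succ (fun i : Fin (n + 1) => u (swap 0 i * σ))
    have e4 := Finset.add_sum_erase Finset.univ (fun i : Fin (n + 1) => u (swap 0 i * σ))
      (Finset.mem_univ 0)
    have e5 := e4.trans e3
    exact (add_left_cancel e5).symm
  obtain ⟨hNp, hs⟩ := big_HW p n n W
    (fun h => hf (by
      have := hmem u hu f
      rw [h] at this
      exact (Submodule.mem_bot ℚ).1 this))
    (fun σ => hstab (act (n + 1) (n + 1) σ) (fun u hu f => by
      rw [act_op]
      exact hmem _ (hL u hu _) f))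
    (fun a b => hstab (rep a b) (fun u hu f => by
      have h1 : rep a b (op (n + 1) (n + 1) u f) = op (n + 1) (n + 1) u (rep a b f) := by
        rw [op_apply, op_apply, map_sum]
        refine Finset.sum_congr rfl fun σ _ => ?_
        rw [map_smul, act_rep]
      rw [h1]
      exact hmem _ hu _))
    (by
      intro x hx
      have h1 : W ≤ LinearMap.ker (∑ i : Fin n, act (n + 1) (n + 1) (swap 0 i.succ) +
          (p : ℚ) • LinearMap.id) := by
        rw [hW, Submodule.span_le]
        rintro _ ⟨u, hu, f, rfl⟩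
        have h2 := hcore u hu f
        show _ = _
        simp only [LinearMap.add_apply, LinearMap.sum_apply, LinearMap.smul_apply,
          LinearMap.id_apply]
        rw [h2, neg_smul, neg_add_cancel]
      have h3 := h1 hx
      rw [LinearMap.mem_ker] at h3
      simp only [LinearMap.add_apply, LinearMap.sum_apply, LinearMap.smul_apply,
        LinearMap.id_apply] at h3
      rw [neg_smul, eq_neg_iff_add_eq_zero]
      exact h3) hN
    (by
      intro a ha f hfW ω hω hhw hsupp
      set f1 := cmp ω f with hf1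
      -- the adjoint operators
      let G : (Perm (Fin (n + 1)) → ℚ) → ((Fin (n + 1) → Fin (n + 1)) → ℚ) := fun u =>
        ∑ σ : Perm (Fin (n + 1)), u σ • act (n + 1) (n + 1) σ⁻¹ f1
      have hG : ∀ (u : Perm (Fin (n + 1)) → ℚ) (w : Fin (n + 1) → Fin (n + 1)),
          G u w = ∑ σ : Perm (Fin (n + 1)), u σ * f1 (w ∘ (σ⁻¹ : Perm (Fin (n + 1)))) := by
        intro u w
        simp only [G, Finset.sum_apply, Pi.smul_apply, act_apply, smul_eq_mul]
      have hadj : ∀ (u : Perm (Fin (n + 1)) → ℚ) (g : (Fin (n + 1) → Fin (n + 1)) → ℚ),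
          ∑ w, f1 w * op (n + 1) (n + 1) u g w = ∑ w, G u w * g w := by
        intro u g
        have e1 : ∀ w, f1 w * op (n + 1) (n + 1) u g w =
            ∑ σ : Perm (Fin (n + 1)), u σ * (f1 w * g (w ∘ σ)) := by
          intro w
          rw [op_apply, Finset.sum_apply, Finset.mul_sum]
          refine Finset.sum_congr rfl fun σ _ => ?_
          rw [Pi.smul_apply, act_apply, smul_eq_mul]
          ring
        have e2 : ∀ w, G u w * g w =
            ∑ σ : Perm (Fin (n + 1)), u σ * (f1 (w ∘ (σ⁻¹ : Perm (Fin (n + 1)))) * g w) := by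
          intro w
          rw [hG, Finset.sum_mul]
          exact Finset.sum_congr rfl fun σ _ => by ring
        rw [Finset.sum_congr rfl fun w _ => e1 w, Finset.sum_congr rfl fun w _ => e2 w,
          Finset.sum_comm, Finset.sum_comm (s := Finset.univ (α := Fin (n + 1) → Fin (n + 1)))]
        refine Finset.sum_congr rfl fun σ _ => ?_
        rw [← Finset.mul_sum, ← Finset.mul_sum]
        congr 1
        refine Fintype.sum_equiv (Equiv.arrowCongr σ.symm (Equiv.refl (Fin (n + 1)))) _ _
          fun w => ?_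
        have e3 : (Equiv.arrowCongr σ.symm (Equiv.refl (Fin (n + 1)))) w = w ∘ σ := by
          funext i
          simp [Equiv.arrowCongr]
        rw [e3]
        congr 2
        funext i
        simp
      -- one of them is not zero
      obtain ⟨v, hv, hvne⟩ : ∃ v ∈ I, G v ≠ 0 := by
        by_contra hall
        push Not at hall
        have h1 : ∀ x ∈ W, ∑ w, f1 w * x w = 0 := by
          intro x hx
          have h2 : W ≤ LinearMap.ker (∑ w : Fin (n + 1) → Fin (n + 1),
              f1 w • (LinearMap.proj w : ((Fin (n + 1) → Fin (n + 1)) → ℚ) →ₗ[ℚ] ℚ)) := by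
            rw [hW, Submodule.span_le]
            rintro _ ⟨v, hv, g, rfl⟩
            show _ = _
            simp only [LinearMap.sum_apply, LinearMap.smul_apply, LinearMap.proj_apply,
              smul_eq_mul]
            rw [hadj, hall v hv]
            simp
          have h3 := h2 hx
          rw [LinearMap.mem_ker] at h3
          simpa only [LinearMap.sum_apply, LinearMap.smul_apply, LinearMap.proj_apply,
            smul_eq_mul] using h3
        have h4 := h1 f hfW
        have h5 : ∀ w, f1 w * f w = f1 w * f1 w := by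
          intro w
          rw [hf1, cmp_apply]
          split_ifs <;> simp
        rw [Finset.sum_congr rfl fun w _ => h5 w] at h4
        have h6 : f1 ω ≠ 0 := by
          rw [hf1, cmp_apply, if_pos (fun _ => rfl)]
          exact hω
        have h7 := (Finset.sum_eq_zero_iff_of_nonneg (fun w _ => mul_self_nonneg (f1 w))).1 h4 ω
          (Finset.mem_univ _)
        exact h6 (mul_self_eq_zero.1 h7)
      have hGsupp : ∀ w, G v w ≠ 0 → ∃ σ : Perm (Fin (n + 1)),
          f1 (w ∘ (σ⁻¹ : Perm (Fin (n + 1)))) ≠ 0 := by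
        intro w hw
        rw [hG] at hw
        obtain ⟨σ, -, hσ⟩ := Finset.exists_ne_zero_of_sum_ne_zero hw
        exact ⟨σ, right_ne_zero_of_mul hσ⟩
      have hshift : ∀ (h : Perm (Fin (n + 1))) w, G v (w ∘ h) =
          ∑ σ : Perm (Fin (n + 1)), v (σ * h) * f1 (w ∘ (σ⁻¹ : Perm (Fin (n + 1)))) := by
        intro h w
        rw [hG]
        refine (Fintype.sum_equiv (Equiv.mulRight h) _ _ fun σ => ?_).symm
        simp only [Equiv.coe_mulRight]
        congr 2
        funext i
        simp
      have hap : Even (a : ℕ) := by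
        rw [ha]
        exact hp.add_one
      refine hvne (par_words e1 hPAR a hap (G v) ?_ ?_ ?_ ?_ ?_)
      · intro i w
        rw [hshift, hG, ← Finset.sum_neg_distrib]
        exact Finset.sum_congr rfl fun σ _ => by rw [hflp v hv]; ring
      · intro τ w
        rw [hshift, hG]
        exact Finset.sum_congr rfl fun σ _ => by rw [hblk v hv]
      · intro w hw y
        obtain ⟨σ, hσ⟩ := hGsupp w hw
        have := (hsupp _ hσ).1 (σ y)
        simpa using this
      · intro w hw
        obtain ⟨σ, hσ⟩ := hGsupp w hw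
        obtain ⟨y, hy⟩ := (hsupp _ hσ).2
        exact ⟨σ⁻¹ y, hy⟩
      · intro x hx
        simp only [G]
        rw [map_sum]
        refine Finset.sum_eq_zero fun σ _ => ?_
        rw [map_smul, ← act_rep, hf1, cmp_hw ω f hhw x a hx, map_zero, smul_zero])
  refine ⟨by omega, fun u hu g σ => ?_⟩
  have h1 : op (n + 1) (n + 1) (fun τ => u (g * τ) - ((Equiv.Perm.sign g : ℤ) : ℚ) * u τ) = 0 := by
    apply LinearMap.ext
    intro f
    have h2 := hs g⁻¹ _ (hmem u hu f)
    rw [act_op, op_apply, op_apply, inv_inv, Equiv.Perm.sign_inv, Finset.smul_sum] at h2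
    rw [op_apply]
    simp only [sub_smul, Finset.sum_sub_distrib, mul_smul]
    rw [h2, sub_self]
    rfl
  have h3 := congrFun (op_faithful _ h1) σ
  exact sub_eq_zero.1 h3

end

end Pool.Agent.K3h8.GG
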