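import Pool.Agent.K3h8.GG.MatE

/-!
# One relation between matchings: the sharp bound
-/

set_option autoImplicit false

open Finset

namespace Pool.Agent.K3h8.GG

open Pool.Agent.K3h46.HP Pool.Agent.K3h33.HP
open Equiv (Perm swap)

/-- **One relation between at most `3 n + 5` pairs.** -/
theorem any_relation' (hPAR : S_PAR) (X : Powers) {w : X.A 2} {n : ℕ} (hw : X.IsProjector w (-(2 * n : ℕ))) {k : ℕ}
    (hk : k ≤ 3 * n + 5) (c : (Fin k × Fin 2 ≃ Fin (k * 2)) → ℚ) (hc : OfPairs c) (hc0 : c ≠ 0)
    (h : X.comb w k c = 0) : X.selfPower w (n + 1) = 0 := by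
  classical
  have hex : ∃ k, ∃ c : (Fin k × Fin 2 ≃ Fin (k * 2)) → ℚ, OfPairs c ∧ c ≠ 0 ∧
      X.comb w k c = 0 := ⟨k, c, hc, hc0, h⟩
  obtain ⟨k', hkk, ⟨c', hc', hc0', h'⟩, hmin⟩ : ∃ k', k' ≤ k ∧
      (∃ c : (Fin k' × Fin 2 ≃ Fin (k' * 2)) → ℚ, OfPairs c ∧ c ≠ 0 ∧ X.comb w k' c = 0) ∧
      ∀ m < k', ¬ ∃ c : (Fin m × Fin 2 ≃ Fin (m * 2)) → ℚ, OfPairs c ∧ c ≠ 0 ∧
        X.comb w m c = 0 :=
    ⟨Nat.find hex, Nat.find_min' hex ⟨c, hc, hc0, h⟩, Nat.find_spec hex,
      fun m hm => Nat.find_min hex hm⟩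
  have hk' : k' ≤ 3 * n + 5 := hkk.trans hk
  clear hkk hc0 h hc c hk hex
  rcases k' with _ | m
  · -- degenerate case
    apply eq_zero_of_zero
    haveI : Subsingleton (Fin 0 × Fin 2 ≃ Fin (0 * 2)) := ⟨fun a b => by ext x; exact x.1.elim0⟩
    haveI : Inhabited (Fin 0 × Fin 2 ≃ Fin (0 * 2)) := ⟨finProdFinEquiv⟩
    haveI : Unique (Fin 0 × Fin 2 ≃ Fin (0 * 2)) := ⟨inferInstance, fun a => Subsingleton.elim _ _⟩
    unfold Powers.comb at h'
    rw [Fintype.sum_unique] at h'
    have h1 : ∀ a, c' a ≠ 0 := by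
      intro a h2
      apply hc0'
      funext e
      rw [Subsingleton.elim e a, h2]
      rfl
    have h2 := (smul_eq_zero.1 h').resolve_left (h1 _)
    simpa using h2
  · have hmin' : ∀ c : (Fin m × Fin 2 ≃ Fin (m * 2)) → ℚ, OfPairs c → X.comb w m c = 0 →
        c = 0 := by
      intro c hc h
      by_contra hne
      exact hmin m (Nat.lt_succ_self m) ⟨c, hc, hne, h⟩
    set e1 : Fin (m + 1) × Fin 2 ≃ Fin ((m + 1) * 2) := ext' finProdFinEquiv with he1
    -- the ideal, twisted by the sign
    let I : Submodule ℚ (Perm (Fin ((m + 1) * 2)) → ℚ) :=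
      { carrier := {v | OfPairs (fun e : Fin (m + 1) × Fin 2 ≃ Fin ((m + 1) * 2) =>
            ((Equiv.Perm.sign (e1.symm.trans e) : ℤ) : ℚ) * v (e1.symm.trans e)) ∧
          X.comb w (m + 1) (fun e : Fin (m + 1) × Fin 2 ≃ Fin ((m + 1) * 2) =>
            ((Equiv.Perm.sign (e1.symm.trans e) : ℤ) : ℚ) * v (e1.symm.trans e)) = 0}
        zero_mem' := by
          constructor
          · intro e e' _
            simp
          · simp [Powers.comb]
        add_mem' := by
          rintro u v ⟨h1, h2⟩ ⟨h3, h4⟩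
          constructor
          · intro e e' he
            have a1 := h1 e e' he
            have a2 := h3 e e' he
            simp only at a1 a2
            simp only [Pi.add_apply, mul_add]
            rw [a1, a2]
          · unfold Powers.comb at h2 h4 ⊢
            simp only [Pi.add_apply, mul_add, add_smul, Finset.sum_add_distrib]
            rw [h2, h4, add_zero]
        smul_mem' := by
          rintro a v ⟨h1, h2⟩
          constructor
          · intro e e' he
            have a1 := h1 e e' he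
            simp only at a1
            simp only [Pi.smul_apply, smul_eq_mul, mul_left_comm _ a]
            rw [a1]
          · unfold Powers.comb at h2 ⊢
            simp only [Pi.smul_apply, smul_eq_mul, mul_left_comm _ a, mul_smul a]
            rw [← Finset.smul_sum, h2, smul_zero] }
    have hmemI : ∀ v, v ∈ I ↔ OfPairs (fun e : Fin (m + 1) × Fin 2 ≃ Fin ((m + 1) * 2) =>
            ((Equiv.Perm.sign (e1.symm.trans e) : ℤ) : ℚ) * v (e1.symm.trans e)) ∧
          X.comb w (m + 1) (fun e : Fin (m + 1) × Fin 2 ≃ Fin ((m + 1) * 2) =>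
            ((Equiv.Perm.sign (e1.symm.trans e) : ℤ) : ℚ) * v (e1.symm.trans e)) = 0 :=
      fun v => Iff.rfl
    have sgn2 : ∀ σ : Perm (Fin ((m + 1) * 2)), ((Equiv.Perm.sign σ : ℤ) : ℚ) * ((Equiv.Perm.sign σ : ℤ) : ℚ) = 1 := by
      intro σ
      rcases Int.units_eq_one_or (Equiv.Perm.sign σ) with h | h <;> rw [h] <;> simp
    have hback : ∀ σ : Perm (Fin ((m + 1) * 2)), e1.symm.trans (e1.trans σ) = σ := by
      intro σ
      ext z
      simp
    -- the element of the ideal
    set v0 : Perm (Fin ((m + 1) * 2)) → ℚ := fun σ => ((Equiv.Perm.sign σ : ℤ) : ℚ) * c' (e1.trans σ) with hv0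
    have hforth : ∀ e : Fin (m + 1) × Fin 2 ≃ Fin ((m + 1) * 2), e1.trans (e1.symm.trans e) = e := by
      intro e
      ext z
      simp
    have hcv : (fun e : Fin (m + 1) × Fin 2 ≃ Fin ((m + 1) * 2) =>
            ((Equiv.Perm.sign (e1.symm.trans e) : ℤ) : ℚ) * v0 (e1.symm.trans e)) = c' := by
      funext e
      simp only [hv0]
      rw [hforth, ← mul_assoc, sgn2, one_mul]
    have hv0I : v0 ∈ I := by
      rw [hmemI, hcv]
      exact ⟨hc', h'⟩
    have hv0ne : v0 ≠ 0 := by
      intro h0
      apply hc0'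
      rw [← hcv, h0]
      funext e
      simp
    have hIne : I ≠ ⊥ := by
      intro hb
      rw [hb, Submodule.mem_bot] at hv0I
      exact hv0ne hv0I
    have hI1 : ∀ v, v ∈ I → ∀ (h : Perm (Fin ((m + 1) * 2))) (q : Perm (Fin (m + 1) × Fin 2)),
        h = (e1.symm.trans q).trans e1 →
        (∀ e : Fin (m + 1) × Fin 2 ≃ Fin ((m + 1) * 2), pairs (q.trans e) = pairs e) →
        ∀ σ, v (σ * h) = ((Equiv.Perm.sign q : ℤ) : ℚ) * v σ := by
      intro v hv h q hh hq σ
      rw [hmemI] at hv
      have h1 := hv.1 (e1.trans (σ * h)) (e1.trans σ) (by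
        have e2 : e1.trans (σ * h) = q.trans (e1.trans σ) := by
          rw [hh]
          ext z
          simp
        rw [e2, hq])
      simp only [hback] at h1
      have h2 : Equiv.Perm.sign h = Equiv.Perm.sign q := by
        rw [hh]
        exact Equiv.Perm.sign_symm_trans_trans q e1
      rw [Equiv.Perm.sign_mul, h2] at h1
      push_cast at h1
      have h3 : ((Equiv.Perm.sign q : ℤ) : ℚ) * ((Equiv.Perm.sign q : ℤ) : ℚ) = 1 := by
        rcases Int.units_eq_one_or (Equiv.Perm.sign q) with h | h <;> rw [h] <;> simp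
      linear_combination (((Equiv.Perm.sign σ : ℤ) : ℚ) * ((Equiv.Perm.sign q : ℤ) : ℚ)) * h1 -
        (((Equiv.Perm.sign q : ℤ) : ℚ) * ((Equiv.Perm.sign q : ℤ) : ℚ) * v (σ * h)) * sgn2 σ -
        v (σ * h) * h3 + ((Equiv.Perm.sign q : ℤ) : ℚ) * v σ * sgn2 σ
    obtain ⟨hNp, hsign⟩ := left_ideal' hPAR ((m + 1) * 2) (2 * n + 1) (by omega) (by omega)
      ⟨n, rfl⟩ e1 I hIne
      (by
        intro v hv g
        rw [hmemI] at hv ⊢
        obtain ⟨h1, h2⟩ := hv
        have e2 : (fun e : Fin (m + 1) × Fin 2 ≃ Fin ((m + 1) * 2) =>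
            ((Equiv.Perm.sign (e1.symm.trans e) : ℤ) : ℚ) * v (g * (e1.symm.trans e))) =
            ((Equiv.Perm.sign g : ℤ) : ℚ) • fun e : Fin (m + 1) × Fin 2 ≃ Fin ((m + 1) * 2) =>
              ((Equiv.Perm.sign (e1.symm.trans (e.trans g)) : ℤ) : ℚ) *
                v (e1.symm.trans (e.trans g)) := by
          funext e
          rw [Pi.smul_apply, smul_eq_mul]
          have e3 : e1.symm.trans (e.trans g) = g * (e1.symm.trans e) := rfl
          rw [e3, Equiv.Perm.sign_mul]
          push_cast
          linear_combination (-(((Equiv.Perm.sign (e1.symm.trans e) : ℤ) : ℚ) *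
            v (g * (e1.symm.trans e)))) * sgn2 g
        have e4 := ofPairs_trans h1 g
        have e5 := comb_perm X h2 g
        constructor
        · intro a b hab
          have := e4 a b hab
          have e6 := congrFun e2 a
          have e7 := congrFun e2 b
          simp only [Pi.smul_apply, smul_eq_mul] at e6 e7
          change ((Equiv.Perm.sign (e1.symm.trans a) : ℤ) : ℚ) * v (g * (e1.symm.trans a)) =
            ((Equiv.Perm.sign (e1.symm.trans b) : ℤ) : ℚ) * v (g * (e1.symm.trans b))
          rw [e6, e7]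
          exact congrArg (fun z => ((Equiv.Perm.sign g : ℤ) : ℚ) * z) this
        · change X.comb w (m + 1) (fun e : Fin (m + 1) × Fin 2 ≃ Fin ((m + 1) * 2) =>
            ((Equiv.Perm.sign (e1.symm.trans e) : ℤ) : ℚ) * v (g * (e1.symm.trans e))) = 0
          rw [e2]
          unfold Powers.comb at e5 ⊢
          simp only [Pi.smul_apply, smul_assoc]
          rw [← Finset.smul_sum, e5, smul_zero])
      (by
        intro v hv i σ
        rw [hI1 v hv (flp e1 i) (swap (i, (0 : Fin 2)) (i, 1)) rfl (fun e => pairs_flip e i),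
          Equiv.Perm.sign_swap (by
            intro h
            have h9 : (0 : Fin 2) = 1 := congrArg Prod.snd h
            exact absurd h9 (by decide))]
        simp)
      (by
        intro v hv τ σ
        rw [hI1 v hv (blk e1 τ) (Equiv.prodCongr τ (Equiv.refl (Fin 2))) rfl
          (fun e => pairs_prodCongr e τ 1)]
        have h8 : Equiv.Perm.sign (Equiv.prodCongr τ (Equiv.refl (Fin 2)) :
            Perm (Fin (m + 1) × Fin 2)) = 1 := by
          have h9 : (Equiv.prodCongr τ (Equiv.refl (Fin 2)) : Perm (Fin (m + 1) × Fin 2)) =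
              Equiv.prodCongrLeft (fun _ => τ) := rfl
          rw [h9, Equiv.Perm.sign_prodCongrLeft]
          simp
        rw [h8]
        simp)
      (by
        intro v hv x σ
        rw [hmemI] at hv
        obtain ⟨h1, h2⟩ := hv
        have h3 := sum_swap X hw hmin' h1 h2 (e1.trans σ) x
        have e3 : ∀ i : Fin ((m + 1) * 2), e1.symm.trans ((e1.trans σ).trans (swap x i)) = swap x i * σ := by
          intro i
          ext z
          simp
        simp only [e3, hback] at h3
        have e4 : ∀ i ∈ univ.erase x, v (swap x i * σ) =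
            (-((Equiv.Perm.sign σ : ℤ) : ℚ)) *
              (((Equiv.Perm.sign (swap x i * σ) : ℤ) : ℚ) * v (swap x i * σ)) := by
          intro i hi
          have hne : x ≠ i := (Finset.ne_of_mem_erase hi).symm
          rw [Equiv.Perm.sign_mul, Equiv.Perm.sign_swap hne]
          push_cast
          linear_combination (-(v (swap x i * σ))) * sgn2 σ
        rw [Finset.sum_congr rfl e4, ← Finset.mul_sum, h3]
        push_cast
        linear_combination (-(2 * (n : ℚ) + 1) * v σ) * sgn2 σ)
    have hmn : m = n := by omega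
    subst hmn
    have hconst : ∀ e, c' e = v0 1 := by
      intro e
      have h1 := congrFun hcv e
      rw [← h1]
      have h2 := hsign v0 hv0I (e1.symm.trans e) 1
      rw [mul_one] at h2
      rw [h2, ← mul_assoc, sgn2, one_mul]
    have hv1 : v0 1 ≠ 0 := by
      intro h0
      apply hc0'
      funext e
      rw [hconst e, h0]
      rfl
    have h9 : X.comb w (m + 1) c' = v0 1 • X.selfPower w (m + 1) := by
      rw [selfPower_eq_comb]
      unfold Powers.comb
      rw [Finset.smul_sum]
      refine Finset.sum_congr rfl fun e _ => ?_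
      rw [hconst e, one_smul]
    rw [h9] at h'
    exact (smul_eq_zero.1 h').resolve_left hv1

end Pool.Agent.K3h8.GG
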