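import Pool.Agent.K3h8.GG.HW
import Pool.Agent.K3h8.GG.Stm2
import Pool.Agent.K3h55.GG.COS
import Pool.Agent.K3h79.GG.COMB

/-!
# Relations between few permutations
-/

set_option autoImplicit false

open Equiv (Perm swap)

namespace Pool.Agent.K3h8.GG

section

variable {n d : ℕ}

/-- The number of places with the letter `a`. -/
def cnt (a : Fin (d + 1)) (w : Fin n → Fin (d + 1)) : ℕ := (Finset.univ.filter fun i => w i = a).card

theorem cnt_cons (a x : Fin (d + 1)) (w : Fin n → Fin (d + 1)) :
    cnt a (Fin.cons x w : Fin (n + 1) → Fin (d + 1)) = (if x = a then 1 else 0) + cnt a w := by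
  classical
  unfold cnt
  rw [Finset.card_filter, Finset.card_filter, Fin.sum_univ_succ]
  simp only [Fin.cons_zero, Fin.cons_succ]

theorem cnt_update (x y z : Fin (d + 1)) (w : Fin n → Fin (d + 1)) (i : Fin n) (hi : w i = x) :
    cnt z (Function.update w i y) + (if x = z then 1 else 0) = cnt z w + (if y = z then 1 else 0) := by
  classical
  unfold cnt
  rw [Finset.card_filter, Finset.card_filter,
    ← Finset.sum_erase_add Finset.univ (fun j => if Function.update w i y j = z then 1 else 0)
      (Finset.mem_univ i),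
    ← Finset.sum_erase_add Finset.univ (fun j => if w j = z then 1 else 0) (Finset.mem_univ i)]
  have h3 : ∑ j ∈ Finset.univ.erase i, (if Function.update w i y j = z then 1 else 0) =
      ∑ j ∈ Finset.univ.erase i, (if w j = z then 1 else 0) := by
    refine Finset.sum_congr rfl fun j hj => ?_
    rw [Function.update_of_ne (Finset.ne_of_mem_erase hj)]
  rw [h3, Function.update_self, hi]
  ring

theorem sum_cnt (w : Fin n → Fin (d + 1)) : ∑ a, cnt a w = n := by
  classical
  unfold cnt
  have := Finset.card_eq_sum_card_fiberwise (f := w) (s := Finset.univ) (t := Finset.univ)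
    (fun _ _ => Finset.mem_coe.2 (Finset.mem_univ _))
  rw [Finset.card_univ, Fintype.card_fin] at this
  exact this.symm

/-- The replacements are adjoint to each other. -/
theorem rep_adj (x y : Fin (d + 1)) (f g : (Fin n → Fin (d + 1)) → ℚ) :
    ∑ w, rep y x f w * g w = ∑ w, f w * rep x y g w := by
  classical
  simp only [rep_apply, Finset.sum_mul, Finset.mul_sum]
  rw [Finset.sum_comm, Finset.sum_comm (s := Finset.univ (α := Fin n → Fin (d + 1)))
    (t := Finset.univ (α := Fin n))]
  refine Finset.sum_congr rfl fun i _ => ?_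
  simp only [ite_mul, zero_mul, mul_ite, mul_zero]
  rw [← Finset.sum_filter, ← Finset.sum_filter]
  refine Finset.sum_nbij' (fun w => Function.update w i x) (fun w => Function.update w i y) ?_ ?_ ?_
    ?_ ?_
  · intro w _
    simp
  · intro w _
    simp
  · intro w hw
    have : w i = y := (Finset.mem_filter.1 hw).2
    simp only [Function.update_idem]
    rw [← this]
    exact Function.update_eq_self i w
  · intro w hw
    have : w i = x := (Finset.mem_filter.1 hw).2
    simp only [Function.update_idem]
    rw [← this]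
    exact Function.update_eq_self i w
  · intro w hw
    have : w i = y := (Finset.mem_filter.1 hw).2
    have h2 : Function.update (Function.update w i x) i y = w := by
      rw [Function.update_idem, ← this]
      exact Function.update_eq_self i w
    rw [h2]

theorem rep_rep (x y : Fin (d + 1)) (hxy : x ≠ y) (f : (Fin n → Fin (d + 1)) → ℚ)
    (w : Fin n → Fin (d + 1)) :
    rep x y (rep y x f) w = (cnt x w : ℚ) * f w +
      ∑ i, ∑ j, if w i = x ∧ w j = y then f (Function.update (Function.update w i y) j x) else 0 := by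
  classical
  rw [rep_apply]
  have h1 : ∀ i, (if w i = x then rep y x f (Function.update w i y) else 0) =
      (if w i = x then f w else 0) +
        ∑ j, if w i = x ∧ w j = y then f (Function.update (Function.update w i y) j x) else 0 := by
    intro i
    by_cases hi : w i = x
    · rw [if_pos hi, if_pos hi, rep_apply]
      rw [← Finset.add_sum_erase Finset.univ _ (Finset.mem_univ i),
        ← Finset.add_sum_erase Finset.univ (fun j => if w i = x ∧ w j = y then
          f (Function.update (Function.update w i y) j x) else 0) (Finset.mem_univ i)]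
      have h2 : ¬ (w i = x ∧ w i = y) := fun h => hxy (h.1.symm.trans h.2)
      rw [if_neg h2, zero_add, Function.update_self, if_pos rfl]
      have h3 : Function.update (Function.update w i y) i x = w := by
        rw [Function.update_idem, ← hi]
        exact Function.update_eq_self i w
      rw [h3]
      congr 1
      refine Finset.sum_congr rfl fun j hj => ?_
      rw [Function.update_of_ne (Finset.ne_of_mem_erase hj)]
      simp only [hi, true_and]
    · rw [if_neg hi, if_neg hi, zero_add]
      symm
      refine Finset.sum_eq_zero fun j _ => ?_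
      rw [if_neg (fun h => hi h.1)]
  rw [Finset.sum_congr rfl fun i _ => h1 i, Finset.sum_add_distrib]
  congr 1
  rw [← Finset.sum_filter, Finset.sum_const, nsmul_eq_mul]
  rfl

theorem rep_comm (x y : Fin (d + 1)) (hxy : x ≠ y) (f : (Fin n → Fin (d + 1)) → ℚ)
    (w : Fin n → Fin (d + 1)) :
    rep x y (rep y x f) w = rep y x (rep x y f) w + ((cnt x w : ℚ) - cnt y w) * f w := by
  classical
  rw [rep_rep x y hxy, rep_rep y x hxy.symm]
  have h1 : ∑ i, ∑ j, (if w i = x ∧ w j = y then
      f (Function.update (Function.update w i y) j x) else 0) =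
      ∑ i, ∑ j, if w i = y ∧ w j = x then
        f (Function.update (Function.update w i x) j y) else 0 := by
    rw [Finset.sum_comm]
    refine Finset.sum_congr rfl fun i _ => Finset.sum_congr rfl fun j _ => ?_
    by_cases h : w j = x ∧ w i = y
    · rw [if_pos h, if_pos h.symm]
      have hij : i ≠ j := by
        rintro rfl
        exact hxy (h.1.symm.trans h.2)
      rw [Function.update_comm hij]
    · rw [if_neg h, if_neg (fun h' => h h'.symm)]
  rw [h1]
  ring

/-- The weight of a highest weight vector is a partition. -/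
theorem weight_le (f : (Fin n → Fin (d + 1)) → ℚ) (hf : f ≠ 0) (μ : Fin (d + 1) → ℕ)
    (hμ : ∀ w, f w ≠ 0 → ∀ z, cnt z w = μ z) (x y : Fin (d + 1)) (hxy : x < y)
    (h : rep x y f = 0) : μ y ≤ μ x := by
  classical
  have h1 : ∑ w, rep y x f w * rep y x f w = ((μ x : ℚ) - μ y) * ∑ w, f w * f w := by
    rw [rep_adj, Finset.mul_sum]
    refine Finset.sum_congr rfl fun w _ => ?_
    rw [rep_comm x y hxy.ne, h, map_zero, Pi.zero_apply, zero_add]
    by_cases hw : f w = 0
    · rw [hw]; ring
    · rw [hμ w hw x, hμ w hw y]; ring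
  have h2 : 0 ≤ ∑ w, rep y x f w * rep y x f w := Finset.sum_nonneg fun w _ => mul_self_nonneg _
  have h3 : 0 < ∑ w, f w * f w := by
    have hne : ∃ w, f w ≠ 0 := by
      by_contra hall
      push Not at hall
      exact hf (funext hall)
    obtain ⟨w, hw⟩ := hne
    exact Finset.sum_pos' (fun w _ => mul_self_nonneg _) ⟨w, Finset.mem_univ _, mul_self_pos.2 hw⟩
  rw [h1] at h2
  have h4 : 0 ≤ (μ x : ℚ) - μ y := by
    by_contra hneg
    push Not at hneg
    nlinarith
  have h5 : (μ y : ℚ) ≤ μ x := by linarith
  exact_mod_cast h5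

/-- A bound for the length of the words in the support of a highest weight vector. -/
theorem length_ge (f : (Fin n → Fin (d + 1)) → ℚ)
    (hhw : ∀ a b : Fin (d + 1), a < b → rep a b f = 0) (w0 : Fin n → Fin (d + 1)) (h0 : f w0 ≠ 0)
    (a : Fin (d + 1)) : ((a : ℕ) + 1) * cnt a w0 ≤ n := by
  classical
  -- the component of the weight of `w0`
  let f1 : (Fin n → Fin (d + 1)) → ℚ := fun w => if (∀ z, cnt z w = cnt z w0) then f w else 0
  have hf1 : f1 ≠ 0 := by
    intro h
    have := congrFun h w0
    simp only [f1] at this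
    rw [if_pos (fun _ => trivial)] at this
    · exact h0 this
  have hμ : ∀ w, f1 w ≠ 0 → ∀ z, cnt z w = cnt z w0 := by
    intro w hw
    by_contra hne
    exact hw (if_neg hne)
  have hhw1 : ∀ x y : Fin (d + 1), x < y → rep x y f1 = 0 := by
    intro x y hxy
    funext w
    rw [rep_apply]
    by_cases hw : ∀ z, cnt z w + (if y = z then 1 else 0) = cnt z w0 + (if x = z then 1 else 0)
    · have h1 := congrFun (hhw x y hxy) w
      rw [rep_apply] at h1
      refine Eq.trans (Finset.sum_congr rfl fun i _ => ?_) h1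
      by_cases hi : w i = x
      · rw [if_pos hi, if_pos hi]
        have : ∀ z, cnt z (Function.update w i y) = cnt z w0 := by
          intro z
          have e1 := cnt_update x y z w i hi
          have e2 := hw z
          omega
        exact if_pos this
      · rw [if_neg hi, if_neg hi]
    · refine Finset.sum_eq_zero fun i _ => ?_
      by_cases hi : w i = x
      · rw [if_pos hi]
        refine if_neg fun h => hw fun z => ?_
        have e1 := cnt_update x y z w i hi
        have e2 := h z
        omega
      · rw [if_neg hi]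
  have key : ∀ x, x ≤ a → cnt a w0 ≤ cnt x w0 := by
    intro x hx
    rcases hx.eq_or_lt with rfl | hlt
    · exact le_rfl
    · exact weight_le f1 hf1 (fun z => cnt z w0) hμ x a hlt (hhw1 x a hlt)
  calc ((a : ℕ) + 1) * cnt a w0 = ∑ _x ∈ Finset.Iic a, cnt a w0 := by
        rw [Finset.sum_const, Fin.card_Iic, smul_eq_mul]
    _ ≤ ∑ x ∈ Finset.Iic a, cnt x w0 :=
        Finset.sum_le_sum fun x hx => key x (Finset.mem_Iic.1 hx)
    _ ≤ ∑ x, cnt x w0 := Finset.sum_le_sum_of_subset (Finset.subset_univ _)
    _ = n := sum_cnt w0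

/-- The lemma on the Jucys-Murphy element, with more information. -/
theorem jm_lemma' (f : (Fin (n + 1) → Fin (d + 1)) → ℚ) (hf : f ≠ 0)
    (hhw : ∀ a b : Fin (d + 1), a < b → rep a b f = 0) (c : ℚ) (hc : JM d n f = c • f) :
    ∃ a : Fin (d + 1), (∀ b, a < b → ∀ w, f (Fin.cons b w) = 0) ∧
      (∃ w, f (Fin.cons a w) ≠ 0) ∧
      (∀ w, f (Fin.cons a w) ≠ 0 → c = cnt a w - (a : ℕ)) ∧
      ∀ x y : Fin (d + 1), x < y → rep x y (fun w => f (Fin.cons a w)) = 0 := by
  classical
  let T : Finset (Fin (d + 1)) :=
    Finset.univ.filter fun a => ∃ w : Fin n → Fin (d + 1), f (Fin.cons a w) ≠ 0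
  have hT : T.Nonempty := by
    by_contra h
    rw [Finset.not_nonempty_iff_eq_empty] at h
    apply hf
    funext w
    by_contra hw
    have : w 0 ∈ T := by
      refine Finset.mem_filter.2 ⟨Finset.mem_univ _, Fin.tail w, ?_⟩
      rw [Fin.cons_self_tail]
      exact hw
    rw [h] at this
    simp at this
  let a := T.max' hT
  have ha : a ∈ T := T.max'_mem hT
  have hmax : ∀ b, a < b → ∀ w, f (Fin.cons b w) = 0 := by
    intro b hb w
    by_contra hw
    have : b ∈ T := Finset.mem_filter.2 ⟨Finset.mem_univ _, w, hw⟩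
    exact absurd (T.le_max' b this) (not_le.2 hb)
  -- the value of `J f` on the words which begin with `a`
  have hJ : ∀ w : Fin n → Fin (d + 1), JM d n f (Fin.cons a w) =
      ((cnt a w : ℚ) - (a : ℕ)) * f (Fin.cons a w) := by
    intro w
    have h1 : JM d n f (Fin.cons a w) =
        ∑ i : Fin n, f (Fin.cons (w i) (Function.update w i a)) := by
      simp only [JM, Finset.sum_apply, act_apply]
      exact Finset.sum_congr rfl fun i _ => by rw [cons_comp_swap]
    have h2 : ∀ i : Fin n, f (Fin.cons (w i) (Function.update w i a)) =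
        ∑ b : Fin (d + 1), if w i = b then f (Fin.cons b (Function.update w i a)) else 0 := by
      intro i
      rw [Finset.sum_ite_eq]
      simp
    rw [h1, Finset.sum_congr rfl (fun i _ => h2 i), Finset.sum_comm]
    have h3 : ∀ b : Fin (d + 1),
        (∑ i : Fin n, if w i = b then f (Fin.cons b (Function.update w i a)) else 0) =
          (if b < a then - f (Fin.cons a w) else 0) + (if b = a then
            (cnt a w : ℚ) * f (Fin.cons a w) else 0) := by
      intro b
      rcases lt_trichotomy b a with hb | hb | hb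
      · rw [if_pos hb, if_neg hb.ne, add_zero]
        have h4 := congrFun (hhw b a hb) (Fin.cons b w)
        rw [rep_cons, if_pos rfl] at h4
        have h5 : (0 : (Fin (n + 1) → Fin (d + 1)) → ℚ) (Fin.cons b w) = 0 := rfl
        rw [h5] at h4
        linarith
      · rw [if_neg (by rw [hb]; exact lt_irrefl _), if_pos hb, zero_add, hb]
        rw [← Finset.sum_filter]
        have h6 : ∀ i ∈ Finset.univ.filter (fun i => w i = a),
            f (Fin.cons a (Function.update w i a)) = f (Fin.cons a w) := by
          intro i hi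
          have : w i = a := (Finset.mem_filter.1 hi).2
          have h7 : Function.update w i a = w := by
            rw [← this]; exact Function.update_eq_self i w
          rw [h7]
        rw [Finset.sum_congr rfl h6, Finset.sum_const, nsmul_eq_mul]
        rfl
      · rw [if_neg (not_lt.2 hb.le), if_neg hb.ne', add_zero]
        refine Finset.sum_eq_zero fun i _ => ?_
        rw [hmax b hb]
        simp
    rw [Finset.sum_congr rfl (fun b _ => h3 b), Finset.sum_add_distrib, Finset.sum_ite_eq',
      if_pos (Finset.mem_univ _), ← Finset.sum_filter, Finset.sum_const, nsmul_eq_mul]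
    have h8 : (Finset.univ.filter fun b : Fin (d + 1) => b < a).card = (a : ℕ) := by
      have : (Finset.univ.filter fun b : Fin (d + 1) => b < a) = Finset.Iio a := by
        ext; simp
      rw [this, Fin.card_Iio]
    rw [h8]
    ring
  refine ⟨a, hmax, (Finset.mem_filter.1 ha).2, ?_, ?_⟩
  · intro w hw
    have h1 := hJ w
    rw [hc] at h1
    have h2 : (c • f) (Fin.cons a w) = c * f (Fin.cons a w) := rfl
    rw [h2] at h1
    exact mul_right_cancel₀ hw h1
  · intro x y hxy
    funext w
    have h1 := congrFun (hhw x y hxy) (Fin.cons a w)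
    rw [rep_cons] at h1
    have h2 : (if a = x then f (Fin.cons y w) else 0) = 0 := by
      split_ifs with h
      · exact hmax y (h ▸ hxy) w
      · rfl
    rw [h2, zero_add] at h1
    rw [rep_apply]
    exact h1

/-- The comparison with the Jucys-Murphy element of the next place. -/
theorem jm_next (m : ℕ) (c : ℚ) (f : (Fin (m + 2) → Fin (d + 1)) → ℚ)
    (hfs : act (d + 1) (m + 2) (swap 0 1) f = f) (hJf : JM d (m + 1) f = c • f) (a : Fin (d + 1)) :
    JM d m (fun w => f (Fin.cons a w)) = (c - 1) • (fun w => f (Fin.cons a w)) := by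
  have e1 : ∑ i : Fin m, act (d + 1) (m + 2) (up (swap 0 i.succ)) f = (c - 1) • f := by
    have e2 : ∀ i : Fin m, act (d + 1) (m + 2) (up (swap 0 i.succ)) f =
        act (d + 1) (m + 2) (swap 0 1) (act (d + 1) (m + 2) (swap 0 i.succ.succ) f) := by
      intro i
      rw [← conj_swap_zero, map_mul, map_mul, Module.End.mul_apply, Module.End.mul_apply, hfs]
    rw [Finset.sum_congr rfl (fun i _ => e2 i), ← map_sum]
    have e3 : JM d (m + 1) f = act (d + 1) (m + 2) (swap 0 1) f +
        ∑ i : Fin m, act (d + 1) (m + 2) (swap 0 i.succ.succ) f := by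
      rw [JM, Fin.sum_univ_succ]
      rfl
    have e4 : ∑ i : Fin m, act (d + 1) (m + 2) (swap 0 i.succ.succ) f = c • f - f := by
      rw [← hJf, e3, hfs]
      abel
    rw [e4, map_sub, map_smul, hfs]
    module
  funext w
  have e5 := congrFun e1 (Fin.cons a w)
  simp only [Finset.sum_apply, Pi.smul_apply] at e5 ⊢
  rw [← e5]
  simp only [JM, Finset.sum_apply]
  refine Finset.sum_congr rfl fun i _ => ?_
  change f (Fin.cons a (w ∘ (swap 0 i.succ))) =
    f ((Fin.cons a w : Fin (m + 2) → Fin (d + 1)) ∘ (up (swap 0 i.succ)))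
  rw [cons_comp_up]

theorem cons_cons_comp_swap {m : ℕ} (a b : Fin (d + 1)) (w : Fin m → Fin (d + 1)) :
    (Fin.cons a (Fin.cons b w : Fin (m + 1) → Fin (d + 1)) : Fin (m + 2) → Fin (d + 1)) ∘
      (swap 0 1) = Fin.cons b (Fin.cons a w : Fin (m + 1) → Fin (d + 1)) := by
  have h := cons_comp_swap (n := m + 1) a (Fin.cons b w : Fin (m + 1) → Fin (d + 1)) 0
  have h1 : (0 : Fin (m + 1)).succ = (1 : Fin (m + 2)) := rfl
  rw [h1] at h
  rw [h, Fin.cons_zero, Fin.update_cons_zero]

/-- A space of functions on words of length at most `2 p + 3` on which `∑ (0 i)` is `-p`. -/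
theorem small_HW (p d n : ℕ) (W : Submodule ℚ ((Fin (n + 1) → Fin (d + 1)) → ℚ)) (hW : W ≠ ⊥)
    (hσ : ∀ σ, ∀ f ∈ W, act (d + 1) (n + 1) σ f ∈ W)
    (hE : ∀ a b : Fin (d + 1), ∀ f ∈ W, rep a b f ∈ W)
    (hJ : ∀ f ∈ W, JM d n f = (-(p : ℚ)) • f) (hn : n + 1 ≤ 2 * p + 3) :
    n = p ∧ ∀ σ, ∀ f ∈ W, act (d + 1) (n + 1) σ f = ((Equiv.Perm.sign σ : ℤ) : ℚ) • f := by
  obtain ⟨f0, hf0, hf00⟩ := Submodule.exists_mem_ne_zero_of_ne_bot hW
  rcases n with _ | m
  · -- words of length one
    have h1 := hJ f0 hf0
    simp only [JM, Finset.univ_eq_empty, Finset.sum_empty] at h1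
    have h2 : (-(p : ℚ)) = 0 := by
      rcases smul_eq_zero.1 h1.symm with h | h
      · exact h
      · exact absurd h hf00
    have h3 : p = 0 := by exact_mod_cast neg_eq_zero.1 h2
    refine ⟨h3.symm, fun σ f _ => ?_⟩
    have : σ = 1 := by
      ext x
      have h4 := (σ x).isLt
      have h5 := x.isLt
      rw [Equiv.Perm.one_apply]
      omega
    subst this
    simp
  · let s : Perm (Fin (m + 2)) := swap 0 1
    let A := act (d + 1) (m + 2)
    have hss : s * s = 1 := Equiv.swap_mul_self _ _
    have hAA : ∀ f, A s (A s f) = f := by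
      intro f
      rw [← Module.End.mul_apply, ← map_mul, hss, map_one, Module.End.one_apply]
    -- the vectors of `W` which `s` fixes
    let Ws : Submodule ℚ ((Fin (m + 2) → Fin (d + 1)) → ℚ) := W ⊓ LinearMap.ker (A s - 1)
    have hmem : ∀ f, f ∈ Ws ↔ f ∈ W ∧ A s f = f := by
      intro f
      simp only [Ws, Submodule.mem_inf, LinearMap.mem_ker, LinearMap.sub_apply,
        Module.End.one_apply, sub_eq_zero]
    have hWs : Ws = ⊥ := by
      by_contra hne
      obtain ⟨f, hf, hfne, hhw⟩ := exists_hw Ws hne (by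
        intro a b f hf
        rw [hmem] at hf ⊢
        refine ⟨hE a b f hf.1, ?_⟩
        rw [act_rep, hf.2])
      rw [hmem] at hf
      obtain ⟨hfW, hfs⟩ := hf
      have hJf : JM d (m + 1) f = (-(p : ℚ)) • f := hJ f hfW
      obtain ⟨a, hmax, ⟨w0, hw0⟩, hcnt, hyhw⟩ := jm_lemma' f hfne hhw _ hJf
      have h1 := hcnt w0 hw0
      have h2 : (a : ℕ) = p + cnt a w0 := by
        have : ((a : ℕ) : ℚ) = ((p + cnt a w0 : ℕ) : ℚ) := by push_cast; linarith
        exact_mod_cast this
      have h3 := length_ge f hhw (Fin.cons a w0) hw0 a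
      rw [cnt_cons, if_pos rfl] at h3
      have h4 : cnt a w0 = 0 := by
        by_contra h0
        have h5 : 1 ≤ cnt a w0 := Nat.one_le_iff_ne_zero.2 h0
        have h6 : (p + 2) * 2 ≤ ((a : ℕ) + 1) * (1 + cnt a w0) :=
          Nat.mul_le_mul (by omega) (by omega)
        omega
      have hy : (fun w => f (Fin.cons a w)) ≠ 0 := fun h => hw0 (congrFun h w0)
      obtain ⟨a', -, ⟨w1, hw1⟩, hcnt', -⟩ :=
        jm_lemma' _ hy hyhw _ (jm_next m _ f hfs hJf a)
      have h5 := hcnt' w1 hw1
      have h6 : (a' : ℕ) = p + 1 + cnt a' w1 := by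
        have : ((a' : ℕ) : ℚ) = ((p + 1 + cnt a' w1 : ℕ) : ℚ) := by push_cast; linarith
        exact_mod_cast this
      have h7 : a < a' := by
        rw [Fin.lt_def]
        omega
      have h8 := hmax a' h7 (Fin.cons a w1)
      have h9 : f (Fin.cons a (Fin.cons a' w1 : Fin (m + 1) → Fin (d + 1))) =
          f (Fin.cons a' (Fin.cons a w1 : Fin (m + 1) → Fin (d + 1))) := by
        have e1 := congrFun hfs (Fin.cons a (Fin.cons a' w1 : Fin (m + 1) → Fin (d + 1)))
        rw [← e1]
        change f ((Fin.cons a (Fin.cons a' w1 : Fin (m + 1) → Fin (d + 1)) :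
          Fin (m + 2) → Fin (d + 1)) ∘ (swap 0 1)) = _
        rw [cons_cons_comp_swap]
      exact hw1 (h9.trans h8)
    have hs : ∀ f ∈ W, A s f = - f := by
      intro f hf
      have h1 : f + A s f ∈ Ws := by
        rw [hmem]
        refine ⟨W.add_mem hf (hσ s f hf), ?_⟩
        rw [map_add, hAA]
        abel
      rw [hWs, Submodule.mem_bot] at h1
      exact (neg_eq_of_add_eq_zero_right h1).symm
    have hconj : ∀ (x y : Fin (m + 2)), x ≠ y → ∀ f ∈ W, A (swap x y) f = - f := by
      intro x y hxy f hf
      have h01 : (0 : Fin (m + 2)) ≠ 1 := Fin.zero_ne_one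
      obtain ⟨g, hg⟩ := isConj_iff.1 (Equiv.Perm.isConj_swap h01 hxy)
      rw [← hg, map_mul, map_mul, Module.End.mul_apply, Module.End.mul_apply]
      change A g (A s (A g⁻¹ f)) = _
      rw [hs _ (hσ g⁻¹ f hf), map_neg, ← Module.End.mul_apply, ← map_mul, mul_inv_cancel, map_one,
        Module.End.one_apply]
    have hsign : ∀ σ, ∀ f ∈ W, A σ f = ((Equiv.Perm.sign σ : ℤ) : ℚ) • f := by
      intro σ
      refine Equiv.Perm.swap_induction_on σ ?_ ?_
      · intro f _
        simp
      · intro g x y hxy ih f hf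
        rw [map_mul, Module.End.mul_apply, ih f hf, map_smul, hconj x y hxy f hf]
        rw [Equiv.Perm.sign_mul, Equiv.Perm.sign_swap hxy]
        simp
    refine ⟨?_, hsign⟩
    have h1 := hJ f0 hf0
    have h2 : JM d (m + 1) f0 = (-((m : ℚ) + 1)) • f0 := by
      rw [JM, Finset.sum_congr rfl (fun i _ => hconj 0 i.succ (Fin.succ_ne_zero i).symm f0 hf0),
        Finset.sum_const, Finset.card_univ, Fintype.card_fin, ← Nat.cast_smul_eq_nsmul ℚ]
      push_cast
      rw [smul_neg, neg_smul]
    have h3 : (-((m : ℚ) + 1)) • f0 = (-(p : ℚ)) • f0 := h2.symm.trans h1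
    have h4 : (-((m : ℚ) + 1)) = (-(p : ℚ)) := by
      by_contra hne
      have h5 : ((-((m : ℚ) + 1)) - (-(p : ℚ))) • f0 = 0 := by rw [sub_smul, h3, sub_self]
      rcases smul_eq_zero.1 h5 with h | h
      · exact hne (sub_eq_zero.1 h)
      · exact hf00 h
    have h6 : ((m + 1 : ℕ) : ℚ) = (p : ℚ) := by push_cast; linarith
    exact_mod_cast h6

end

end Pool.Agent.K3h8.GG
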