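import Pool.Agent.K3h46.HP.Comb
import Pool.Agent.K3h46.HP.Main

/-!
# The quotient of the Chow rings of the powers by the smash-nilpotent classes
-/

set_option autoImplicit false

open Finset

namespace Pool.Agent.K3h8.GG

open Pool.Agent.K3h46.HP

variable (X : Powers)

/-- smash-nilpotent, with lists -/
def SN {a : ℕ} (z : X.A a) : Prop :=
  ∃ m : ℕ, ∀ (N : ℕ) (l : List (Fin a → Fin N)), m ≤ l.length →
    (l.map fun f => X.pull f z).prod = 0

theorem sn_of_ext {a : ℕ} {z : X.A a} {m : ℕ} (h : X.extPower z m = 0) : SN X z := by
  refine ⟨m, fun N l hl => ?_⟩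
  have h1 : ((l.take m).map fun f => X.pull f z).prod = 0 := by
    have hlen : (l.take m).length = m := by simp [hl]
    have h2 := congrArg (X.pull (fun x : Fin (m * a) =>
      (l.take m).get (Fin.cast hlen.symm (finProdFinEquiv.symm x).1)
        (finProdFinEquiv.symm x).2)) h
    rw [map_zero] at h2
    unfold Powers.extPower at h2
    rw [map_prod] at h2
    simp_rw [X.pull_comp, Equiv.symm_apply_apply] at h2
    rw [← h2, ← List.prod_ofFn]
    congr 1
    apply List.ext_get
    · simp [hl]
    · intro n h3 h4
      simp
  have h3 : l = l.take m ++ l.drop m := (List.take_append_drop m l).symm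
  rw [h3, List.map_append, List.prod_append, h1, zero_mul]

theorem ext_of_sn {a : ℕ} {z : X.A a} (h : SN X z) : ∃ m, X.extPower z m = 0 := by
  obtain ⟨m, h⟩ := h
  refine ⟨m, ?_⟩
  have h1 := h (m * a) (List.ofFn fun j : Fin m => fun i : Fin a => finProdFinEquiv (j, i))
    (by simp)
  rw [List.map_ofFn, List.prod_ofFn] at h1
  exact h1

theorem sn_zero {a : ℕ} : SN X (0 : X.A a) := by
  refine ⟨1, fun N l hl => ?_⟩
  rcases l with _ | ⟨f, l⟩
  · simp at hl
  · simp

theorem sn_add {a : ℕ} {y z : X.A a} (hy : SN X y) (hz : SN X z) : SN X (y + z) := by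
  obtain ⟨m, hm⟩ := hy
  obtain ⟨n, hn⟩ := hz
  refine ⟨m + n, fun N l hl => ?_⟩
  have key : ∀ l l1 l2 : List (Fin a → Fin N), m + n ≤ l.length + l1.length + l2.length →
      (l.map fun f => X.pull f (y + z)).prod * ((l1.map fun f => X.pull f y).prod *
        (l2.map fun f => X.pull f z).prod) = 0 := by
    intro l
    induction l with
    | nil =>
      intro l1 l2 h
      simp only [List.length_nil] at h
      by_cases h1 : m ≤ l1.length
      · rw [hm N l1 h1]; simp
      · rw [hn N l2 (by omega)]; simp
    | cons f l ih =>
      intro l1 l2 h
      simp only [List.length_cons] at h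
      have e1 := ih (f :: l1) l2 (by simp only [List.length_cons]; omega)
      have e2 := ih l1 (f :: l2) (by simp only [List.length_cons]; omega)
      simp only [List.map_cons, List.prod_cons, map_add] at e1 e2 ⊢
      linear_combination e1 + e2
  have := key l [] [] (by simpa using hl)
  simpa using this

theorem sn_mul {a : ℕ} (y : X.A a) {z : X.A a} (hz : SN X z) : SN X (y * z) := by
  obtain ⟨m, hm⟩ := hz
  refine ⟨m, fun N l hl => ?_⟩
  have : (l.map fun f => X.pull f (y * z)).prod =
      (l.map fun f => X.pull f y).prod * (l.map fun f => X.pull f z).prod := by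
    rw [← List.prod_map_mul]
    simp
  rw [this, hm N l hl, mul_zero]

theorem sn_pull {a b : ℕ} (g : Fin a → Fin b) {z : X.A a} (hz : SN X z) : SN X (X.pull g z) := by
  obtain ⟨m, hm⟩ := hz
  refine ⟨m, fun N l hl => ?_⟩
  have h1 := hm N (l.map fun f => fun i => f (g i)) (by simpa using hl)
  rw [List.map_map] at h1
  rw [← h1]
  congr 1
  refine List.map_congr_left fun f _ => ?_
  rw [X.pull_comp]
  rfl

theorem sn_push {n : ℕ} {z : X.A (n + 1)} (hz : SN X z) : SN X (X.push n z) := by
  obtain ⟨m, hm⟩ := hz
  have key : ∀ (r N : ℕ) (l : List (Fin n → Fin N)) (g : List (Fin (n + 1) → Fin N)),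
      l.length = r → m ≤ r + g.length →
      (l.map fun f => X.pull f (X.push n z)).prod * (g.map fun f => X.pull f z).prod = 0 := by
    intro r
    induction r with
    | zero =>
      intro N l g hl hg
      rw [hm N g (by omega), mul_zero]
    | succ r ih =>
      intro N l g hl hg
      rcases l with _ | ⟨f, l⟩
      · simp at hl
      · simp only [List.length_cons, Nat.add_right_cancel_iff] at hl
        have h1 := ih (N + 1) (l.map fun f => fun i => (f i).castSucc)
          (extend f :: g.map fun f => fun i => (f i).castSucc) (by simpa using hl)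
          (by simp only [List.length_cons, List.length_map]; omega)
        have h2 := congrArg (X.push N) h1
        rw [map_zero, List.map_cons, List.prod_cons, List.map_map, List.map_map] at h2
        have e1 : (l.map ((fun f => X.pull f (X.push n z)) ∘ fun f => fun i => (f i).castSucc)).prod
            = X.pull Fin.castSucc (l.map fun f => X.pull f (X.push n z)).prod := by
          rw [map_list_prod, List.map_map]
          congr 1
          refine List.map_congr_left fun f _ => ?_
          simp only [Function.comp]
          rw [X.pull_comp]
        have e2 : (g.map ((fun f => X.pull f z) ∘ fun f => fun i => (f i).castSucc)).prod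
            = X.pull Fin.castSucc (g.map fun f => X.pull f z).prod := by
          rw [map_list_prod, List.map_map]
          congr 1
          refine List.map_congr_left fun f _ => ?_
          simp only [Function.comp]
          rw [X.pull_comp]
        rw [e1, e2] at h2
        have e3 : X.pull Fin.castSucc (l.map fun f => X.pull f (X.push n z)).prod *
            (X.pull (extend f) z * X.pull Fin.castSucc (g.map fun f => X.pull f z).prod) =
            X.pull Fin.castSucc ((l.map fun f => X.pull f (X.push n z)).prod *
              (g.map fun f => X.pull f z).prod) * X.pull (extend f) z := by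
          rw [map_mul]; ring
        rw [e3, X.projection, X.base_change] at h2
        rw [List.map_cons, List.prod_cons, ← h2]
        ring
  refine ⟨m, fun N l hl => ?_⟩
  have := key l.length N l [] rfl (by simpa using hl)
  simpa using this

/-- the ideal of the smash-nilpotent classes -/
def snIdeal (a : ℕ) : Ideal (X.A a) where
  carrier := {z | SN X z}
  add_mem' := sn_add X
  zero_mem' := sn_zero X
  smul_mem' := fun y _ hz => sn_mul X y hz

end Pool.Agent.K3h8.GG
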