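import Pool.Agent.K3h8.GG.SmashA

/-!
# The quotient of the Chow rings of the powers by the smash-nilpotent classes: the structure
-/

set_option autoImplicit false

open Finset

namespace Pool.Agent.K3h8.GG

open Pool.Agent.K3h46.HP

variable (X : Powers)

/-- the push-forward on the quotients -/
noncomputable def qpushFun (n : ℕ) (q : X.A (n + 1) ⧸ snIdeal X (n + 1)) :
    X.A n ⧸ snIdeal X n :=
  Ideal.Quotient.mk _ (X.push n (Function.surjInv (Ideal.Quotient.mk_surjective
    (I := snIdeal X (n + 1))) q))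

theorem qpushFun_mk (n : ℕ) (z : X.A (n + 1)) :
    qpushFun X n (Ideal.Quotient.mk _ z) = Ideal.Quotient.mk _ (X.push n z) := by
  unfold qpushFun
  rw [Ideal.Quotient.eq, ← map_sub]
  apply sn_push
  have h := Function.surjInv_eq (Ideal.Quotient.mk_surjective (I := snIdeal X (n + 1)))
    (Ideal.Quotient.mk (snIdeal X (n + 1)) z)
  exact (Ideal.Quotient.eq.1 h)

theorem algebraMap_smul_mk {a : ℕ} (r : ℚ) (z : X.A a) :
    r • (Ideal.Quotient.mk (snIdeal X a) z) = Ideal.Quotient.mk (snIdeal X a) (r • z) := rfl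

/-- the push-forward on the quotients -/
noncomputable def qpush (n : ℕ) :
    (X.A (n + 1) ⧸ snIdeal X (n + 1)) →ₗ[ℚ] (X.A n ⧸ snIdeal X n) where
  toFun := qpushFun X n
  map_add' := by
    intro a b
    obtain ⟨a, rfl⟩ := Ideal.Quotient.mk_surjective a
    obtain ⟨b, rfl⟩ := Ideal.Quotient.mk_surjective b
    rw [← map_add, qpushFun_mk, qpushFun_mk, qpushFun_mk, map_add, map_add]
  map_smul' := by
    intro r a
    obtain ⟨a, rfl⟩ := Ideal.Quotient.mk_surjective a
    rw [algebraMap_smul_mk, qpushFun_mk, qpushFun_mk, map_smul]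
    rfl

/-- the pullback on the quotients -/
noncomputable def qpull {m n : ℕ} (f : Fin m → Fin n) :
    (X.A m ⧸ snIdeal X m) →ₐ[ℚ] (X.A n ⧸ snIdeal X n) :=
  Ideal.quotientMapₐ (snIdeal X n) (X.pull f) (fun _ hz => sn_pull X f hz)

theorem qpull_mk {m n : ℕ} (f : Fin m → Fin n) (z : X.A m) :
    qpull X f (Ideal.Quotient.mk _ z) = Ideal.Quotient.mk _ (X.pull f z) := rfl

/-- the rings modulo the smash-nilpotent classes -/
noncomputable def quot : Powers where
  A := fun n => X.A n ⧸ snIdeal X n
  pull := fun f => qpull X f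
  pull_id := by
    intro n x
    obtain ⟨x, rfl⟩ := Ideal.Quotient.mk_surjective x
    rw [qpull_mk, X.pull_id]
  pull_comp := by
    intro l m n f g x
    obtain ⟨x, rfl⟩ := Ideal.Quotient.mk_surjective x
    rw [qpull_mk, qpull_mk, qpull_mk, X.pull_comp]
  push := fun n => qpush X n
  projection := by
    intro n x y
    obtain ⟨x, rfl⟩ := Ideal.Quotient.mk_surjective x
    obtain ⟨y, rfl⟩ := Ideal.Quotient.mk_surjective y
    rw [qpull_mk, ← map_mul]
    change qpushFun X n _ = _ * qpushFun X n _
    rw [qpushFun_mk, qpushFun_mk, X.projection, map_mul]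
  base_change := by
    intro m n f x
    obtain ⟨x, rfl⟩ := Ideal.Quotient.mk_surjective x
    rw [qpull_mk]
    change qpushFun X n _ = qpull X f (qpushFun X m _)
    rw [qpushFun_mk, qpushFun_mk, qpull_mk, X.base_change]

/-- the projection to the quotient -/
noncomputable def quotHom : Powers.Hom X (quot X) where
  map := fun n => Ideal.Quotient.mkₐ ℚ (snIdeal X n)
  map_pull := fun _ _ => rfl
  map_push := fun n x => (qpushFun_mk X n x).symm

theorem quotHom_eq_zero {a : ℕ} (z : X.A a) : (quotHom X).map a z = 0 ↔ SN X z :=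
  Ideal.Quotient.eq_zero_iff_mem

end Pool.Agent.K3h8.GG
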