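import Pool.Agent.K3h8.GG.MatF
import Pool.Agent.K3h8.GG.SmashB

/-!
# One relation between matchings modulo smash-nilpotent classes
-/

set_option autoImplicit false

open Finset

namespace Pool.Agent.K3h8.GG

open Pool.Agent.K3h46.HP

theorem map_comb {X H : Powers} (c : Powers.Hom X H) (w : X.A 2) (k : ℕ)
    (a : (Fin k × Fin 2 ≃ Fin (k * 2)) → ℚ) :
    c.map (k * 2) (X.comb w k a) = H.comb (c.map 2 w) k a := by
  unfold Powers.comb
  rw [map_sum]
  refine Finset.sum_congr rfl fun e _ => ?_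
  rw [map_smul, map_prod]
  congr 1
  exact Finset.prod_congr rfl fun i _ => map_edge c w _ _

/-- **One relation modulo smash-nilpotent classes between at most `3 n + 5` pairs.** -/
theorem any_relation_smash (hPAR : S_PAR) (X : Powers) {w : X.A 2} {n : ℕ}
    (hw : X.IsProjector w (-(2 * n : ℕ))) {k : ℕ}
    (hk : k ≤ 3 * n + 5) (c : (Fin k × Fin 2 ≃ Fin (k * 2)) → ℚ) (hc : OfPairs c) (hc0 : c ≠ 0)
    {m : ℕ} (h : X.extPower (X.comb w k c) m = 0) :
    ∃ m', X.extPower (X.selfPower w (n + 1)) m' = 0 := by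
  have h1 : (quot X).comb ((quotHom X).map 2 w) k c = 0 := by
    rw [← map_comb]
    exact (quotHom_eq_zero X _).2 (sn_of_ext X h)
  have h2 := any_relation' hPAR (quot X) (map_projector (quotHom X) hw) hk c hc hc0 h1
  rw [← map_selfPower] at h2
  exact ext_of_sn X ((quotHom_eq_zero X _).1 h2)

end Pool.Agent.K3h8.GG
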