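import Pool.Agent.K3h8.GG.Defs
import Pool.Agent.K3h8.SF.PureMain
import Pool.Agent.K3h85.PG.Lin

/-!
# The growth of the algebra of permutations of a tensor power: statements of the parts

`PTr t` is the partial trace (over the letter number `0`) of a linear combination
`∑ u(σ) σ` of permutations of `n + 1` letters, for an object of dimension `t`.
-/

set_option autoImplicit false
set_option linter.unusedSectionVars false

open CategoryTheory Limits MonoidalCategory
open Pool.Agent.Y112.SR Pool.Agent.Y112.KD Pool.Agent.R905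
open Pool.Agent.Y116.MT (tr)
open Equiv (Perm swap)

noncomputable section

namespace Pool.Agent.K3h8.GG

universe v u w

/-- The permutation of the places `1, ..., n` given by a permutation of `0, ..., n - 1`; it fixes the
place `0`. -/
def up {n : ℕ} : Perm (Fin n) →* Perm (Fin (n + 1)) where
  toFun τ := Equiv.Perm.decomposeFin.symm (0, τ)
  map_one' := by
    ext x
    refine Fin.cases ?_ (fun i => ?_) x <;> simp
  map_mul' σ τ := by
    ext x
    refine Fin.cases ?_ (fun i => ?_) x <;> simp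

@[simp] theorem up_zero {n : ℕ} (τ : Perm (Fin n)) : up τ 0 = 0 := by simp [up]

@[simp] theorem up_succ {n : ℕ} (τ : Perm (Fin n)) (i : Fin n) : up τ i.succ = (τ i).succ := by
  simp [up]

/-- The partial trace over the letter number `0`. -/
def PTr (t : ℚ) {n : ℕ} (u : Perm (Fin (n + 1)) → ℚ) : Perm (Fin n) → ℚ :=
  fun τ => t * u (up τ) + ∑ i : Fin n, u (up τ * swap 0 i.succ)

/-- The action on the functions on the words of length `n` in `d` letters. -/
def act (d n : ℕ) : Perm (Fin n) →* Module.End ℚ ((Fin n → Fin d) → ℚ) where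
  toFun σ := LinearMap.funLeft ℚ ℚ (fun w : Fin n → Fin d => w ∘ σ)
  map_one' := by ext; simp [LinearMap.funLeft]
  map_mul' σ τ := by ext; simp [LinearMap.funLeft, Function.comp_def]

theorem act_apply {d n : ℕ} (σ : Perm (Fin n)) (f : (Fin n → Fin d) → ℚ) (w : Fin n → Fin d) :
    act d n σ f w = f (w ∘ σ) := rfl

/-- The operator of a linear combination of permutations. -/
def op (d n : ℕ) (u : Perm (Fin n) → ℚ) : Module.End ℚ ((Fin n → Fin d) → ℚ) :=
  ∑ σ, u σ • act d n σ

/-- brick COS: decomposition into cosets of the stabilizer of the letter `0`. -/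
def S_COS : Prop := ∀ (d n : ℕ) (v : Perm (Fin (n + 1)) → ℚ),
  ((∀ g, op d n (fun τ => v (g * up τ)) = 0) → op d (n + 1) v = 0) ∧
  ((∀ g, op d n (fun τ => v (up τ * g)) = 0) → op d (n + 1) v = 0)

/-- brick HW: a nonzero space of functions on words in `p + 1` letters which is stable under all
permutations, and on which `∑ (0 i)` is the scalar `-p`, and which is stable under the operators
which replace a letter by another one. -/
def S_HW : Prop := ∀ (p n : ℕ) (W : Submodule ℚ ((Fin (n + 1) → Fin (p + 1)) → ℚ)), W ≠ ⊥ →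
  (∀ σ, ∀ f ∈ W, act (p + 1) (n + 1) σ f ∈ W) →
  (∀ a b : Fin (p + 1), ∀ f ∈ W, (fun w : Fin (n + 1) → Fin (p + 1) =>
    ∑ i, if w i = a then f (Function.update w i b) else 0) ∈ W) →
  (∀ f ∈ W, ∑ i : Fin n, act (p + 1) (n + 1) (swap 0 i.succ) f = (-(p : ℚ)) • f) →
  n = p ∧ ∀ σ, ∀ f ∈ W, act (p + 1) (n + 1) σ f = ((Equiv.Perm.sign σ : ℤ) : ℚ) • f

/-- brick COMB: ideals of relations between permutations. -/
def S_COMB : Prop := ∀ (p : ℕ) (I : ∀ n, Submodule ℚ (Perm (Fin n) → ℚ)), I 0 = ⊥ →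
  (∀ n, ∀ u ∈ I n, ∀ g, (fun σ => u (g * σ)) ∈ I n) →
  (∀ n, ∀ u ∈ I n, ∀ g, (fun σ => u (σ * g)) ∈ I n) →
  (∀ n, ∀ u ∈ I (n + 1), PTr p u ∈ I n) →
  (∃ n, ∃ u ∈ I n, op (p + 1) n u ≠ 0) →
  (fun σ => ((Equiv.Perm.sign σ : ℤ) : ℚ)) ∈ I (p + 1)

/-- brick DIM: lower bound for the dimension of the algebra of permutations on words (from the
theorem `rank_fixM` of helper85). -/
def S_DIM : Prop := ∀ d n : ℕ, d ^ (2 * n) ≤
  Module.finrank ℚ (Submodule.span ℚ (Set.range (act d n))) * Nat.multichoose (d ^ 2) n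

/-- brick GRO: comparison of the growth. -/
def S_GRO : Prop := ∀ (d : ℕ) (a : ℕ → ℕ) (β D : ℝ), β < ((d ^ 2 : ℕ) : ℝ) → 0 ≤ β →
  (∀ n, d ^ (2 * n) ≤ a n * Nat.multichoose (d ^ 2) n) →
  ¬ ∃ᶠ n : ℕ in Filter.atTop, (a n : ℝ) ≤ D * β ^ n

section

variable (C : Type u) [Category.{v} C] [Preadditive C] [Linear ℚ C] [MonoidalCategory C]
  [MonoidalPreadditive C] [MonoidalLinear ℚ C] [SymmetricCategory C] [RightRigidCategory C]

/-- brick CAT: the permutations of the factors of a tensor power. -/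
def S_CAT : Prop := ∀ (X : C) (t : ℚ), tr (𝟙 X) = t • 𝟙 _ →
  ∃ ρ : ∀ n, Perm (Fin n) →* End (tp X n),
    (∀ n, Submodule.span ℚ (Set.range (ρ n)) = (permAlg X n).toSubmodule) ∧
    (∀ n (u : Perm (Fin (n + 1)) → ℚ),
      (ptr (show tp X n ⊗ X ⟶ tp X n ⊗ X from ∑ σ, u σ • ρ (n + 1) σ) : End (tp X n)) =
        ∑ τ, PTr t u τ • ρ n τ) ∧
    (∀ n (i : Fin n), IsSwap X (n + 1) (ρ (n + 1) (swap i.castSucc i.succ)))

variable [IsIdempotentComplete C]

/-- brick UB: the upper bound for an object with a vanishing power. -/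
def S_UB : Prop := ∀ (K : Type w) [Field K] (R : SuperRealisation C K) (_ : UnitQ C) (M : C) (d : ℚ)
  (_ : d = 1 ∨ d = -1) (_ : R.par M = (d : K) • 𝟙 _) (_ : IsKimuraFinite M) (n : ℕ),
  Module.finrank ℚ (permAlg M n) ≤ Module.finrank K (R.H.obj M) ^ (2 * n)

end

end Pool.Agent.K3h8.GG
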